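import Pool.Agent.TFN.ADefs

/-!
# TFN module A1: basic sets in a model of ZFC

`inh`: a model of ZFC is nonempty (axiom `inf`).  `emp_ex`: in `hE.inf`.  `upair_ex`, `sing_ex` (take `x = y`): `hE.pair`.
`union2_ex`: pair, then union.  `insert_ex`: `union2_ex` for `x` and `{y}`; `succ_ex` is the case `y = x`.
`pair_ex`: three times `upair_ex`.  Uniqueness: `hE.ext`.  `pair_inj`: Kuratowski pairs `{{x, x}, {x, y}}`: compare the
members `a = {x}`, `b = {x, y}` of `p`; by cases.  `not_self`: foundation for `{x}`.  `not_cycle`: foundation for `{x, y}`.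
`sub_antisymm`: `hE.ext`.  `diff_ex`: separation with the tactic `dfn` (`ZFC.sepP`).
-/

set_option autoImplicit false

namespace Pool.Agent.TFN

open Pool.Agent.BVU

universe u
variable {N : Type u} {E : N → N → Prop}

theorem ZFC_inh (hE : ZFC E) : Nonempty N := by
  obtain ⟨z, _⟩ := hE.inf
  exact ⟨z⟩

theorem emp_ex (hE : ZFC E) : ∃ e, IsEmp E e := by
  obtain ⟨z, ⟨e, _, h⟩, _⟩ := hE.inf
  exact ⟨e, h⟩

theorem emp_unique (hE : ZFC E) {e e' : N} (h : IsEmp E e) (h' : IsEmp E e') : e = e' := by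
  exact hE.ext e e' fun z => iff_of_false (h z) (h' z)

theorem upair_ex (hE : ZFC E) (x y : N) : ∃ z, IsUPair E x y z := by
  exact hE.pair x y

theorem sing_ex (hE : ZFC E) (x : N) : ∃ z, ∀ w, E w z ↔ w = x := by
  obtain ⟨z, hz⟩ := hE.pair x x
  exact ⟨z, fun w => (hz w).trans (or_self_iff)⟩

theorem union2_ex (hE : ZFC E) (x y : N) : ∃ z, ∀ w, E w z ↔ E w x ∨ E w y := by
  obtain ⟨p, hp⟩ := hE.pair x y
  obtain ⟨z, hz⟩ := hE.union p
  refine ⟨z, fun w => (hz w).trans ⟨?_, ?_⟩⟩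
  · rintro ⟨t, ht, hw⟩
    rcases (hp t).1 ht with rfl | rfl
    · exact Or.inl hw
    · exact Or.inr hw
  · rintro (hw | hw)
    · exact ⟨x, (hp x).2 (Or.inl rfl), hw⟩
    · exact ⟨y, (hp y).2 (Or.inr rfl), hw⟩

theorem insert_ex (hE : ZFC E) (x y : N) : ∃ z, ∀ w, E w z ↔ E w x ∨ w = y := by
  obtain ⟨s, hs⟩ := sing_ex hE y
  obtain ⟨z, hz⟩ := union2_ex hE x s
  exact ⟨z, fun w => (hz w).trans (or_congr Iff.rfl (hs w))⟩

theorem succ_ex (hE : ZFC E) (x : N) : ∃ s, IsSucc E x s := by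
  exact insert_ex hE x x

theorem pair_ex (hE : ZFC E) (x y : N) : ∃ p, IsPair E x y p := by
  obtain ⟨a, ha⟩ := upair_ex hE x x
  obtain ⟨b, hb⟩ := upair_ex hE x y
  obtain ⟨p, hp⟩ := upair_ex hE a b
  exact ⟨p, a, b, ha, hb, hp⟩

theorem pair_unique (hE : ZFC E) {x y p p' : N} (h : IsPair E x y p) (h' : IsPair E x y p') : p = p' := by
  obtain ⟨a, b, ha, hb, hp⟩ := h
  obtain ⟨a', b', ha', hb', hp'⟩ := h'
  have h1 : a = a' := hE.ext a a' fun z => (ha z).trans (ha' z).symm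
  have h2 : b = b' := hE.ext b b' fun z => (hb z).trans (hb' z).symm
  subst h1
  subst h2
  exact hE.ext p p' fun z => (hp z).trans (hp' z).symm

theorem pair_inj (hE : ZFC E) {x y x' y' p : N} (h : IsPair E x y p) (h' : IsPair E x' y' p) :
    x = x' ∧ y = y' := by
  obtain ⟨a, b, ha, hb, hp⟩ := h
  obtain ⟨a', b', ha', hb', hp'⟩ := h'
  have hxa : E x a := (ha x).2 (Or.inl rfl)
  have hxa' : E x' a' := (ha' x').2 (Or.inl rfl)
  have hxb' : E x' b' := (hb' x').2 (Or.inl rfl)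
  have hyb : E y b := (hb y).2 (Or.inr rfl)
  have hyb' : E y' b' := (hb' y').2 (Or.inr rfl)
  have hx : x = x' := by
    rcases (hp' a).1 ((hp a).2 (Or.inl rfl)) with h | h
    · rw [h] at hxa
      rcases (ha' x).1 hxa with h1 | h1 <;> exact h1
    · rw [← h] at hxb'
      rcases (ha x').1 hxb' with h1 | h1 <;> exact h1.symm
  subst hx
  refine ⟨rfl, ?_⟩
  rcases (hp' b).1 ((hp b).2 (Or.inr rfl)) with h | h
  · rw [h] at hyb
    have hy : y = x := by rcases (ha' y).1 hyb with h1 | h1 <;> exact h1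
    rcases (hp b').1 ((hp' b').2 (Or.inr rfl)) with h2 | h2
    · rw [h2] at hyb'
      have hy' : y' = x := by rcases (ha y').1 hyb' with h1 | h1 <;> exact h1
      rw [hy, hy']
    · rw [h2] at hyb'
      rcases (hb y').1 hyb' with h1 | h1
      · rw [hy, h1]
      · exact h1.symm
  · rw [h] at hyb
    rcases (hb' y).1 hyb with h1 | h1
    · rw [← h] at hyb'
      rcases (hb y').1 hyb' with h2 | h2
      · rw [h1, h2]
      · exact h2.symm
    · exact h1

theorem not_self (hE : ZFC E) (x : N) : ¬ E x x := by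
  intro h
  obtain ⟨z, hz⟩ := sing_ex hE x
  obtain ⟨y, hy, hy'⟩ := hE.found z ⟨x, (hz x).2 rfl⟩
  have h1 := (hz y).1 hy
  rw [h1] at hy'
  exact hy' x h ((hz x).2 rfl)

theorem not_cycle (hE : ZFC E) (x y : N) : ¬ (E x y ∧ E y x) := by
  rintro ⟨h, h'⟩
  obtain ⟨z, hz⟩ := hE.pair x y
  obtain ⟨t, ht, ht'⟩ := hE.found z ⟨x, (hz x).2 (Or.inl rfl)⟩
  rcases (hz t).1 ht with rfl | rfl
  · exact ht' y h' ((hz y).2 (Or.inr rfl))
  · exact ht' x h ((hz x).2 (Or.inl rfl))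

theorem sub_antisymm (hE : ZFC E) {x y : N} (h : Sub E x y) (h' : Sub E y x) : x = y := by
  exact hE.ext x y fun z => ⟨h z, h' z⟩

theorem diff_ex (hE : ZFC E) (x y : N) : ∃ z, ∀ w, E w z ↔ E w x ∧ ¬ E w y := by
  exact hE.sep (.neg (.mem 0 1)) (fun _ => y) x

end Pool.Agent.TFN
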