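import Pool.Agent.TFN.A5

/-!
# TFN module A10: the space is separable

`om_ctbl`: `om` is countable: `f = {(n, n) : n ∈ om}` exists by replacement (`ZFC.replP` with `Q a p := IsPair E a a p`; existence and
uniqueness of the pair: `pair_ex`, `pair_unique`).  `f` is single-valued: `IsPair n y p`, `p ∈ f`, i.e. `IsPair a a p` gives `n = a = y`
(`pair_inj`).
`separable_of_tower`: `D = om`.  Let `x ∈ X` and let `U` be open with `x ∈ U`.  If `x ∈ om` take `a = x`.  If `Pt x`: `Op U` gives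
`s ∈ T`, `s < x`, and `n ∈ om` with `k ∈ x → k ∈ s ∨ k ∈ n ∨ k ∈ U`.  As `¬ AS x s`, for this `n` there is `k ∈ x` with `k ∉ s`, `k ∉ n`;
so `k ∈ U`, and `k ∈ om` (`TT_sub`).
-/

set_option autoImplicit false

namespace Pool.Agent.TFN

open Pool.Agent.BVU

universe u
variable {N : Type u} {E : N → N → Prop}

theorem om_ctbl (hE : ZFC E) {om : N} (hom : IsOmega E om) : IsCtbl E om := by
  have : Inhabited N := Classical.inhabited_of_nonempty (ZFC_inh hE)
  have hdef : Dfn E (fun v : ℕ → N => IsPair E (v 0) (v 0) (v 1)) := by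
    unfold IsPair IsUPair
    repeat' (first
      | exact Tm.var _
      | exact Tm.cst _
      | exact Dfn.prop _
      | apply Dfn.mem
      | apply Dfn.eq
      | apply Dfn.and
      | apply Dfn.or
      | apply Dfn.iff
      | apply Dfn.not
      | apply Dfn.imp
      | apply Dfn.ex
      | apply Dfn.all)
  obtain ⟨f, hf⟩ := ZFC.replP hE (Q := fun a p => IsPair E a a p) hdef om (fun a _ => by
    obtain ⟨p, hp⟩ := pair_ex hE a a
    exact ⟨p, hp, fun q hq => pair_unique hE hq hp⟩)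
  refine ⟨om, f, hom, ?_, ?_⟩
  · intro n y y' p p' _ h1 h2 h3 h4
    obtain ⟨a, _, ha⟩ := (hf p).1 h2
    obtain ⟨a', _, ha'⟩ := (hf p').1 h4
    obtain ⟨e1, e2⟩ := pair_inj hE h1 ha
    obtain ⟨e3, e4⟩ := pair_inj hE h3 ha'
    rw [e2, e4, ← e1, ← e3]
  · intro y hy
    obtain ⟨p, hp⟩ := pair_ex hE y y
    exact ⟨y, p, hy, hp, (hf p).2 ⟨y, hy, hp⟩⟩

theorem separable_of_tower (hE : ZFC E) {n : ℕ} {om T : N} (hT : IsTower E n om T) {X τ : N}
    (hX : ∀ w, E w X ↔ (E w om ∨ Pt E om T w)) (hτ : ∀ U, E U τ ↔ Op E om T U) : IsSeparable E X τ := by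
  refine ⟨om, fun w hw => (hX w).2 (Or.inl hw), om_ctbl hE hT.omega, ?_⟩
  intro x hx
  refine ⟨hx, fun U hU hxU => ?_⟩
  rcases (hX x).1 hx with h | h
  · exact ⟨x, h, hxU⟩
  · obtain ⟨s, _, hlt, _, m, hm, hk⟩ := ((hτ U).1 hU).2 x h hxU
    by_contra hno
    refine hlt.2 ⟨m, hm, fun k hkx => ?_⟩
    rcases hk k hkx with h1 | h1 | h1
    · exact Or.inl h1
    · exact Or.inr h1
    · exact (hno ⟨k, TT_sub hT (TT_of_Pt h) k hkx, h1⟩).elim

end Pool.Agent.TFN
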