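import Pool.Agent.TFN.A7

/-!
# TFN module A11: the tightness is greater than aleph_n

Suppose `IsTight E n X τ`.  Let `A` = the nonempty elements of `T` (`ZFC.sepP`), `x = om`.
`om` is in the closure of `A`: let `U` be open, `om ∈ U`; `Op U` gives `s ∈ T`, `s < om` with `(s, om] ⊆ U`; `hT.unb` gives `t ∈ T` with `s < t`;
`Pt t` (`Pt_of_Slt`), so `t ∈ A` is nonempty (if `t = om` then `om ∈ T`, impossible by `hT.top`) and `t ≤ om` (`Slt_om`), so `t ∈ U`.
So there is `B ⊆ A` with `IsLe E n B` and `om` in the closure of `B`.  `B ⊆ T`, so `hT.bdd` gives `c ∈ T` with `s < c` for all `s ∈ B`.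
Take `D` from `clopen_ex` for `c`: `om ∈ D` (`Slt_om`), so some `b ∈ B` is in `D`: `Pt b` and `c < b` (contradiction to `b < c`:
`Slt_trans`, `Slt_irrefl`), or `b ∈ om`, impossible for `b ∈ T` nonempty (`Pt_not_nat`).
-/

set_option autoImplicit false

namespace Pool.Agent.TFN

open Pool.Agent.BVU

universe u
variable {N : Type u} {E : N → N → Prop}

theorem not_tight_of_tower (hE : ZFC E) {n : ℕ} {om T : N} (hT : IsTower E n om T) {X τ : N}
    (hX : ∀ w, E w X ↔ (E w om ∨ Pt E om T w)) (hτ : ∀ U, E U τ ↔ Op E om T U) : ¬ IsTight E n X τ := by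
  have : Inhabited N := ⟨(ZFC_inh hE).some⟩
  intro hti
  have homw : IsOmega E om := hT.omega
  obtain ⟨A, hA⟩ := ZFC.sepP hE (Q := fun w => ∃ z, E z w) (by dfn) T
  have hAX : Sub E A X := fun w hw => (hX w).2 (Or.inr (Or.inl ⟨((hA w).1 hw).1, ((hA w).1 hw).2⟩))
  have hcl : InCl E X τ A om := by
    refine ⟨(hX om).2 (Or.inr (Or.inr rfl)), ?_⟩
    intro U hU hoU
    obtain ⟨-, h2⟩ := (hτ U).1 hU
    obtain ⟨s, hsT, -, hs2, -⟩ := h2 om (Or.inr rfl) hoU
    obtain ⟨t, htT, hst⟩ := hT.unb s hsT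
    have hPt : Pt E om T t := Pt_of_Slt hE hT (Or.inl htT) hst
    have htom : t ≠ om := by
      rintro rfl
      exact hT.top t htT (AS_of_sub hE homw fun _ h => h)
    have hne : ∃ z, E z t := by
      rcases hPt with h | h
      · exact h.2
      · exact absurd h htom
    exact ⟨t, (hA t).2 ⟨htT, hne⟩, hs2 t hPt hst (Or.inl (Slt_om hE hT htT))⟩
  obtain ⟨B, hBA, hBn, hBcl⟩ := hti A om hAX hcl
  have hBT : Sub E B T := fun w hw => ((hA w).1 (hBA w hw)).1
  obtain ⟨c, hcT, hc⟩ := hT.bdd B hBT hBn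
  obtain ⟨_, D, _, hD, _, hDw, _⟩ := clopen_ex hE hT hcT
  obtain ⟨b, hbB, hbD⟩ := hBcl.2 D ((hτ D).2 hD) ((hDw om).2 (Or.inl ⟨Or.inr rfl, Slt_om hE hT hcT⟩))
  have hbc := hc b hbB
  rcases (hDw b).1 hbD with h | h
  · exact Slt_irrefl b (Slt_trans hE homw hbc h.2)
  · have hb := (hA b).1 (hBA b hbB)
    exact Pt_not_nat hE hT (Or.inl ⟨hb.1, hb.2⟩) h.1

end Pool.Agent.TFN
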