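import Pool.Agent.TFN.A5

/-!
# TFN module A12: the separation property for sets of points of the space

`H`, `K` are sets of points which are not natural numbers, each `t ∈ H` has `s ∈ T`, `s < t` such that no `r ∈ K` satisfies `s < r ≤ t`,
and the same with `H`, `K` exchanged.
* Case `om ∉ H`, `om ∉ K`: all elements are in `T`, apply `hT.sep` (`SepFrom` is literally the hypothesis: `¬ (Slt r t ∨ r = t)`).
* Case `om ∈ H` (`sepP_left`): the hypothesis for `t = om` gives `s₀ ∈ T` such that no `r ∈ K` satisfies `s₀ < r ≤ om`; every element of `K`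
  is `≤ om` (`Slt_om`), so all `r ∈ K` satisfy `r ≤ s₀` (`TT_le_or_lt`), in particular `om ∉ K` (`not_om_Slt`, and `om ≠ s₀` by
  `hT.top`) and `K ⊆ T`.  Let `H₁ = {t ∈ H : t ≤ s₀}` (`ZFC.sepP`; `H₁ ⊆ T`).  `hT.sep` for `H₁, K` gives `W₀`.  Let
  `W = {k : k ∈ W₀ ∨ (k ∈ om ∧ k ∉ s₀)}` (separate from `W₀ ∪ om`).
  For `t ∈ H₁`: same `s`, `n`.  For `t ∈ H`, not `t ≤ s₀`: `s₀ < t`, take `s = s₀`, `n` = the empty set: `k ∈ t` is in `om`, so `k ∈ s₀` or `k ∈ W`.
  For `t ∈ K`: take `s, n` for `W₀`; `t ≤ s₀` gives `m` with `k ∈ t → k ∈ s₀ ∨ k ∈ m`; with the maximum of `n, m`: `k ∈ s`, or `k ∈ n`, or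
  (`k ∉ W₀` and (`k ∈ m` or `k ∈ s₀`, so `k ∉ W`)).
* Case `om ∈ K`: apply `sepP_left` to `K, H`; get `W₁`; take `W = om \ W₁` (`diff_ex`): for `t ∈ H`: `k ∈ t`, `k ∉ W₁` gives `k ∈ W` as
  `t ⊆ om`; for `t ∈ K`: `k ∈ W₁` gives `k ∉ W`.
-/

set_option autoImplicit false

namespace Pool.Agent.TFN

open Pool.Agent.BVU

universe u
variable {N : Type u} {E : N → N → Prop}

/-- The points `t` of `H` can be separated from `K` by an interval. -/
def SepP (E : N → N → Prop) (om T H K : N) : Prop := ∀ t, E t H → Pt E om T t ∧ ∃ s, E s T ∧ Slt E om s t ∧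
  ∀ r, E r K → Slt E om s r → ¬ Sle E om r t

theorem sepP_left (hE : ZFC E) {n : ℕ} {om T : N} (hT : IsTower E n om T) {H K : N}
    (h : SepP E om T H K) (h' : SepP E om T K H) (hom : E om H) : ∃ W,
    (∀ t, E t H → ∃ s, E s T ∧ Slt E om s t ∧ ∃ n, E n om ∧ ∀ k, E k t → E k s ∨ E k n ∨ E k W) ∧
    (∀ t, E t K → ∃ s, E s T ∧ Slt E om s t ∧ ∃ n, E n om ∧ ∀ k, E k t → E k s ∨ E k n ∨ ¬ E k W) := by
  haveI : Inhabited N := ⟨om⟩
  obtain ⟨_, s0, hs0, hs0om, hs0K⟩ := h om hom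
  have hne : ∀ s, E s T → s ≠ om := by
    intro s hs he
    subst he
    exact hT.top s hs (AS_of_sub hE hT.omega (fun z hz => hz))
  have hKle : ∀ r, E r K → Sle E om r s0 := by
    intro r hr
    have hPt := (h' r hr).1
    have h1 : Sle E om r om := by
      rcases hPt with hp | hp
      · exact Or.inl (Slt_om hE hT hp.1)
      · exact Or.inr hp
    rcases TT_le_or_lt hE hT (TT_of_Pt hPt) (Or.inl hs0) with h2 | h2
    · exact h2
    · exact absurd h1 (hs0K r hr h2)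
  have hle_T : ∀ r, Pt E om T r → Sle E om r s0 → E r T := by
    intro r hr hle
    rcases hr with hp | hp
    · exact hp.1
    · exfalso
      subst hp
      rcases hle with h1 | h1
      · exact not_om_Slt hE hT (Or.inl hs0) h1
      · exact hne s0 hs0 h1.symm
  have hKT : ∀ r, E r K → E r T := fun r hr => hle_T r (h' r hr).1 (hKle r hr)
  obtain ⟨H1, hH1⟩ := ZFC.sepP hE (Q := fun t => Sle E om t s0)
    (Dfn.app2 (Dfn_Sle om) (Tm.var 0) (Tm.cst s0)) H
  have hS1 : SepFrom E om T H1 K := by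
    intro t ht
    obtain ⟨htH, htle⟩ := (hH1 t).1 ht
    obtain ⟨hp, s, hs, hst, hK⟩ := h t htH
    exact ⟨hle_T t hp htle, s, hs, hst, hK⟩
  have hS2 : SepFrom E om T K H1 := by
    intro t ht
    obtain ⟨hp, s, hs, hst, hK⟩ := h' t ht
    exact ⟨hKT t ht, s, hs, hst, fun r hr => hK r ((hH1 r).1 hr).1⟩
  obtain ⟨W0, hW1, hW2⟩ := hT.sep H1 K hS1 hS2
  obtain ⟨D, hD⟩ := diff_ex hE om s0
  obtain ⟨W, hW⟩ := union2_ex hE W0 D
  refine ⟨W, ?_, ?_⟩
  · intro t ht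
    have hp := (h t ht).1
    rcases TT_le_or_lt hE hT (TT_of_Pt hp) (Or.inl hs0) with hle | hlt
    · obtain ⟨s, hs, hst, n, hn, hk⟩ := hW1 t ((hH1 t).2 ⟨ht, hle⟩)
      refine ⟨s, hs, hst, n, hn, fun k hkt => ?_⟩
      rcases hk k hkt with h1 | h1 | h1
      · exact Or.inl h1
      · exact Or.inr (Or.inl h1)
      · exact Or.inr (Or.inr ((hW k).2 (Or.inl h1)))
    · obtain ⟨e, he⟩ := emp_ex hE
      refine ⟨s0, hs0, hlt, e, om_emp hT.omega he, fun k hkt => ?_⟩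
      by_cases hk : E k s0
      · exact Or.inl hk
      · exact Or.inr (Or.inr ((hW k).2 (Or.inr ((hD k).2 ⟨TT_sub hT (TT_of_Pt hp) k hkt, hk⟩))))
  · intro t ht
    obtain ⟨s, hs, hst, n, hn, hk⟩ := hW2 t ht
    obtain ⟨m, hm, hkm⟩ := AS_of_Sle hE hT.omega (hKle t ht)
    obtain ⟨l, hl, hnl, hml⟩ := om_max hE hT.omega hn hm
    refine ⟨s, hs, hst, l, hl, fun k hkt => ?_⟩
    rcases hk k hkt with h1 | h1 | h1
    · exact Or.inl h1
    · exact Or.inr (Or.inl (hnl k h1))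
    · rcases hkm k hkt with h2 | h2
      · refine Or.inr (Or.inr fun h3 => ?_)
        rcases (hW k).1 h3 with h4 | h4
        · exact h1 h4
        · exact ((hD k).1 h4).2 h2
      · exact Or.inr (Or.inl (hml k h2))

theorem sepP_all (hE : ZFC E) {n : ℕ} {om T : N} (hT : IsTower E n om T) {H K : N}
    (h : SepP E om T H K) (h' : SepP E om T K H) : ∃ W,
    (∀ t, E t H → ∃ s, E s T ∧ Slt E om s t ∧ ∃ n, E n om ∧ ∀ k, E k t → E k s ∨ E k n ∨ E k W) ∧
    (∀ t, E t K → ∃ s, E s T ∧ Slt E om s t ∧ ∃ n, E n om ∧ ∀ k, E k t → E k s ∨ E k n ∨ ¬ E k W) := by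
  by_cases hom : E om H
  · exact sepP_left hE hT h h' hom
  by_cases homK : E om K
  · obtain ⟨W1, h1, h2⟩ := sepP_left hE hT h' h homK
    obtain ⟨W, hW⟩ := diff_ex hE om W1
    refine ⟨W, ?_, ?_⟩
    · intro t ht
      obtain ⟨s, hs, hst, n, hn, hk⟩ := h2 t ht
      refine ⟨s, hs, hst, n, hn, fun k hkt => ?_⟩
      rcases hk k hkt with h3 | h3 | h3
      · exact Or.inl h3
      · exact Or.inr (Or.inl h3)
      · exact Or.inr (Or.inr ((hW k).2 ⟨TT_sub hT (TT_of_Pt (h t ht).1) k hkt, h3⟩))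
    · intro t ht
      obtain ⟨s, hs, hst, n, hn, hk⟩ := h1 t ht
      refine ⟨s, hs, hst, n, hn, fun k hkt => ?_⟩
      rcases hk k hkt with h3 | h3 | h3
      · exact Or.inl h3
      · exact Or.inr (Or.inl h3)
      · exact Or.inr (Or.inr fun h4 => ((hW k).1 h4).2 h3)
  · refine hT.sep H K ?_ ?_
    · intro t ht
      obtain ⟨hp, s, hs, hst, hK⟩ := h t ht
      refine ⟨?_, s, hs, hst, hK⟩
      rcases hp with hp | hp
      · exact hp.1
      · exact absurd (hp ▸ ht) hom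
    · intro t ht
      obtain ⟨hp, s, hs, hst, hK⟩ := h' t ht
      refine ⟨?_, s, hs, hst, hK⟩
      rcases hp with hp | hp
      · exact hp.1
      · exact absurd (hp ▸ ht) homK

end Pool.Agent.TFN
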