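import Pool.Agent.TFN.A12

/-!
# TFN module A13: open sets from good intervals

`GoodLB K W s t`: `s ∈ T`, `s < t`, `(s, t]` is disjoint from `K`, and `t \ s ⊆* W \ K`.
`good_max`: let `t` have a bound `s₁` for which `(s₁, t] ∩ K = ∅` and `t \ s₁` is almost disjoint from `K`, and a bound `s₂` for which
`t \ s₂ ⊆* W`; then the maximum `s` of `s₁, s₂` (`T_max`) is good: for `s < r ≤ t` also `s₁ < r` (`Slt_of_Sle_Slt`); for `k ∈ t`, `k ∉ s` and `k`
outside the maximum of the four natural numbers (two from the hypotheses, two from `AS s₁ s`, `AS s₂ s`), `k ∉ s₁`, `k ∉ s₂`, so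
`k ∉ K` and `k ∈ W`.
`open_of_good`: `U = {x : (x ∈ om and (x ∈ H or (x ∈ W and x ∉ K))) or (Pt x and for some t ∈ H, Pt t, and some s, GoodLB K W s t and
s < x ≤ t)}` (`points_ex`, definable by `Dfn_Good` etc. or by `dfn` after unfolding) is open: let `Pt x`, `x ∈ U` with `t, s`.  Take `s` for
`x`: `s < x`; if `s < r ≤ x` then `r ≤ t` (`Sle_trans`) so `r ∈ U`; `AS x t` gives `m`, `GoodLB` gives `n`; for `k ∈ x` outside `m`: `k ∈ t`; outside
`s`, `n`: `k ∈ W`, `k ∉ K`, so `k ∈ U` (`k ∈ om`).  (`Pt x` is not a natural number.)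
-/

set_option autoImplicit false

namespace Pool.Agent.TFN

open Pool.Agent.BVU

universe u
variable {N : Type u} {E : N → N → Prop}

theorem good_max (hE : ZFC E) {n : ℕ} {om T : N} (hT : IsTower E n om T) {K W t s₁ s₂ n₁ n₂ : N}
    (h1 : E s₁ T) (h1' : Slt E om s₁ t)
    (h1K : ∀ r, Pt E om T r → Slt E om s₁ r → Sle E om r t → ¬ E r K)
    (hn1 : E n₁ om) (h1n : ∀ k, E k t → E k s₁ ∨ E k n₁ ∨ ¬ E k K)
    (h2 : E s₂ T) (h2' : Slt E om s₂ t) (hn2 : E n₂ om) (h2n : ∀ k, E k t → E k s₂ ∨ E k n₂ ∨ E k W) :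
    ∃ s, GoodLB E om T K W s t := by
  obtain ⟨r, hr, hrt, hs1r, hs2r⟩ := T_max hE hT h1 h2 h1' h2'
  obtain ⟨m1, hm1, h3⟩ := AS_of_Sle hE hT.omega hs1r
  obtain ⟨m2, hm2, h4⟩ := AS_of_Sle hE hT.omega hs2r
  obtain ⟨l1, hl1, h5, h6⟩ := om_max hE hT.omega hn1 hn2
  obtain ⟨l2, hl2, h7, h8⟩ := om_max hE hT.omega hm1 hm2
  obtain ⟨l, hl, h9, h10⟩ := om_max hE hT.omega hl1 hl2
  refine ⟨r, hr, hrt, fun x hx hrx hxt => h1K x hx (Slt_of_Sle_Slt hE hT.omega hs1r hrx) hxt,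
    l, hl, fun k hk => ?_⟩
  by_cases hkr : E k r
  · exact Or.inl hkr
  by_cases hkl : E k l
  · exact Or.inr (Or.inl hkl)
  refine Or.inr (Or.inr ⟨?_, ?_⟩)
  · rcases h2n k hk with h | h | h
    · rcases h4 k h with h' | h'
      · exact absurd h' hkr
      · exact absurd (h10 k (h8 k h')) hkl
    · exact absurd (h9 k (h6 k h)) hkl
    · exact h
  · rcases h1n k hk with h | h | h
    · rcases h3 k h with h' | h'
      · exact absurd h' hkr
      · exact absurd (h10 k (h7 k h')) hkl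
    · exact absurd (h9 k (h5 k h)) hkl
    · exact h

theorem open_of_good (hE : ZFC E) {n : ℕ} {om T : N} (hT : IsTower E n om T) (H K W : N) :
    ∃ U, Op E om T U ∧
      (∀ x, E x om → (E x U ↔ E x H ∨ (E x W ∧ ¬ E x K))) ∧
      (∀ x, Pt E om T x → (E x U ↔ ∃ t s, E t H ∧ Pt E om T t ∧ GoodLB E om T K W s t ∧
        Slt E om s x ∧ Sle E om x t)) := by
  have : Inhabited N := Classical.inhabited_of_nonempty (ZFC_inh hE)
  obtain ⟨U, hU⟩ := points_ex hE om T (Q := fun x => (E x om ∧ (E x H ∨ (E x W ∧ ¬ E x K))) ∨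
    (Pt E om T x ∧ ∃ t s, E t H ∧ Pt E om T t ∧ GoodLB E om T K W s t ∧ Slt E om s x ∧
      Sle E om x t)) (by repeat' (first | exact Tm.var _ | exact Tm.cst _ | exact Dfn.prop _ | apply Dfn.mem | apply Dfn.eq | apply Dfn.ne | apply Dfn.and | apply Dfn.or | apply Dfn.iff | apply Dfn.not | apply Dfn.imp | apply Dfn.ex | apply Dfn.all))
  refine ⟨U, ⟨fun w hw => ((hU w).1 hw).1, fun x hx hxU => ?_⟩, fun x hx => ?_, fun x hx => ?_⟩
  · rcases ((hU x).1 hxU).2 with h | ⟨-, t, s, htH, htP, hg, hsx, hxt⟩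
    · exact absurd h.1 (Pt_not_nat hE hT hx)
    · obtain ⟨m, hm, h1⟩ := AS_of_Sle hE hT.omega hxt
      obtain ⟨n', hn', h2⟩ := hg.2.2.2
      obtain ⟨l, hl, h3, h4⟩ := om_max hE hT.omega hm hn'
      refine ⟨s, hg.1, hsx, fun r hr h5 h6 => (hU r).2 ⟨Or.inr hr, Or.inr ⟨hr, t, s, htH, htP, hg, h5,
        Sle_trans hE hT.omega h6 hxt⟩⟩, l, hl, fun k hk => ?_⟩
      have hkom : E k om := TT_sub hT (TT_of_Pt hx) k hk
      rcases h1 k hk with h | h
      · rcases h2 k h with h' | h' | h'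
        · exact Or.inl h'
        · exact Or.inr (Or.inl (h4 k h'))
        · exact Or.inr (Or.inr ((hU k).2 ⟨Or.inl hkom, Or.inl ⟨hkom, Or.inr h'⟩⟩))
      · exact Or.inr (Or.inl (h3 k h))
  · constructor
    · intro h
      rcases ((hU x).1 h).2 with h1 | h1
      · exact h1.2
      · exact absurd hx (Pt_not_nat hE hT h1.1)
    · intro h
      exact (hU x).2 ⟨Or.inl hx, Or.inl ⟨hx, h⟩⟩
  · constructor
    · intro h
      rcases ((hU x).1 h).2 with h1 | h1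
      · exact absurd h1.1 (Pt_not_nat hE hT hx)
      · exact h1.2
    · intro h
      exact (hU x).2 ⟨Or.inr hx, Or.inr ⟨hx, h⟩⟩

end Pool.Agent.TFN
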