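import Pool.Agent.TFN.A13

/-!
# TFN module A14: the space is hereditarily normal

Let `H, K ⊆ Y ⊆ X` be disjoint and relatively closed in `Y`.
`avoid`: if `t ∈ H`, `Pt t`, then `t` is not in the closure of `K` (it would be in `K`), so there is an open `V ∋ t` disjoint from `K`;
`Op V` gives `s ∈ T`, `s < t`, `(s, t] ∩ K = ∅` and `n` with `k ∈ t → k ∈ s ∨ k ∈ n ∨ k ∉ K`.  (Stated for an arbitrary set `K` and `t` not in
the closure of `K`.)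
Let `H' = {t ∈ H : Pt t}`, `K' = {t ∈ K : Pt t}` (`ZFC.sepP`).  `SepP H' K'` and `SepP K' H'` by `avoid`.  `sepP_all` gives `W`.  By
`good_max` every `t ∈ H'` has some `s` with `GoodLB K W s t`, and every `t ∈ K'` has some `s` with `GoodLB H W' s t`, where `W' = om \ W`
(`diff_ex`; `k ∈ t` is in `om`, so `k ∉ W` gives `k ∈ W'`).
Let `U` be from `open_of_good H K W` and `V` from `open_of_good K H W'`.
`H ⊆ U`: natural numbers clear; `Pt t`: with `t` itself, `t ≤ t`.  `K ⊆ V` similarly.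
Disjoint: a natural number `x` in both: (`x ∈ H` or `x ∈ W \ K`) and (`x ∈ K` or `x ∈ W' \ H`): all four cases are impossible.
`Pt x` in both: `x ∈ (s, t] ∩ (s', t']`, `t ∈ H`, `t' ∈ K`.  By `TT_lin`, `t ≤ t'` or `t' ≤ t`.  If `t ≤ t'`: `s' < x ≤ t` gives `s' < t ≤ t'`, so
`t ∉ H` by `GoodLB H W' s' t'`, contradiction.  If `t' ≤ t`: `s < x ≤ t'`, so `t' ∉ K`, contradiction.
`x ∈ Y` is a point (`Y ⊆ X`), so it is a natural number or `Pt`.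
-/

set_option autoImplicit false

namespace Pool.Agent.TFN

open Pool.Agent.BVU

universe u
variable {N : Type u} {E : N → N → Prop}

theorem avoid {om T X τ K t : N} (hX : ∀ w, E w X ↔ (E w om ∨ Pt E om T w))
    (hτ : ∀ U, E U τ ↔ Op E om T U) (ht : Pt E om T t) (h : ¬ InCl E X τ K t) :
    ∃ s, E s T ∧ Slt E om s t ∧ (∀ r, Pt E om T r → Slt E om s r → Sle E om r t → ¬ E r K) ∧
      ∃ n, E n om ∧ ∀ k, E k t → E k s ∨ E k n ∨ ¬ E k K := by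
  have h0 : ∃ U, E U τ ∧ E t U ∧ ∀ a, ¬ (E a K ∧ E a U) := by
    by_contra hcon
    apply h
    refine ⟨(hX t).2 (Or.inr ht), fun U hU htU => ?_⟩
    by_contra h2
    exact hcon ⟨U, hU, htU, fun a ha => h2 ⟨a, ha⟩⟩
  obtain ⟨U, hU, htU, hno⟩ := h0
  obtain ⟨s, hs, hlt, h1, n, hn, h2⟩ := ((hτ U).1 hU).2 t ht htU
  refine ⟨s, hs, hlt, fun r hr h3 h4 hK => hno r ⟨hK, h1 r hr h3 h4⟩, n, hn, fun k hk => ?_⟩
  rcases h2 k hk with h | h | h
  · exact Or.inl h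
  · exact Or.inr (Or.inl h)
  · exact Or.inr (Or.inr fun hK => hno k ⟨hK, h⟩)

theorem herNormal_of_tower (hE : ZFC E) {n : ℕ} {om T : N} (hT : IsTower E n om T) {X τ : N}
    (hX : ∀ w, E w X ↔ (E w om ∨ Pt E om T w)) (hτ : ∀ U, E U τ ↔ Op E om T U) : IsHerNormal E X τ := by
  intro Y H K hYX hHY hKY hdisj hHcl hKcl
  have : Inhabited N := Classical.inhabited_of_nonempty (ZFC_inh hE)
  obtain ⟨H', hH'⟩ := hE.sepP (Q := fun t => Pt E om T t) (Dfn_Pt om T) H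
  obtain ⟨K', hK'⟩ := hE.sepP (Q := fun t => Pt E om T t) (Dfn_Pt om T) K
  have hH1 : ∀ t, E t H → Pt E om T t → ¬ InCl E X τ K t := fun t h1 _ h3 =>
    hdisj t ⟨h1, hKcl t (hHY t h1) h3⟩
  have hK1 : ∀ t, E t K → Pt E om T t → ¬ InCl E X τ H t := fun t h1 _ h3 =>
    hdisj t ⟨hHcl t (hKY t h1) h3, h1⟩
  have hs1 : SepP E om T H' K' := by
    intro t ht
    obtain ⟨h1, h2⟩ := (hH' t).1 ht
    obtain ⟨s, hs, hlt, h3, -⟩ := avoid hX hτ h2 (hH1 t h1 h2)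
    exact ⟨h2, s, hs, hlt, fun r hr h4 h5 => h3 r ((hK' r).1 hr).2 h4 h5 ((hK' r).1 hr).1⟩
  have hs2 : SepP E om T K' H' := by
    intro t ht
    obtain ⟨h1, h2⟩ := (hK' t).1 ht
    obtain ⟨s, hs, hlt, h3, -⟩ := avoid hX hτ h2 (hK1 t h1 h2)
    exact ⟨h2, s, hs, hlt, fun r hr h4 h5 => h3 r ((hH' r).1 hr).2 h4 h5 ((hH' r).1 hr).1⟩
  obtain ⟨W, hW1, hW2⟩ := sepP_all hE hT hs1 hs2
  obtain ⟨W', hW'⟩ := diff_ex hE om W
  have hgH : ∀ t, E t H → Pt E om T t → ∃ s, GoodLB E om T K W s t := by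
    intro t h1 h2
    obtain ⟨s₁, hs1, hlt1, h3, n₁, hn1, h4⟩ := avoid hX hτ h2 (hH1 t h1 h2)
    obtain ⟨s₂, hs2, hlt2, n₂, hn2, h5⟩ := hW1 t ((hH' t).2 ⟨h1, h2⟩)
    exact good_max hE hT hs1 hlt1 h3 hn1 h4 hs2 hlt2 hn2 h5
  have hgK : ∀ t, E t K → Pt E om T t → ∃ s, GoodLB E om T H W' s t := by
    intro t h1 h2
    obtain ⟨s₁, hs1, hlt1, h3, n₁, hn1, h4⟩ := avoid hX hτ h2 (hK1 t h1 h2)
    obtain ⟨s₂, hs2, hlt2, n₂, hn2, h5⟩ := hW2 t ((hK' t).2 ⟨h1, h2⟩)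
    refine good_max hE hT hs1 hlt1 h3 hn1 h4 hs2 hlt2 hn2 fun k hk => ?_
    rcases h5 k hk with h | h | h
    · exact Or.inl h
    · exact Or.inr (Or.inl h)
    · exact Or.inr (Or.inr ((hW' k).2 ⟨TT_sub hT (TT_of_Pt h2) k hk, h⟩))
  obtain ⟨U, hU, hU1, hU2⟩ := open_of_good hE hT H K W
  obtain ⟨V, hV, hV1, hV2⟩ := open_of_good hE hT K H W'
  refine ⟨U, V, (hτ U).2 hU, (hτ V).2 hV, fun x hx => ?_, fun x hx => ?_, fun w hw hUV => ?_⟩
  · rcases (hX x).1 (hYX x (hHY x hx)) with h1 | h1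
    · exact (hU1 x h1).2 (Or.inl hx)
    · obtain ⟨s, hs⟩ := hgH x hx h1
      exact (hU2 x h1).2 ⟨x, s, hx, h1, hs, hs.2.1, Or.inr rfl⟩
  · rcases (hX x).1 (hYX x (hKY x hx)) with h1 | h1
    · exact (hV1 x h1).2 (Or.inl hx)
    · obtain ⟨s, hs⟩ := hgK x hx h1
      exact (hV2 x h1).2 ⟨x, s, hx, h1, hs, hs.2.1, Or.inr rfl⟩
  · obtain ⟨hwU, hwV⟩ := hUV
    rcases (hX w).1 (hYX w hw) with h1 | h1
    · rcases (hU1 w h1).1 hwU with h2 | ⟨h2, h2'⟩ <;> rcases (hV1 w h1).1 hwV with h3 | ⟨h3, h3'⟩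
      · exact hdisj w ⟨h2, h3⟩
      · exact h3' h2
      · exact h2' h3
      · exact ((hW' w).1 h3).2 h2
    · obtain ⟨t, s, ht, htP, hg, hsw, hwt⟩ := (hU2 w h1).1 hwU
      obtain ⟨t', s', ht', htP', hg', hsw', hwt'⟩ := (hV2 w h1).1 hwV
      have hlin : Sle E om t t' ∨ Sle E om t' t := by
        rcases TT_lin hE hT (TT_of_Pt htP) (TT_of_Pt htP') with h | h | h
        · exact Or.inl (Or.inr h)
        · exact Or.inl (Or.inl h)
        · exact Or.inr (Or.inl h)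
      rcases hlin with h | h
      · exact hg'.2.2.1 t htP (Slt_of_Slt_Sle hE hT.omega hsw' hwt) h ht
      · exact hg.2.2.1 t' htP' (Slt_of_Slt_Sle hE hT.omega hsw hwt') h ht'

end Pool.Agent.TFN
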