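import Pool.Agent.TFN.A7

/-!
# TFN module A15: the point at infinity is in the closure of the nonempty elements of the tower, but not in the closure
of a subset which is bounded in the tower
-/

set_option autoImplicit false

namespace Pool.Agent.TFN

open Pool.Agent.BVU

universe u
variable {N : Type u} {E : N → N → Prop}

theorem om_cl_of_tower (hE : ZFC E) {n : ℕ} {om T : N} (hT : IsTower E n om T) {X τ : N}
    (hX : ∀ w, E w X ↔ (E w om ∨ Pt E om T w)) (hτ : ∀ U, E U τ ↔ Op E om T U) :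
    ∃ A, Sub E A X ∧ InCl E X τ A om ∧ (∀ B, Sub E B A → Sub E B T) ∧
      ∀ B c, Sub E B A → E c T → (∀ s, E s B → Slt E om s c) → ¬ InCl E X τ B om := by
  have : Inhabited N := ⟨(ZFC_inh hE).some⟩
  obtain ⟨A, hA⟩ := points_ex hE om T (Q := fun w => E w T ∧ ∃ z, E z w) (by
    apply Dfn.and
    · exact Dfn.mem (Tm.var _) (Tm.cst _)
    · exact Dfn.ex (Dfn.mem (Tm.var _) (Tm.var _)))
  have hAT : ∀ w, E w A ↔ (E w T ∧ ∃ z, E z w) := fun w =>
    ⟨fun h => ((hA w).1 h).2, fun h => (hA w).2 ⟨Or.inr (Or.inl h), h⟩⟩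
  have hPom : Pt E om T om := Or.inr rfl
  refine ⟨A, fun w hw => (hX w).2 ((hA w).1 hw).1, ⟨(hX om).2 (Or.inr hPom), ?_⟩,
    fun B hB w hw => ((hAT w).1 (hB w hw)).1, ?_⟩
  · intro U hU hom
    obtain ⟨s, hs, hsom, hint, -⟩ := ((hτ U).1 hU).2 om hPom hom
    obtain ⟨t, ht, hst⟩ := hT.unb s hs
    have hPt : Pt E om T t := Pt_of_Slt hE hT (Or.inl ht) hst
    refine ⟨t, (hAT t).2 ?_, hint t hPt hst (Or.inl (Slt_om hE hT ht))⟩
    rcases hPt with h | h
    · exact h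
    · subst h
      exact absurd (Slt_om hE hT ht) (not_om_Slt hE hT (Or.inr rfl))
  · intro B c hB hc hbd hcl
    obtain ⟨C, D, hC, hD, hC', hD', hCD⟩ := clopen_ex hE hT hc
    obtain ⟨b, hb, hbD⟩ := hcl.2 D ((hτ D).2 hD) ((hD' om).2 (Or.inl ⟨hPom, Slt_om hE hT hc⟩))
    have hbc := hbd b hb
    rcases (hD' b).1 hbD with ⟨-, h⟩ | ⟨h, -⟩
    · exact h.2 hbc.1
    · exact Pt_not_nat hE hT (Or.inl ((hAT b).1 (hB b hb))) h

end Pool.Agent.TFN
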