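import Pool.Agent.TFN.A1

/-!
# TFN module A2: the natural numbers in a model of ZFC

`om_ind`: `Q` is definable, so `z = {x ∈ om : Q x}` exists (`ZFC.sepP`); it is inductive, hence `om ⊆ z` by `hom.2`.
`om_tr`: induction on `n` for the statement `∀ k, E k n → E k om` (definable, tactic `dfn`; first put an instance
`Inhabited N` in the context, from `ZFC_inh`).  `om_sub`: elements of natural numbers are subsets: induction on `n` for
`∀ m, E m n → Sub E m n`.  `om_lin` : `m ∈ n ∨ m = n ∨ n ∈ m`: induction on `n` (for all `m` in `om`).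
First `e ∈ m ∨ e = m` for the empty set `e` and every `m` in `om` (induction on `m`).  Successor step: let `s = n ∪ {n}`;
if `m ∈ n` or `m = n` then `m ∈ s`; if `n ∈ m` then `s ∈ m` or `s = m`, which is proved by induction on `m` :
for `m' = m ∪ {m}` and `n ∈ m'`: either `n = m`, so `s = m'` (ext), or `n ∈ m`, so `s ∈ m` or `s = m`, hence `s ∈ m'`.
`om_max`: by `om_lin` and `om_sub` one of the two contains the other.
`om_not_sub`: no natural number `n` contains `om` (else `n ∈ om ⊆ n`, `not_self`).
-/

set_option autoImplicit false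

namespace Pool.Agent.TFN

open Pool.Agent.BVU

universe u
variable {N : Type u} {E : N → N → Prop}

theorem om_ind (hE : ZFC E) {om : N} (hom : IsOmega E om) {Q : N → Prop} (hQ : Dfn E (fun v => Q (v 0)))
    (h0 : ∀ e, IsEmp E e → Q e) (hs : ∀ x s, E x om → Q x → IsSucc E x s → Q s) : ∀ n, E n om → Q n := by
  obtain ⟨z, hz⟩ := hE.sepP hQ om
  have hi : IsInd E z := by
    refine ⟨fun e he => (hz e).2 ⟨hom.1.1 e he, h0 e he⟩, fun x s hx hs' => ?_⟩
    obtain ⟨h1, h2⟩ := (hz x).1 hx
    exact (hz s).2 ⟨hom.1.2 x s h1 hs', hs x s h1 h2 hs'⟩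
  exact fun n hn => ((hz n).1 (hom.2 z hi n hn)).2

theorem om_emp {om : N} (hom : IsOmega E om) {e : N} (he : IsEmp E e) : E e om :=
  hom.1.1 e he

theorem om_succ {om : N} (hom : IsOmega E om) {x s : N} (hx : E x om) (hs : IsSucc E x s) : E s om :=
  hom.1.2 x s hx hs

theorem om_tr (hE : ZFC E) {om : N} (hom : IsOmega E om) {n k : N} (hn : E n om) (hk : E k n) : E k om := by
  have : Inhabited N := ⟨n⟩
  have h := om_ind hE hom (Q := fun n => ∀ k, E k n → E k om) (by repeat' (first | exact Tm.var _ | exact Tm.cst _ | exact Dfn.prop _ | apply Dfn.mem | apply Dfn.eq | apply Dfn.ne | apply Dfn.and | apply Dfn.or | apply Dfn.iff | apply Dfn.not | apply Dfn.imp | apply Dfn.ex | apply Dfn.all))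
    (fun e he k hk => absurd hk (he k))
    (fun x s hx ih hs k hk => by
      rcases (hs k).1 hk with h | h
      · exact ih k h
      · rw [h]
        exact hx)
  exact h n hn k hk

theorem om_sub (hE : ZFC E) {om : N} (hom : IsOmega E om) {n m : N} (hn : E n om) (hm : E m n) :
    Sub E m n := by
  have : Inhabited N := ⟨n⟩
  have h := om_ind hE hom (Q := fun n => ∀ m, E m n → ∀ z, E z m → E z n) (by repeat' (first | exact Tm.var _ | exact Tm.cst _ | exact Dfn.prop _ | apply Dfn.mem | apply Dfn.eq | apply Dfn.ne | apply Dfn.and | apply Dfn.or | apply Dfn.iff | apply Dfn.not | apply Dfn.imp | apply Dfn.ex | apply Dfn.all))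
    (fun e he k hk => absurd hk (he k))
    (fun x s hx ih hs k hk z hz => by
      rcases (hs k).1 hk with h | h
      · exact (hs z).2 (Or.inl (ih k h z hz))
      · rw [h] at hz
        exact (hs z).2 (Or.inl hz))
  exact h n hn m hm

theorem om_lin (hE : ZFC E) {om : N} (hom : IsOmega E om) {m n : N} (hm : E m om) (hn : E n om) :
    E m n ∨ m = n ∨ E n m := by
  have : Inhabited N := ⟨n⟩
  obtain ⟨e, he⟩ := emp_ex hE
  have h0 := om_ind hE hom (Q := fun m => E e m ∨ e = m) (by repeat' (first | exact Tm.var _ | exact Tm.cst _ | exact Dfn.prop _ | apply Dfn.mem | apply Dfn.eq | apply Dfn.ne | apply Dfn.and | apply Dfn.or | apply Dfn.iff | apply Dfn.not | apply Dfn.imp | apply Dfn.ex | apply Dfn.all))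
    (fun e' he' => Or.inr (emp_unique hE he he'))
    (fun x s hx ih hs => Or.inl ((hs e).2 ih))
  have h := om_ind hE hom (Q := fun n => ∀ m, E m om → E m n ∨ m = n ∨ E n m) (by repeat' (first | exact Tm.var _ | exact Tm.cst _ | exact Dfn.prop _ | apply Dfn.mem | apply Dfn.eq | apply Dfn.ne | apply Dfn.and | apply Dfn.or | apply Dfn.iff | apply Dfn.not | apply Dfn.imp | apply Dfn.ex | apply Dfn.all))
    (fun e' he' m hm => by
      rw [← emp_unique hE he he']
      rcases h0 m hm with h | h
      · exact Or.inr (Or.inr h)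
      · exact Or.inr (Or.inl h.symm))
    (fun n s hn ih hs m hm => by
      have h1 : ∀ m, E m om → E n m → E s m ∨ s = m := by
        have h2 := om_ind hE hom (Q := fun m => E n m → E s m ∨ s = m) (by repeat' (first | exact Tm.var _ | exact Tm.cst _ | exact Dfn.prop _ | apply Dfn.mem | apply Dfn.eq | apply Dfn.ne | apply Dfn.and | apply Dfn.or | apply Dfn.iff | apply Dfn.not | apply Dfn.imp | apply Dfn.ex | apply Dfn.all))
          (fun e' he' h => absurd h (he' n))
          (fun x t hx ihx ht hnt => by
            rcases (ht n).1 hnt with h | h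
            · rcases ihx h with h' | h'
              · exact Or.inl ((ht s).2 (Or.inl h'))
              · exact Or.inl ((ht s).2 (Or.inr h'))
            · right
              refine hE.ext _ _ fun w => ?_
              rw [hs w, ht w, h])
        exact h2
      rcases ih m hm with h | h | h
      · exact Or.inl ((hs m).2 (Or.inl h))
      · exact Or.inl ((hs m).2 (Or.inr h))
      · rcases h1 m hm h with h' | h'
        · exact Or.inr (Or.inr h')
        · exact Or.inr (Or.inl h'.symm))
  exact h n hn m hm

theorem om_max (hE : ZFC E) {om : N} (hom : IsOmega E om) {m n : N} (hm : E m om) (hn : E n om) :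
    ∃ l, E l om ∧ Sub E m l ∧ Sub E n l := by
  rcases om_lin hE hom hm hn with h | h | h
  · exact ⟨n, hn, om_sub hE hom hn h, fun z hz => hz⟩
  · rw [h]
    exact ⟨n, hn, fun z hz => hz, fun z hz => hz⟩
  · exact ⟨m, hm, fun z hz => hz, om_sub hE hom hm h⟩

theorem om_not_sub (hE : ZFC E) {om : N} (hom : IsOmega E om) {n : N} (hn : E n om) : ¬ Sub E om n :=
  fun h => not_self hE n (h n hn)

end Pool.Agent.TFN
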