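import Pool.Agent.TFN.A1

/-!
# TFN module A3: finite sets in a model of ZFC

`fin_emp`: immediate.  `fin_insert`: let `b = a ∪ {y}` and let `F` contain the empty set and be closed under adding one
element of `b`.  Then `F` is closed under adding one element of `a ⊆ b`, so `a ∈ F`, and `b = a ∪ {y} ∈ F`.
`fin_ind`: let `F = {a ⊆ x : Q a}` (power set of `x` and `ZFC.sepP`).  `F` contains the empty set (`h0`) and is closed under
adding one element of `x` (`hs`), so `x ∈ F`.
`fin_union`: induction (`fin_ind`) on `b' ⊆ b` for `Q b' := ∀ c, c = a ∪ b' → IsFin c` (definable, tactic `dfn`; `IsFin` is a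
`def`, the tactic looks through it; use `a`, `b` as constants).
-/

set_option autoImplicit false

namespace Pool.Agent.TFN

open Pool.Agent.BVU

universe u
variable {N : Type u} {E : N → N → Prop}

theorem fin_emp {e : N} (he : IsEmp E e) : IsFin E e :=
  fun _ h0 _ => h0 e he

theorem fin_insert {a y b : N} (ha : IsFin E a) (hb : ∀ w, E w b ↔ E w a ∨ w = y) : IsFin E b := by
  intro F h0 hs
  have h1 : E a F := ha F h0 (fun a' y' b' h1 h2 h3 => hs a' y' b' h1 ((hb y').2 (Or.inl h2)) h3)
  exact hs a y b h1 ((hb y).2 (Or.inr rfl)) hb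

theorem fin_ind (hE : ZFC E) {x : N} (hx : IsFin E x) {Q : N → Prop} (hQ : Dfn E (fun v => Q (v 0)))
    (h0 : ∀ e, IsEmp E e → Q e)
    (hs : ∀ a y b, Sub E a x → Q a → E y x → (∀ w, E w b ↔ E w a ∨ w = y) → Q b) : Q x := by
  obtain ⟨P, hP⟩ := hE.power x
  obtain ⟨F, hF⟩ := hE.sepP hQ P
  have h1 : E x F := by
    refine hx F (fun e he => (hF e).2 ⟨(hP e).2 fun z hz => absurd hz (he z), h0 e he⟩) ?_
    intro a y b ha hy hb
    obtain ⟨h2, h3⟩ := (hF a).1 ha
    have h4 : Sub E a x := (hP a).1 h2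
    refine (hF b).2 ⟨(hP b).2 fun z hz => ?_, hs a y b h4 h3 hy hb⟩
    rcases (hb z).1 hz with h5 | h5
    · exact h4 z h5
    · rw [h5]
      exact hy
  exact ((hF x).1 h1).2

theorem fin_union (hE : ZFC E) {a b c : N} (ha : IsFin E a) (hb : IsFin E b)
    (hc : ∀ w, E w c ↔ E w a ∨ E w b) : IsFin E c := by
  have : Inhabited N := ⟨a⟩
  have h := fin_ind hE hb (Q := fun b' => ∀ c, (∀ w, E w c ↔ E w a ∨ E w b') → IsFin E c) (by repeat' (first | exact Tm.var _ | exact Tm.cst _ | exact Dfn.prop _ | apply Dfn.mem | apply Dfn.eq | apply Dfn.ne | apply Dfn.and | apply Dfn.or | apply Dfn.iff | apply Dfn.not | apply Dfn.imp | apply Dfn.ex | apply Dfn.all))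
    (fun e he c hc => by
      have h1 : c = a := by
        refine hE.ext c a fun w => ?_
        rw [hc w]
        exact ⟨fun h => h.resolve_right (he w), Or.inl⟩
      rw [h1]
      exact ha)
    (fun a' y b' _ hQ hy hb' c hc => by
      obtain ⟨c', hc'⟩ := union2_ex hE a a'
      refine fin_insert (hQ c' hc') (y := y) fun w => ?_
      rw [hc w, hb' w, hc' w, or_assoc])
  exact h c hc

end Pool.Agent.TFN
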