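import Pool.Agent.TFN.A2

/-!
# TFN module A4: the order modulo finite and the order of the tower

`AS om s t`: some `n ∈ om` with `∀ k ∈ s, k ∈ t ∨ k ∈ n`.
`AS_of_sub`: `n = 0` (the empty set, `emp_ex`).  `AS_trans`: maximum of the two natural numbers (`om_max`).
`Slt_trans`: `AS_trans`; if `AS r s` then with `AS s t` also `AS r t`, contradicting `t < r`.
`Slt_irrefl`: by definition.  `Slt_of_AS_Slt`, `Slt_of_Slt_AS`: the same computation.
`TT_sub`: elements of `T ∪ {om}` are subsets of `om`.  `Slt_om`: `t ⊆ om` gives `AS t om`, and `hT.top`.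
`TT_lin`: `hT.lin` and `Slt_om`.  `not_om_Slt`: `om < t` would contain `¬ AS t om`, but `t ⊆ om` (`AS_of_sub`).  `emp_Slt`: let `e` be the empty set, `Pt t`.  If `t ∈ T` is nonempty: by `hT.lin e t` (`e ∈ T` by `hT.emp`) either
`e = t` (impossible), `e < t` (done), or `t < e`, impossible because `AS e t` holds trivially.  If `t = om`: `Slt_om`.
`Pt_not_nat`: if `Pt t` and `t ∈ om` then `AS t e` (with `n = t`), contradicting `emp_Slt`.
`Pt_of_Slt`: if `s < t`, `t ∈ T` then `t` is nonempty (otherwise `AS t s`).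
`TT_least`: if some `t ∈ T` satisfies `Q`, apply `hT.wf` to `{t ∈ T : Q t}`; otherwise `t = om` works (nothing in `T` satisfies
`Q`, and `om < om` is false).
-/

set_option autoImplicit false

namespace Pool.Agent.TFN

open Pool.Agent.BVU

universe u
variable {N : Type u} {E : N → N → Prop}

section
variable {om T : N}

theorem AS_of_sub (hE : ZFC E) (hom : IsOmega E om) {s t : N} (h : Sub E s t) : AS E om s t := by
  obtain ⟨e, he⟩ := emp_ex hE
  exact ⟨e, om_emp hom he, fun k hk => Or.inl (h k hk)⟩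

theorem AS_trans (hE : ZFC E) (hom : IsOmega E om) {s t r : N} (h : AS E om s t) (h' : AS E om t r) :
    AS E om s r := by
  obtain ⟨m, hm, h1⟩ := h
  obtain ⟨n, hn, h2⟩ := h'
  obtain ⟨l, hl, hml, hnl⟩ := om_max hE hom hm hn
  refine ⟨l, hl, fun k hk => ?_⟩
  rcases h1 k hk with h3 | h3
  · rcases h2 k h3 with h4 | h4
    · exact Or.inl h4
    · exact Or.inr (hnl k h4)
  · exact Or.inr (hml k h3)

theorem Slt_irrefl (s : N) : ¬ Slt E om s s := fun h => h.2 h.1

theorem Slt_trans (hE : ZFC E) (hom : IsOmega E om) {s t r : N} (h : Slt E om s t) (h' : Slt E om t r) :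
    Slt E om s r :=
  ⟨AS_trans hE hom h.1 h'.1, fun h1 => h'.2 (AS_trans hE hom h1 h.1)⟩

theorem Slt_of_Slt_Sle (hE : ZFC E) (hom : IsOmega E om) {s t r : N} (h : Slt E om s t)
    (h' : Sle E om t r) : Slt E om s r := by
  rcases h' with h' | rfl
  · exact Slt_trans hE hom h h'
  · exact h

theorem Slt_of_Sle_Slt (hE : ZFC E) (hom : IsOmega E om) {s t r : N} (h : Sle E om s t)
    (h' : Slt E om t r) : Slt E om s r := by
  rcases h with h | rfl
  · exact Slt_trans hE hom h h'
  · exact h'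

theorem Sle_trans (hE : ZFC E) (hom : IsOmega E om) {s t r : N} (h : Sle E om s t)
    (h' : Sle E om t r) : Sle E om s r := by
  rcases h' with h' | rfl
  · exact Or.inl (Slt_of_Sle_Slt hE hom h h')
  · exact h

theorem AS_of_Sle (hE : ZFC E) (hom : IsOmega E om) {s t : N} (h : Sle E om s t) : AS E om s t := by
  rcases h with h | rfl
  · exact h.1
  · exact AS_of_sub hE hom fun z hz => hz

theorem not_Slt_of_Sle (hE : ZFC E) (hom : IsOmega E om) {s t : N} (h : Sle E om s t) :
    ¬ Slt E om t s := fun h' => h'.2 (AS_of_Sle hE hom h)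
end

section
variable {n : ℕ} {om T : N}

theorem TT_sub (hT : IsTower E n om T) {t : N} (h : InTo E om T t) : Sub E t om := by
  rcases h with h | rfl
  · exact hT.sub t h
  · exact fun z hz => hz

theorem TT_of_Pt {t : N} (h : Pt E om T t) : InTo E om T t := by
  rcases h with h | h
  · exact Or.inl h.1
  · exact Or.inr h

theorem Slt_om (hE : ZFC E) (hT : IsTower E n om T) {t : N} (h : E t T) : Slt E om t om :=
  ⟨AS_of_sub hE hT.omega (hT.sub t h), hT.top t h⟩

theorem not_om_Slt (hE : ZFC E) (hT : IsTower E n om T) {t : N} (h : InTo E om T t) : ¬ Slt E om om t :=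
  fun h' => h'.2 (AS_of_sub hE hT.omega (TT_sub hT h))

theorem TT_lin (hE : ZFC E) (hT : IsTower E n om T) {s t : N} (hs : InTo E om T s) (ht : InTo E om T t) :
    s = t ∨ Slt E om s t ∨ Slt E om t s := by
  rcases hs with hs | rfl
  · rcases ht with ht | rfl
    · exact hT.lin s t hs ht
    · exact Or.inr (Or.inl (Slt_om hE hT hs))
  · rcases ht with ht | rfl
    · exact Or.inr (Or.inr (Slt_om hE hT ht))
    · exact Or.inl rfl

theorem TT_le_or_lt (hE : ZFC E) (hT : IsTower E n om T) {s t : N} (hs : InTo E om T s) (ht : InTo E om T t) :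
    Sle E om s t ∨ Slt E om t s := by
  rcases TT_lin hE hT hs ht with h | h | h
  · exact Or.inl (Or.inr h)
  · exact Or.inl (Or.inl h)
  · exact Or.inr h

/-- An element of `T ∪ {om}` below some element of `T ∪ {om}` is in `T`. -/
theorem mem_T_of_Slt (hE : ZFC E) (hT : IsTower E n om T) {s t : N} (hs : InTo E om T s)
    (ht : InTo E om T t) (h : Slt E om s t) : E s T := by
  rcases hs with hs | rfl
  · exact hs
  · exact absurd h (not_om_Slt hE hT ht)

theorem emp_Slt (hE : ZFC E) (hT : IsTower E n om T) {e t : N} (he : IsEmp E e) (ht : Pt E om T t) :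
    Slt E om e t := by
  have h1 : AS E om e t := AS_of_sub hE hT.omega fun z hz => absurd hz (he z)
  rcases ht with ⟨ht, z, hz⟩ | rfl
  · rcases hT.lin e t (hT.emp e he) ht with h | h | h
    · rw [← h] at hz
      exact absurd hz (he z)
    · exact h
    · exact absurd h1 h.2
  · exact Slt_om hE hT (hT.emp e he)

theorem Pt_not_nat (hE : ZFC E) (hT : IsTower E n om T) {t : N} (ht : Pt E om T t) : ¬ E t om := by
  intro h
  obtain ⟨e, he⟩ := emp_ex hE
  exact (emp_Slt hE hT he ht).2 ⟨t, h, fun k hk => Or.inr hk⟩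

theorem Pt_of_Slt (hE : ZFC E) (hT : IsTower E n om T) {s t : N} (ht : InTo E om T t)
    (h : Slt E om s t) : Pt E om T t := by
  rcases ht with ht | rfl
  · left
    refine ⟨ht, ?_⟩
    by_contra hc
    exact h.2 (AS_of_sub hE hT.omega fun z hz => absurd ⟨z, hz⟩ hc)
  · exact Or.inr rfl

theorem Pt_or_emp (hE : ZFC E) (hT : IsTower E n om T) {t : N} (ht : InTo E om T t) :
    Pt E om T t ∨ IsEmp E t := by
  rcases ht with ht | rfl
  · by_cases h : ∃ z, E z t
    · exact Or.inl (Or.inl ⟨ht, h⟩)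
    · exact Or.inr fun z hz => h ⟨z, hz⟩
  · exact Or.inl (Or.inr rfl)

/-- the maximum of two elements of `T` below `t` -/
theorem T_max (hE : ZFC E) (hT : IsTower E n om T) {s s' t : N} (hs : E s T) (hs' : E s' T)
    (h : Slt E om s t) (h' : Slt E om s' t) :
    ∃ r, E r T ∧ Slt E om r t ∧ Sle E om s r ∧ Sle E om s' r := by
  rcases hT.lin s s' hs hs' with h1 | h1 | h1
  · exact ⟨s', hs', h', Or.inr h1, Or.inr rfl⟩
  · exact ⟨s', hs', h', Or.inl h1, Or.inr rfl⟩
  · exact ⟨s, hs, h, Or.inr rfl, Or.inl h1⟩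

theorem TT_least (hE : ZFC E) (hT : IsTower E n om T) {Q : N → Prop} (hQ : Dfn E (fun v => Q (v 0)))
    {t : N} (ht : InTo E om T t) (h : Q t) : ∃ t, InTo E om T t ∧ Q t ∧ ∀ s, InTo E om T s → Q s → ¬ Slt E om s t := by
  obtain ⟨z, hz⟩ := hE.sepP hQ T
  by_cases hne : ∃ s, E s z
  · obtain ⟨s, hs, hmin⟩ := hT.wf z (fun w hw => ((hz w).1 hw).1) hne
    obtain ⟨h1, h2⟩ := (hz s).1 hs
    refine ⟨s, Or.inl h1, h2, fun r hr hQr hlt => ?_⟩
    have h3 : E r T := mem_T_of_Slt hE hT hr (Or.inl h1) hlt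
    exact hmin r ((hz r).2 ⟨h3, hQr⟩) hlt
  · have h1 : ∀ s, E s T → ¬ Q s := fun s hs hq => hne ⟨s, (hz s).2 ⟨hs, hq⟩⟩
    rcases ht with ht | rfl
    · exact absurd h (h1 t ht)
    · refine ⟨t, Or.inr rfl, h, fun s hs hq hlt => ?_⟩
      rcases hs with hs | rfl
      · exact h1 s hs hq
      · exact Slt_irrefl _ hlt

end

end Pool.Agent.TFN
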