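import Pool.Agent.TFN.A4

/-!
# TFN module A5: the space exists

`X` is the set of all points: separate from `om ∪ T ∪ {om}` (`union2_ex`, `insert_ex`, `ZFC.sepP`), the predicate
`fun w => E w om ∨ Pt E om T w` is definable (tactic `dfn`; `Inhabited N` from `ZFC_inh`).
`τ`: separate the open sets from the power set of `X` (`hE.power`), `Op E om T` is definable by `dfn` (it looks through the
definitions `Op`, `Pt`, `Slt`, `AS`, `Sle`).  `Dfn_Op`, `Dfn_Pt`, `Dfn_Slt`, `Dfn_Sle` are stated separately because they are used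
in other modules: all by `dfn` (unfold by hand if the tactic has difficulties; e.g. `unfold Op Pt Sle Slt AS; dfn`).
-/

set_option autoImplicit false

namespace Pool.Agent.TFN

open Pool.Agent.BVU

universe u
variable {N : Type u} {E : N → N → Prop}

section
variable [Inhabited N] (om T : N)

theorem Dfn_AS : Dfn E (fun v => AS E om (v 0) (v 1)) := by
  unfold AS
  repeat' (first | exact Tm.var _ | exact Tm.cst _ | exact Dfn.prop _ | apply Dfn.mem | apply Dfn.eq | apply Dfn.ne | apply Dfn.and | apply Dfn.or | apply Dfn.iff | apply Dfn.not | apply Dfn.imp | apply Dfn.ex | apply Dfn.all)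

theorem Dfn_Slt : Dfn E (fun v => Slt E om (v 0) (v 1)) := by
  unfold Slt AS
  repeat' (first | exact Tm.var _ | exact Tm.cst _ | exact Dfn.prop _ | apply Dfn.mem | apply Dfn.eq | apply Dfn.ne | apply Dfn.and | apply Dfn.or | apply Dfn.iff | apply Dfn.not | apply Dfn.imp | apply Dfn.ex | apply Dfn.all)

theorem Dfn_Sle : Dfn E (fun v => Sle E om (v 0) (v 1)) := by
  unfold Sle Slt AS
  repeat' (first | exact Tm.var _ | exact Tm.cst _ | exact Dfn.prop _ | apply Dfn.mem | apply Dfn.eq | apply Dfn.ne | apply Dfn.and | apply Dfn.or | apply Dfn.iff | apply Dfn.not | apply Dfn.imp | apply Dfn.ex | apply Dfn.all)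

theorem Dfn_Pt : Dfn E (fun v => Pt E om T (v 0)) := by
  unfold Pt
  repeat' (first | exact Tm.var _ | exact Tm.cst _ | exact Dfn.prop _ | apply Dfn.mem | apply Dfn.eq | apply Dfn.ne | apply Dfn.and | apply Dfn.or | apply Dfn.iff | apply Dfn.not | apply Dfn.imp | apply Dfn.ex | apply Dfn.all)

theorem Dfn_TT : Dfn E (fun v => InTo E om T (v 0)) := by
  unfold InTo
  repeat' (first | exact Tm.var _ | exact Tm.cst _ | exact Dfn.prop _ | apply Dfn.mem | apply Dfn.eq | apply Dfn.ne | apply Dfn.and | apply Dfn.or | apply Dfn.iff | apply Dfn.not | apply Dfn.imp | apply Dfn.ex | apply Dfn.all)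

theorem Dfn_Op : Dfn E (fun v => Op E om T (v 0)) := by
  unfold Op Pt Sle Slt AS
  repeat' (first | exact Tm.var _ | exact Tm.cst _ | exact Dfn.prop _ | apply Dfn.mem | apply Dfn.eq | apply Dfn.ne | apply Dfn.and | apply Dfn.or | apply Dfn.iff | apply Dfn.not | apply Dfn.imp | apply Dfn.ex | apply Dfn.all)

theorem Dfn_InC : Dfn E (fun v => InC E om T (v 0) (v 1)) := by
  unfold InC Pt Sle Slt AS
  repeat' (first | exact Tm.var _ | exact Tm.cst _ | exact Dfn.prop _ | apply Dfn.mem | apply Dfn.eq | apply Dfn.ne | apply Dfn.and | apply Dfn.or | apply Dfn.iff | apply Dfn.not | apply Dfn.imp | apply Dfn.ex | apply Dfn.all)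

theorem Dfn_Good : Dfn E (fun v => GoodLB E om T (v 0) (v 1) (v 2) (v 3)) := by
  unfold GoodLB Pt Sle Slt AS
  repeat' (first | exact Tm.var _ | exact Tm.cst _ | exact Dfn.prop _ | apply Dfn.mem | apply Dfn.eq | apply Dfn.ne | apply Dfn.and | apply Dfn.or | apply Dfn.iff | apply Dfn.not | apply Dfn.imp | apply Dfn.ex | apply Dfn.all)

end

/-- A set of points defined by a definable predicate exists. -/
theorem points_ex (hE : ZFC E) (om T : N) {Q : N → Prop} (hQ : Dfn E (fun v => Q (v 0))) :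
    ∃ z, ∀ w, E w z ↔ (E w om ∨ Pt E om T w) ∧ Q w := by
  have : Inhabited N := ⟨(ZFC_inh hE).some⟩
  obtain ⟨a, ha⟩ := union2_ex hE om T
  obtain ⟨b, hb⟩ := insert_ex hE a om
  obtain ⟨z, hz⟩ := hE.sepP (Q := fun w => (E w om ∨ Pt E om T w) ∧ Q w) (by
    apply Dfn.and _ hQ
    unfold Pt
    repeat' (first | exact Tm.var _ | exact Tm.cst _ | exact Dfn.prop _ | apply Dfn.mem | apply Dfn.eq | apply Dfn.ne | apply Dfn.and | apply Dfn.or | apply Dfn.iff | apply Dfn.not | apply Dfn.imp | apply Dfn.ex | apply Dfn.all)) b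
  refine ⟨z, fun w => (hz w).trans ⟨fun h => h.2, fun h => ⟨?_, h⟩⟩⟩
  rw [hb, ha]
  rcases h.1 with h | h | h
  · exact Or.inl (Or.inl h)
  · exact Or.inl (Or.inr h.1)
  · exact Or.inr h

theorem space_ex (hE : ZFC E) (om T : N) : ∃ X τ : N, (∀ w, E w X ↔ (E w om ∨ Pt E om T w)) ∧
    ∀ U, E U τ ↔ Op E om T U := by
  have : Inhabited N := ⟨(ZFC_inh hE).some⟩
  obtain ⟨X, hX⟩ := points_ex hE om T (Q := fun _ => True) (Dfn.prop _)
  obtain ⟨P, hP⟩ := hE.power X
  obtain ⟨τ, hτ⟩ := hE.sepP (Q := fun U => Op E om T U) (Dfn_Op om T) P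
  refine ⟨X, τ, fun w => (hX w).trans (and_iff_left trivial), fun U => (hτ U).trans ⟨fun h => h.2, fun h => ⟨?_, h⟩⟩⟩
  rw [hP]
  intro w hw
  exact (hX w).mpr ⟨h.1 w hw, trivial⟩

end Pool.Agent.TFN
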