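import Pool.Agent.TFN.A5

/-!
# TFN module A6: the open sets form a topology

`sub`: first part of `Op`.  `univ`: for `Pt t` take `s` = the empty set (`hT.emp`, `emp_Slt`) and `n` = the empty set: every
`k ∈ t` is in `om` (`TT_sub`), hence in `X`.
`inter`: for `t ∈ U ∩ V` take `s_U, n_U` and `s_V, n_V` and `r ∈ T` with `s_U, s_V ≤ r < t` (`T_max`).
If `r < r' ≤ t` then `s_U < r'` and `s_V < r'` (`Slt_of_Sle_Slt`), so `r' ∈ U ∩ V`.  For `k ∈ t`: `k ∈ s_U ∨ k ∈ n_U ∨ k ∈ U`, and `s_U ≤ r`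
gives `m` with `k ∈ s_U → k ∈ r ∨ k ∈ m` (`AS_of_Sle`); same for `V`; take the maximum of the four natural numbers (`om_max`).
`union`: `W` is the union of `S`; if `t ∈ W` then `t ∈ U ∈ S` and the data of `U` works.  The points of `W` are points.
-/

set_option autoImplicit false

namespace Pool.Agent.TFN

open Pool.Agent.BVU

universe u
variable {N : Type u} {E : N → N → Prop}

theorem Op_inter (hE : ZFC E) {n : ℕ} {om T : N} (hT : IsTower E n om T) {U V W : N} (hU : Op E om T U)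
    (hV : Op E om T V) (hW : ∀ w, E w W ↔ E w U ∧ E w V) : Op E om T W := by
  have hom := hT.omega
  refine ⟨fun w hw => hU.1 w ((hW w).1 hw).1, ?_⟩
  intro t ht htW
  obtain ⟨sU, hsU, hltU, hU1, nU, hnU, hU2⟩ := hU.2 t ht ((hW t).1 htW).1
  obtain ⟨sV, hsV, hltV, hV1, nV, hnV, hV2⟩ := hV.2 t ht ((hW t).1 htW).2
  obtain ⟨r, hr, hrt, hUr, hVr⟩ := T_max hE hT hsU hsV hltU hltV
  refine ⟨r, hr, hrt, ?_, ?_⟩
  · intro q hq hrq hqt
    exact (hW q).2 ⟨hU1 q hq (Slt_of_Sle_Slt hE hom hUr hrq) hqt,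
      hV1 q hq (Slt_of_Sle_Slt hE hom hVr hrq) hqt⟩
  · obtain ⟨mU, hmU, hmU'⟩ := AS_of_Sle hE hom hUr
    obtain ⟨mV, hmV, hmV'⟩ := AS_of_Sle hE hom hVr
    obtain ⟨a, ha, ha1, ha2⟩ := om_max hE hom hnU hmU
    obtain ⟨b, hb, hb1, hb2⟩ := om_max hE hom hnV hmV
    obtain ⟨c, hc, hc1, hc2⟩ := om_max hE hom ha hb
    refine ⟨c, hc, fun k hk => ?_⟩
    have h1 : E k r ∨ E k c ∨ E k U := by
      rcases hU2 k hk with h | h | h
      · rcases hmU' k h with h | h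
        · exact Or.inl h
        · exact Or.inr (Or.inl (hc1 k (ha2 k h)))
      · exact Or.inr (Or.inl (hc1 k (ha1 k h)))
      · exact Or.inr (Or.inr h)
    have h2 : E k r ∨ E k c ∨ E k V := by
      rcases hV2 k hk with h | h | h
      · rcases hmV' k h with h | h
        · exact Or.inl h
        · exact Or.inr (Or.inl (hc2 k (hb2 k h)))
      · exact Or.inr (Or.inl (hc2 k (hb1 k h)))
      · exact Or.inr (Or.inr h)
    rcases h1 with h1 | h1 | h1
    · exact Or.inl h1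
    · exact Or.inr (Or.inl h1)
    · rcases h2 with h2 | h2 | h2
      · exact Or.inl h2
      · exact Or.inr (Or.inl h2)
      · exact Or.inr (Or.inr ((hW k).2 ⟨h1, h2⟩))

theorem isTop_of_tower (hE : ZFC E) {n : ℕ} {om T : N} (hT : IsTower E n om T) {X τ : N}
    (hX : ∀ w, E w X ↔ (E w om ∨ Pt E om T w)) (hτ : ∀ U, E U τ ↔ Op E om T U) : IsTop E X τ := by
  have hom := hT.omega
  refine ⟨?_, ?_, ?_, ?_⟩
  · intro U hU w hw
    exact (hX w).2 (((hτ U).1 hU).1 w hw)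
  · refine (hτ X).2 ⟨fun w hw => (hX w).1 hw, fun t ht _ => ?_⟩
    obtain ⟨e, he⟩ := emp_ex hE
    refine ⟨e, hT.emp e he, emp_Slt hE hT he ht, fun r hr _ _ => (hX r).2 (Or.inr hr),
      e, om_emp hom he, fun k hk => Or.inr (Or.inr ((hX k).2 (Or.inl (TT_sub hT (TT_of_Pt ht) k hk))))⟩
  · intro U V W hU hV hW
    exact (hτ W).2 (Op_inter hE hT ((hτ U).1 hU) ((hτ V).1 hV) hW)
  · intro S W hS hW
    refine (hτ W).2 ⟨?_, ?_⟩
    · intro w hw
      obtain ⟨U, hU, hwU⟩ := (hW w).1 hw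
      exact ((hτ U).1 (hS U hU)).1 w hwU
    · intro t ht htW
      obtain ⟨U, hU, htU⟩ := (hW t).1 htW
      obtain ⟨s, hs, hlt, h1, m, hm, h2⟩ := ((hτ U).1 (hS U hU)).2 t ht htU
      refine ⟨s, hs, hlt, fun r hr h3 h4 => (hW r).2 ⟨U, hU, h1 r hr h3 h4⟩, m, hm, fun k hk => ?_⟩
      rcases h2 k hk with h | h | h
      · exact Or.inl h
      · exact Or.inr (Or.inl h)
      · exact Or.inr (Or.inr ((hW k).2 ⟨U, hU, h⟩))

end Pool.Agent.TFN
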