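import Pool.Agent.TFN.A5

/-!
# TFN module A7: clopen sets

`clopen_ex`: `C = {x : InC x}` (`points_ex`) and `D` = the other points, for `c ∈ T`.  For points: `x ∈ C` iff (`Pt x` and `x ≤ c`) or
(`x ∈ om` and `x ∈ c`).  `x ∈ D` iff (`Pt x` and `c < x`) or (`x ∈ om` and `x ∉ c`): use `TT_le_or_lt`, `not_Slt_of_Sle` and that
natural numbers are not `Pt` (`Pt_not_nat`).
`C` is open: let `Pt t`, `t ≤ c`.  Take `s` = the empty set (`hT.emp`, `emp_Slt`); if `r ≤ t` then `r ≤ c` (`Sle_trans`);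
`AS t c` (`AS_of_Sle`) gives `n` with `k ∈ t → k ∈ c ∨ k ∈ n`, and `k ∈ c`, `k ∈ om` gives `k ∈ C`.
`D` is open: let `Pt t`, `c < t`.  Take `s = c`; if `c < r` then `r ∈ D`; `k ∈ t`: `k ∈ c = s` or `k ∉ c`, so `k ∈ D` (`n` = the empty set).
`nat_clopen`: for `k ∈ om` the set `{k}` is open (it contains no `Pt`), and the complement is open: for `Pt t` take `s` = the
empty set and `n = k ∪ {k}`: `j ∈ t` is `k ∈ n` or `j ≠ k`.
-/

set_option autoImplicit false

namespace Pool.Agent.TFN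

open Pool.Agent.BVU

universe u
variable {N : Type u} {E : N → N → Prop}

theorem clopen_ex (hE : ZFC E) {n : ℕ} {om T : N} (hT : IsTower E n om T) {c : N} (hc : E c T) :
    ∃ C D : N, Op E om T C ∧ Op E om T D ∧ (∀ w, E w C ↔ InC E om T c w) ∧
      (∀ w, E w D ↔ (Pt E om T w ∧ Slt E om c w) ∨ (E w om ∧ ¬ E w c)) ∧
      (∀ w, ¬ (E w C ∧ E w D)) := by
  haveI : Inhabited N := ⟨(ZFC_inh hE).some⟩
  have hom : IsOmega E om := hT.omega
  obtain ⟨e, he⟩ := emp_ex hE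
  obtain ⟨C, hC⟩ := points_ex hE om T (Q := fun w => InC E om T c w) (by repeat' (first | exact Tm.var _ | exact Tm.cst _ | exact Dfn.prop _ | apply Dfn.mem | apply Dfn.eq | apply Dfn.ne | apply Dfn.and | apply Dfn.or | apply Dfn.iff | apply Dfn.not | apply Dfn.imp | apply Dfn.ex | apply Dfn.all))
  obtain ⟨D, hD⟩ := points_ex hE om T
    (Q := fun w => (Pt E om T w ∧ Slt E om c w) ∨ (E w om ∧ ¬ E w c)) (by repeat' (first | exact Tm.var _ | exact Tm.cst _ | exact Dfn.prop _ | apply Dfn.mem | apply Dfn.eq | apply Dfn.ne | apply Dfn.and | apply Dfn.or | apply Dfn.iff | apply Dfn.not | apply Dfn.imp | apply Dfn.ex | apply Dfn.all))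
  have hC' : ∀ w, E w C ↔ InC E om T c w := fun w => by
    rw [hC]
    refine ⟨fun h => h.2, fun h => ⟨?_, h⟩⟩
    rcases h with h | h
    · exact Or.inr h.1
    · exact Or.inl h.1
  have hD' : ∀ w, E w D ↔ (Pt E om T w ∧ Slt E om c w) ∨ (E w om ∧ ¬ E w c) := fun w => by
    rw [hD]
    refine ⟨fun h => h.2, fun h => ⟨?_, h⟩⟩
    rcases h with h | h
    · exact Or.inr h.1
    · exact Or.inl h.1
  have hsub : ∀ t, Pt E om T t → ∀ k, E k t → E k om := fun t ht k hk =>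
    TT_sub hT (TT_of_Pt ht) k hk
  refine ⟨C, D, ⟨fun w hw => ((hC w).1 hw).1, ?_⟩, ⟨fun w hw => ((hD w).1 hw).1, ?_⟩, hC', hD', ?_⟩
  · intro t ht htC
    have hle : Sle E om t c := by
      rcases (hC' t).1 htC with h | h
      · exact h.2
      · exact absurd h.1 (Pt_not_nat hE hT ht)
    refine ⟨e, hT.emp e he, emp_Slt hE hT he ht, fun r hr _ hrt => ?_, ?_⟩
    · exact (hC' r).2 (Or.inl ⟨hr, Sle_trans hE hom hrt hle⟩)
    · obtain ⟨m, hm, hm'⟩ := AS_of_Sle hE hom hle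
      refine ⟨m, hm, fun k hk => ?_⟩
      rcases hm' k hk with h | h
      · exact Or.inr (Or.inr ((hC' k).2 (Or.inr ⟨hsub t ht k hk, h⟩)))
      · exact Or.inr (Or.inl h)
  · intro t ht htD
    have hlt : Slt E om c t := by
      rcases (hD' t).1 htD with h | h
      · exact h.2
      · exact absurd h.1 (Pt_not_nat hE hT ht)
    refine ⟨c, hc, hlt, fun r hr hcr _ => (hD' r).2 (Or.inl ⟨hr, hcr⟩), e, om_emp hom he,
      fun k hk => ?_⟩
    by_cases hkc : E k c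
    · exact Or.inl hkc
    · exact Or.inr (Or.inr ((hD' k).2 (Or.inr ⟨hsub t ht k hk, hkc⟩)))
  · rintro w ⟨h1, h2⟩
    rcases (hC' w).1 h1 with h | h <;> rcases (hD' w).1 h2 with h' | h'
    · exact not_Slt_of_Sle hE hom h.2 h'.2
    · exact Pt_not_nat hE hT h.1 h'.1
    · exact Pt_not_nat hE hT h'.1 h.1
    · exact h'.2 h.2

theorem nat_clopen (hE : ZFC E) {n : ℕ} {om T : N} (hT : IsTower E n om T) {k : N} (hk : E k om) :
    ∃ C D : N, Op E om T C ∧ Op E om T D ∧ (∀ w, E w C ↔ w = k) ∧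
      (∀ w, E w D ↔ (E w om ∨ Pt E om T w) ∧ w ≠ k) := by
  haveI : Inhabited N := ⟨(ZFC_inh hE).some⟩
  have hom : IsOmega E om := hT.omega
  obtain ⟨e, he⟩ := emp_ex hE
  obtain ⟨C, hC⟩ := points_ex hE om T (Q := fun w => w = k) (by repeat' (first | exact Tm.var _ | exact Tm.cst _ | exact Dfn.prop _ | apply Dfn.mem | apply Dfn.eq | apply Dfn.ne | apply Dfn.and | apply Dfn.or | apply Dfn.iff | apply Dfn.not | apply Dfn.imp | apply Dfn.ex | apply Dfn.all))
  obtain ⟨D, hD⟩ := points_ex hE om T (Q := fun w => w ≠ k) (by repeat' (first | exact Tm.var _ | exact Tm.cst _ | exact Dfn.prop _ | apply Dfn.mem | apply Dfn.eq | apply Dfn.ne | apply Dfn.and | apply Dfn.or | apply Dfn.iff | apply Dfn.not | apply Dfn.imp | apply Dfn.ex | apply Dfn.all))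
  have hC' : ∀ w, E w C ↔ w = k := fun w => by
    rw [hC]
    exact ⟨fun h => h.2, fun h => ⟨Or.inl (h ▸ hk), h⟩⟩
  have hsub : ∀ t, Pt E om T t → ∀ k, E k t → E k om := fun t ht k hk =>
    TT_sub hT (TT_of_Pt ht) k hk
  refine ⟨C, D, ⟨fun w hw => ((hC w).1 hw).1, ?_⟩, ⟨fun w hw => ((hD w).1 hw).1, ?_⟩, hC', hD⟩
  · intro t ht htC
    rw [(hC' t).1 htC] at ht
    exact absurd hk (Pt_not_nat hE hT ht)
  · intro t ht htD
    obtain ⟨s, hs⟩ := succ_ex hE k
    refine ⟨e, hT.emp e he, emp_Slt hE hT he ht, fun r hr _ _ => (hD r).2 ⟨Or.inr hr, ?_⟩, s,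
      om_succ hom hk hs, fun j hj => ?_⟩
    · intro h
      rw [h] at hr
      exact Pt_not_nat hE hT hr hk
    · by_cases h : j = k
      · exact Or.inr (Or.inl ((hs j).2 (Or.inr h)))
      · exact Or.inr (Or.inr ((hD j).2 ⟨Or.inl (hsub t ht j hj), h⟩))

end Pool.Agent.TFN
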