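import Pool.Agent.TFN.A7

/-!
# TFN module A8: the space is Hausdorff

Let `x ≠ y` be points.  If `x` is a natural number: `{x}` and its complement (`nat_clopen`).  If `y` is a natural number: the same
with the roles exchanged.  If both are `Pt`: `TT_lin`.  If `x < y` then `x ∈ T` (`mem_T_of_Slt`) and `clopen_ex` for `c = x`:
`x ∈ C` (`x ≤ x`), `y ∈ D`.  If `y < x`: symmetric.
-/

set_option autoImplicit false

namespace Pool.Agent.TFN

open Pool.Agent.BVU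

universe u
variable {N : Type u} {E : N → N → Prop}

theorem hausdorff_of_tower (hE : ZFC E) {n : ℕ} {om T : N} (hT : IsTower E n om T) {X τ : N}
    (hX : ∀ w, E w X ↔ (E w om ∨ Pt E om T w)) (hτ : ∀ U, E U τ ↔ Op E om T U) : IsHausdorff E X τ := by
  have hlt : ∀ x y, Pt E om T x → Pt E om T y → Slt E om x y →
      ∃ U V, E U τ ∧ E V τ ∧ E x U ∧ E y V ∧ ∀ w, ¬ (E w U ∧ E w V) := by
    intro x y hx hy h
    have hxT : E x T := mem_T_of_Slt hE hT (TT_of_Pt hx) (TT_of_Pt hy) h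
    obtain ⟨C, D, hC, hD, hC', hD', hdis⟩ := clopen_ex hE hT hxT
    exact ⟨C, D, (hτ C).2 hC, (hτ D).2 hD, (hC' x).2 (Or.inl ⟨hx, Or.inr rfl⟩),
      (hD' y).2 (Or.inl ⟨hy, h⟩), hdis⟩
  have hnat : ∀ x y, E x om → (E y om ∨ Pt E om T y) → x ≠ y →
      ∃ U V, E U τ ∧ E V τ ∧ E x U ∧ E y V ∧ ∀ w, ¬ (E w U ∧ E w V) := by
    intro x y hx hy hne
    obtain ⟨C, D, hC, hD, hC', hD'⟩ := nat_clopen hE hT hx
    refine ⟨C, D, (hτ C).2 hC, (hτ D).2 hD, (hC' x).2 rfl, (hD' y).2 ⟨hy, fun h => hne h.symm⟩, ?_⟩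
    rintro w ⟨h1, h2⟩
    exact ((hD' w).1 h2).2 ((hC' w).1 h1)
  intro x y hx hy hne
  have hx' := (hX x).1 hx
  have hy' := (hX y).1 hy
  rcases hx' with hx' | hx'
  · exact hnat x y hx' hy' hne
  rcases hy' with hy' | hy'
  · obtain ⟨U, V, hU, hV, h1, h2, h3⟩ := hnat y x hy' (Or.inr hx') (fun h => hne h.symm)
    exact ⟨V, U, hV, hU, h2, h1, fun w hw => h3 w ⟨hw.2, hw.1⟩⟩
  rcases TT_lin hE hT (TT_of_Pt hx') (TT_of_Pt hy') with h | h | h
  · exact absurd h hne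
  · exact hlt x y hx' hy' h
  · obtain ⟨U, V, hU, hV, h1, h2, h3⟩ := hlt y x hy' hx' h
    exact ⟨V, U, hV, hU, h2, h1, fun w hw => h3 w ⟨hw.2, hw.1⟩⟩

end Pool.Agent.TFN
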