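import Pool.Agent.TFN.A5
import Pool.Agent.TFN.A3

/-!
# TFN module A9: the space is compact

(imports A3 for finite sets.)  Let `S ⊆ τ` cover `X`.
`cover_nat`: for every `n ∈ om` some finite `F ⊆ S` covers all elements of `n`: induction (`om_ind`) on `n`; for the empty set
take `F` = the empty set; for `n ∪ {n}` take `F ∪ {U}` with `n ∈ U ∈ S` (`fin_insert`).  The statement is definable by `dfn`
(`IsFin` is a `def`).
`compact_of_tower`: let `Q s` := there is no finite `F ⊆ S` with `∀ x, InC E om T s x → ∃ U, E U F ∧ E x U`.  `Q` is definable.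
Suppose `Q om`.  By `TT_least` there is a least `s ∈ T ∪ {om}` with `Q s`.  `s` is not empty: `InC e x` is false for the empty set
`e` (`x ∈ e` is false; `Pt x` and `x ≤ e` contradict `emp_Slt`), so the empty `F` would do.  So `Pt s` (`Pt_or_emp`), `s ∈ X`, `s ∈ U ∈ S`, and
`Op U` gives `r ∈ T`, `r < s`, `(r, s] ⊆ U` and `n ∈ om` with `k ∈ s → k ∈ r ∨ k ∈ n ∨ k ∈ U`.  By minimality `¬ Q r`: a finite `F` covers
`C_r`; `cover_nat` gives `F'` for `n`.  `F ∪ F' ∪ {U}` is finite (`fin_union`, `fin_insert`) and covers `C_s`: if `Pt x`, `x ≤ s`, then `x ≤ r`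
(`x ∈ C_r`) or `r < x` (`x ∈ U`), by `TT_le_or_lt`; if `x ∈ om`, `x ∈ s`, then `x ∈ r` (`C_r`), `x ∈ n` or `x ∈ U`.  Contradiction to `Q s`.
So `¬ Q om`, and every point `x` satisfies `InC om x` (`Pt x → x ≤ om`: `x = om` or `x ∈ T`, `Slt_om`).
-/

set_option autoImplicit false

namespace Pool.Agent.TFN

open Pool.Agent.BVU

universe u
variable {N : Type u} {E : N → N → Prop}

theorem cover_nat (hE : ZFC E) {om S : N} (hom : IsOmega E om)
    (hS : ∀ x, E x om → ∃ U, E U S ∧ E x U) :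
    ∀ n, E n om → ∃ F, IsFin E F ∧ Sub E F S ∧ ∀ x, E x n → ∃ U, E U F ∧ E x U := by
  have : Inhabited N := Classical.inhabited_of_nonempty (ZFC_inh hE)
  refine om_ind hE hom (by repeat' (first | exact Tm.var _ | exact Tm.cst _ | exact Dfn.prop _ | apply Dfn.mem | apply Dfn.eq | apply Dfn.ne | apply Dfn.and | apply Dfn.or | apply Dfn.iff | apply Dfn.not | apply Dfn.imp | apply Dfn.ex | apply Dfn.all)) ?_ ?_
  · intro e he
    exact ⟨e, fin_emp he, fun w hw => absurd hw (he w), fun x hx => absurd hx (he x)⟩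
  · intro x s hx ⟨F, hF, hFS, hFx⟩ hs
    obtain ⟨U, hU, hxU⟩ := hS x hx
    obtain ⟨F', hF'⟩ := insert_ex hE F U
    refine ⟨F', fin_insert hF hF', fun w hw => ?_, fun y hy => ?_⟩
    · rcases (hF' w).1 hw with h | h
      · exact hFS w h
      · rw [h]
        exact hU
    · rcases (hs y).1 hy with h | h
      · obtain ⟨V, hV, hyV⟩ := hFx y h
        exact ⟨V, (hF' V).2 (Or.inl hV), hyV⟩
      · rw [h]
        exact ⟨U, (hF' U).2 (Or.inr rfl), hxU⟩

theorem compact_of_tower (hE : ZFC E) {n : ℕ} {om T : N} (hT : IsTower E n om T) {X τ : N}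
    (hX : ∀ w, E w X ↔ (E w om ∨ Pt E om T w)) (hτ : ∀ U, E U τ ↔ Op E om T U) : IsCompactSp E X τ := by
  have : Inhabited N := Classical.inhabited_of_nonempty (ZFC_inh hE)
  intro S hSτ hcov
  have hfin : ∃ F, IsFin E F ∧ Sub E F S ∧ ∀ x, InC E om T om x → ∃ U, E U F ∧ E x U := by
    by_contra hcon
    obtain ⟨s, hs, hQ, hmin⟩ := TT_least hE hT (Q := fun s => ¬ ∃ F, IsFin E F ∧ Sub E F S ∧
      ∀ x, InC E om T s x → ∃ U, E U F ∧ E x U) (by repeat' (first | exact Tm.var _ | exact Tm.cst _ | exact Dfn.prop _ | apply Dfn.mem | apply Dfn.eq | apply Dfn.ne | apply Dfn.and | apply Dfn.or | apply Dfn.iff | apply Dfn.not | apply Dfn.imp | apply Dfn.ex | apply Dfn.all)) (t := om) (Or.inr rfl) hcon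
    have hPt : Pt E om T s := by
      rcases Pt_or_emp hE hT hs with h | h
      · exact h
      · exfalso
        obtain ⟨e, he⟩ := emp_ex hE
        refine hQ ⟨e, fin_emp he, fun w hw => absurd hw (he w), fun x hx => ?_⟩
        rcases hx with ⟨h1, h2⟩ | ⟨-, h2⟩
        · exact absurd (Slt_of_Slt_Sle hE hT.omega (emp_Slt hE hT h h1) h2) (Slt_irrefl s)
        · exact absurd h2 (h x)
    obtain ⟨U, hU, hsU⟩ := hcov s ((hX s).2 (Or.inr hPt))
    obtain ⟨r, hr, hrs, h1, m, hm, h2⟩ := ((hτ U).1 (hSτ U hU)).2 s hPt hsU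
    have hQr : ∃ F, IsFin E F ∧ Sub E F S ∧ ∀ x, InC E om T r x → ∃ U, E U F ∧ E x U := by
      by_contra h3
      exact hmin r (Or.inl hr) h3 hrs
    obtain ⟨F, hF, hFS, hFr⟩ := hQr
    obtain ⟨F', hF', hFS', hFm⟩ := cover_nat hE hT.omega
      (fun x hx => hcov x ((hX x).2 (Or.inl hx))) m hm
    obtain ⟨F1, hF1⟩ := union2_ex hE F F'
    obtain ⟨F2, hF2⟩ := insert_ex hE F1 U
    refine hQ ⟨F2, fin_insert (fin_union hE hF hF' hF1) hF2, fun w hw => ?_, fun x hx => ?_⟩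
    · rcases (hF2 w).1 hw with h | h
      · rcases (hF1 w).1 h with h | h
        · exact hFS w h
        · exact hFS' w h
      · rw [h]
        exact hU
    · have hl : InC E om T r x → ∃ U, E U F2 ∧ E x U := fun h => by
        obtain ⟨V, hV, hxV⟩ := hFr x h
        exact ⟨V, (hF2 V).2 (Or.inl ((hF1 V).2 (Or.inl hV))), hxV⟩
      have hUU : E x U → ∃ U, E U F2 ∧ E x U := fun h => ⟨U, (hF2 U).2 (Or.inr rfl), h⟩
      rcases hx with ⟨h3, h4⟩ | ⟨h3, h4⟩
      · rcases TT_le_or_lt hE hT (TT_of_Pt h3) (Or.inl hr) with h5 | h5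
        · exact hl (Or.inl ⟨h3, h5⟩)
        · exact hUU (h1 x h3 h5 h4)
      · rcases h2 x h4 with h5 | h5 | h5
        · exact hl (Or.inr ⟨h3, h5⟩)
        · obtain ⟨V, hV, hxV⟩ := hFm x h5
          exact ⟨V, (hF2 V).2 (Or.inl ((hF1 V).2 (Or.inr hV))), hxV⟩
        · exact hUU h5
  obtain ⟨F, hF, hFS, hFc⟩ := hfin
  refine ⟨F, hF, hFS, fun x hx => hFc x ?_⟩
  rcases (hX x).1 hx with h | h
  · exact Or.inr ⟨h, h⟩
  · refine Or.inl ⟨h, ?_⟩
    rcases h with h | h
    · exact Or.inl (Slt_om hE hT h.1)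
    · exact Or.inr h

end Pool.Agent.TFN
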