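import Pool.Agent.TFN.Defs
import Pool.Agent.BVU.D2

/-!
# TFN part A: the space of a tower inside a model `(N, E)` of ZFC (definitions)

Points of the space: the natural numbers, the nonempty elements of the tower, and the point at infinity, for which we take
the set `om` itself.  `Pt x`: `x` is a nonempty element of `T` or `x = om` (all of these are subsets of `om`).
-/

set_option autoImplicit false

namespace Pool.Agent.TFN

open Pool.Agent.BVU

universe u
variable {N : Type u} (E : N → N → Prop)

/-- `s ≤ t` in the order modulo finite of the tower -/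
def Sle (om s t : N) : Prop := Slt E om s t ∨ s = t

/-- `x` is a member of `T ∪ {om}` -/
def InTo (om T x : N) : Prop := E x T ∨ x = om

/-- `x` is a point which is not a natural number -/
def Pt (om T x : N) : Prop := (E x T ∧ ∃ z, E z x) ∨ x = om

/-- `U` is an open set of the space: a set of points such that for every `t ∈ U` which is not a natural number there is
`s < t` in `T` with `(s, t] ⊆ U` and `t \ s ⊆* U`. -/
def Op (om T U : N) : Prop := (∀ w, E w U → E w om ∨ Pt E om T w) ∧
  ∀ t, Pt E om T t → E t U → ∃ s, E s T ∧ Slt E om s t ∧
    (∀ r, Pt E om T r → Slt E om s r → Sle E om r t → E r U) ∧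
    ∃ n, E n om ∧ ∀ k, E k t → E k s ∨ E k n ∨ E k U

/-- `x` is a point of the set `C_s`: a point `≤ s` or a natural number in `s`. -/
def InC (om T s x : N) : Prop := (Pt E om T x ∧ Sle E om x s) ∨ (E x om ∧ E x s)

/-- `s` is a good lower bound for `t` with respect to the sets `K` (to be avoided) and `W` (a set of natural numbers):
`s ∈ T`, `s < t`, `(s, t]` is disjoint from `K`, and almost all elements of `t \ s` are in `W` and not in `K`. -/
def GoodLB (om T K W s t : N) : Prop := E s T ∧ Slt E om s t ∧
  (∀ r, Pt E om T r → Slt E om s r → Sle E om r t → ¬ E r K) ∧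
  ∃ n, E n om ∧ ∀ k, E k t → E k s ∨ E k n ∨ (E k W ∧ ¬ E k K)

end Pool.Agent.TFN
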