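import Pool.Agent.TFN.Defs

/-!
# TFN: the interface with the forcing algebra (definitions)
-/

set_option autoImplicit false

namespace Pool.Agent.TFN

open Pool.Agent.BVU

/-! ### the index set of the tower -/

/-- `Ω` is like a regular cardinal greater than `ℵ_n`: well-ordered, all subsets of cardinality at most `ℵ_n` are
strictly bounded. -/
class Om (n : ℕ) (Ω : Type) [LinearOrder Ω] : Prop where
  wf : WellFounded ((· < ·) : Ω → Ω → Prop)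
  bdd : ∀ A : Set Ω, Cardinal.mk A ≤ Cardinal.aleph n → ∃ b, ∀ a ∈ A, a < b

/-- A complete Boolean algebra with a `B`-valued tower of subsets of `ω` indexed by `Ω`, such that any two `B`-valued
subsets `h`, `k` of `Ω` which are separated (with truth value at least `b`) are separated by a `B`-valued subset `W`
of `ω`. -/
structure TowAlg (Ω : Type) [LinearOrder Ω] [OrderBot Ω] (B : Type) [CompleteBooleanAlgebra B] where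
  T : Ω → ℕ → B
  T0 : ∀ k, T ⊥ k = ⊥
  T1 : ∀ α β, α < β → ⊤ ≤ ⨆ n, ⨅ k, ⨅ (_ : n ≤ k), (T α k ⇨ T β k)
  T2 : ∀ α β, α < β → ∀ n, ⊤ ≤ ⨆ k, ⨆ (_ : n ≤ k), (T β k ⊓ (T α k)ᶜ)
  ccc : ∀ A : Set B, (∀ a ∈ A, a ≠ ⊥) → (∀ a ∈ A, ∀ b ∈ A, a ≠ b → a ⊓ b = ⊥) → A.Countable
  sep : ∀ (h k : Ω → B) (b : B),
    (∀ α, b ⊓ h α ≤ ⨆ β, ⨆ (_ : β < α), ⨅ γ, ⨅ (_ : β < γ ∧ γ ≤ α), (k γ)ᶜ) →
    (∀ α, b ⊓ k α ≤ ⨆ β, ⨆ (_ : β < α), ⨅ γ, ⨅ (_ : β < γ ∧ γ ≤ α), (h γ)ᶜ) →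
    ∃ W : ℕ → B,
      (∀ α, b ⊓ h α ≤ ⨆ β, ⨆ (_ : β < α), ⨆ n, ⨅ m, ⨅ (_ : n ≤ m), (T α m ⇨ (T β m ⊔ W m))) ∧
      (∀ α, b ⊓ k α ≤ ⨆ β, ⨆ (_ : β < α), ⨆ n, ⨅ m, ⨅ (_ : n ≤ m), (T α m ⇨ (T β m ⊔ (W m)ᶜ)))

end Pool.Agent.TFN
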