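import Pool.Agent.BVU.Defs

/-!
# TFN: set-theoretic and topological notions inside a structure `(N, E)`, the goal (definitions)

A structure for the language of set theory is a type `N` with a binary relation `E` (read `E x y` as: x is an element of y).
All notions below are the usual set-theoretic notions, with all quantifiers ranging over `N`:
they are the notions in the sense of `(N, E)`.
-/

set_option autoImplicit false

namespace Pool.Agent.TFN

open Pool.Agent.BVU

universe u

/-! ### set-theoretic notions in `(N, E)` -/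

section Notions
variable {N : Type u} (E : N → N → Prop)

/-- `x ⊆ y` -/
def Sub (x y : N) : Prop := ∀ z, E z x → E z y

/-- `x` is the empty set -/
def IsEmp (x : N) : Prop := ∀ z, ¬ E z x

/-- `z = {x, y}` -/
def IsUPair (x y z : N) : Prop := ∀ w, E w z ↔ w = x ∨ w = y

/-- `p` is the ordered pair `(x, y) = {{x, x}, {x, y}}` -/
def IsPair (x y p : N) : Prop := ∃ a b, IsUPair E x x a ∧ IsUPair E x y b ∧ IsUPair E a b p

/-- `s = x ∪ {x}` -/
def IsSucc (x s : N) : Prop := ∀ w, E w s ↔ E w x ∨ w = x

/-- `z` contains the empty set and is closed under `x ↦ x ∪ {x}` -/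
def IsInd (z : N) : Prop := (∀ e, IsEmp E e → E e z) ∧ ∀ x s, E x z → IsSucc E x s → E s z

/-- `om` is the set `ω` of natural numbers: the least inductive set -/
def IsOmega (om : N) : Prop := IsInd E om ∧ ∀ z, IsInd E z → Sub E om z

/-- `x` is finite (Kuratowski's definition): `x` belongs to every `F` which contains the empty set and is closed under
adding one element of `x`. -/
def IsFin (x : N) : Prop := ∀ F, (∀ e, IsEmp E e → E e F) →
  (∀ a y b, E a F → E y x → (∀ w, E w b ↔ E w a ∨ w = y) → E b F) → E x F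

/-- `x` is countable (finite or countably infinite): there is a set `f` of ordered pairs, single-valued at every natural
number, such that each element of `x` is the value of `f` at some natural number. -/
def IsCtbl (x : N) : Prop := ∃ om f, IsOmega E om ∧
  (∀ n y y' p p', E n om → IsPair E n y p → E p f → IsPair E n y' p' → E p' f → y = y') ∧
  ∀ y, E y x → ∃ n p, E n om ∧ IsPair E n y p ∧ E p f

/-- the ordered pair `(a, b)` is an element of `R` -/
def Rel (R a b : N) : Prop := ∃ p, E p R ∧ IsPair E a b p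

/-- `R` is a strict linear order on the set `x` -/
structure IsStrictLin (x R : N) : Prop where
  irrefl : ∀ a, E a x → ¬ Rel E R a a
  trans : ∀ a b c, E a x → E b x → E c x → Rel E R a b → Rel E R b c → Rel E R a c
  total : ∀ a b, E a x → E b x → a = b ∨ Rel E R a b ∨ Rel E R b a

/-- `x` has at most `ℵ_n` elements.  For `n = 0`: `x` is countable.  For `n + 1`: there is a strict linear order on `x`
all whose initial segments `{a ∈ x : a < b}`, `b ∈ x`, have at most `ℵ_n` elements. -/
def IsLe : ℕ → N → Prop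
  | 0, x => IsCtbl E x
  | n + 1, x => ∃ R, IsStrictLin E x R ∧
      ∀ b s, E b x → (∀ a, E a s ↔ E a x ∧ Rel E R a b) → IsLe n s

/-! ### topological notions in `(N, E)` -/

/-- `τ` is (the set of open sets of) a topology on the set `X`. -/
structure IsTop (X τ : N) : Prop where
  sub : ∀ U, E U τ → Sub E U X
  univ : E X τ
  inter : ∀ U V W, E U τ → E V τ → (∀ w, E w W ↔ E w U ∧ E w V) → E W τ
  union : ∀ S W, Sub E S τ → (∀ w, E w W ↔ ∃ U, E U S ∧ E w U) → E W τ

/-- `(X, τ)` is a Hausdorff space. -/
def IsHausdorff (X τ : N) : Prop := ∀ x y, E x X → E y X → x ≠ y →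
  ∃ U V, E U τ ∧ E V τ ∧ E x U ∧ E y V ∧ ∀ w, ¬ (E w U ∧ E w V)

/-- Every cover of `X` by members of `τ` has a finite subcover. -/
def IsCompactSp (X τ : N) : Prop := ∀ S, Sub E S τ → (∀ x, E x X → ∃ U, E U S ∧ E x U) →
  ∃ F, IsFin E F ∧ Sub E F S ∧ ∀ x, E x X → ∃ U, E U F ∧ E x U

/-- `x` is a point of `X` in the closure of `A`. -/
def InCl (X τ A x : N) : Prop := E x X ∧ ∀ U, E U τ → E x U → ∃ a, E a A ∧ E a U

/-- `(X, τ)` is separable. -/
def IsSeparable (X τ : N) : Prop := ∃ D, Sub E D X ∧ IsCtbl E D ∧ ∀ x, E x X → InCl E X τ D x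

/-- `(X, τ)` is hereditarily normal: in every subspace `Y`, any two disjoint relatively closed subsets `H`, `K` of `Y`
can be separated by relatively open disjoint subsets of `Y` (the traces on `Y` of `U, V ∈ τ`). -/
def IsHerNormal (X τ : N) : Prop := ∀ Y H K, Sub E Y X → Sub E H Y → Sub E K Y → (∀ w, ¬ (E w H ∧ E w K)) →
  (∀ y, E y Y → InCl E X τ H y → E y H) → (∀ y, E y Y → InCl E X τ K y → E y K) →
  ∃ U V, E U τ ∧ E V τ ∧ Sub E H U ∧ Sub E K V ∧ ∀ w, E w Y → ¬ (E w U ∧ E w V)

/-- The tightness of `(X, τ)` is at most `ℵ_n`: every point in the closure of a set `A` is in the closure of a subset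
of `A` with at most `ℵ_n` elements.  For `n = 0` this is countable tightness. -/
def IsTight (n : ℕ) (X τ : N) : Prop := ∀ A x, Sub E A X → InCl E X τ A x →
  ∃ B, Sub E B A ∧ IsLe E n B ∧ InCl E X τ B x

/-! ### towers in `(N, E)` -/

/-- `s ⊆* t` (for `s, t ⊆ ω`): all elements of `s` outside some natural number `n = {0, …, n-1}` are in `t`. -/
def AS (om s t : N) : Prop := ∃ n, E n om ∧ ∀ k, E k s → E k t ∨ E k n

/-- strictly below modulo finite -/
def Slt (om s t : N) : Prop := AS E om s t ∧ ¬ AS E om t s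

/-- `H` is separated from `K` in the tower `T`: every `t ∈ H` has some `s ∈ T` below it such that no element of `K`
is in the interval `(s, t]`. -/
def SepFrom (om T H K : N) : Prop := ∀ t, E t H → E t T ∧ ∃ s, E s T ∧ Slt E om s t ∧
  ∀ r, E r K → Slt E om s r → ¬ (Slt E om r t ∨ r = t)

/-- The statement about towers which is true in the forcing extension and from which the space is built. -/
structure IsTower (n : ℕ) (om T : N) : Prop where
  omega : IsOmega E om
  emp : ∀ e, IsEmp E e → E e T
  sub : ∀ t, E t T → Sub E t om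
  lin : ∀ s t, E s T → E t T → s = t ∨ Slt E om s t ∨ Slt E om t s
  wf : ∀ S, Sub E S T → (∃ s, E s S) → ∃ s, E s S ∧ ∀ t, E t S → ¬ Slt E om t s
  top : ∀ t, E t T → ¬ AS E om om t
  unb : ∀ s, E s T → ∃ t, E t T ∧ Slt E om s t
  bdd : ∀ S, Sub E S T → IsLe E n S → ∃ t, E t T ∧ ∀ s, E s S → Slt E om s t
  sep : ∀ H K, SepFrom E om T H K → SepFrom E om T K H → ∃ W,
    (∀ t, E t H → ∃ s, E s T ∧ Slt E om s t ∧ ∃ n, E n om ∧ ∀ k, E k t → E k s ∨ E k n ∨ E k W) ∧
    (∀ t, E t K → ∃ s, E s T ∧ Slt E om s t ∧ ∃ n, E n om ∧ ∀ k, E k t → E k s ∨ E k n ∨ ¬ E k W)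

end Notions

/-- THE GOAL: for every `n` there is a model of ZFC in which some compact Hausdorff, separable, hereditarily normal space
has tightness greater than `ℵ_n`. -/
def Goal : Prop := ∀ n : ℕ, ∃ (N : Type 1) (E : N → N → Prop), ZFC E ∧ ∃ X τ : N, IsTop E X τ ∧ IsHausdorff E X τ ∧
  IsCompactSp E X τ ∧ IsSeparable E X τ ∧ IsHerNormal E X τ ∧ ¬ IsTight E n X τ

end Pool.Agent.TFN
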