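import Pool.Agent.TFN.Defs

/-!
# TFN: cardinality comparison inside a structure `(N, E)`, the goal without bound on the tightness (definitions)
-/

set_option autoImplicit false

namespace Pool.Agent.TFN

open Pool.Agent.BVU

universe u

variable {N : Type u} (E : N → N → Prop)

/-- Some set `f` of ordered pairs, single-valued at every element of `x`, takes every element of `y` as a value at some
element of `x`.  In ZFC this means `|y| ≤ |x|`. -/
def OntoFrom (x y : N) : Prop := ∃ f,
  (∀ n z z' p p', E n x → IsPair E n z p → E p f → IsPair E n z' p' → E p' f → z = z') ∧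
  ∀ z, E z y → ∃ n p, E n x ∧ IsPair E n z p ∧ E p f

/-- The tightness of `(X, τ)` is at most `|l|`: every point in the closure of a set `A` is in the closure of a subset of
`A` of cardinality at most `|l|`. -/
def IsTightAt (l X τ : N) : Prop := ∀ A x, Sub E A X → InCl E X τ A x →
  ∃ B, Sub E B A ∧ OntoFrom E l B ∧ InCl E X τ B x

/-- Towers with an arbitrary smallness predicate `Bd` on `N`. -/
structure IsTow (Bd : N → Prop) (om T : N) : Prop where
  omega : IsOmega E om
  emp : ∀ e, IsEmp E e → E e T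
  sub : ∀ t, E t T → Sub E t om
  lin : ∀ s t, E s T → E t T → s = t ∨ Slt E om s t ∨ Slt E om t s
  wf : ∀ S, Sub E S T → (∃ s, E s S) → ∃ s, E s S ∧ ∀ t, E t S → ¬ Slt E om t s
  top : ∀ t, E t T → ¬ AS E om om t
  unb : ∀ s, E s T → ∃ t, E t T ∧ Slt E om s t
  bdd : ∀ S, Sub E S T → Bd S → ∃ t, E t T ∧ ∀ s, E s S → Slt E om s t
  sep : ∀ H K, SepFrom E om T H K → SepFrom E om T K H → ∃ W,
    (∀ t, E t H → ∃ s, E s T ∧ Slt E om s t ∧ ∃ n, E n om ∧ ∀ k, E k t → E k s ∨ E k n ∨ E k W) ∧
    (∀ t, E t K → ∃ s, E s T ∧ Slt E om s t ∧ ∃ n, E n om ∧ ∀ k, E k t → E k s ∨ E k n ∨ ¬ E k W)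

/-- THE GOAL: for every well-ordered set `Λ` there is a model `(N, E)` of ZFC with a compact Hausdorff, separable,
hereditarily normal space `(X, τ)` such that in the sense of `(N, E)`: the tightness of `X` is greater than `ℵ_n` for all
natural numbers `n`, and there is a sequence of infinite sets `L a`, `a ∈ Λ`, of strictly increasing cardinality, such
that the tightness of `X` is greater than the cardinality of each `L a`. -/
def Goal2 : Prop := ∀ (Λ : Type) (_ : LinearOrder Λ), WellFounded ((· < ·) : Λ → Λ → Prop) →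
  ∃ (N : Type 1) (E : N → N → Prop), ZFC E ∧ ∃ X τ : N, IsTop E X τ ∧ IsHausdorff E X τ ∧
    IsCompactSp E X τ ∧ IsSeparable E X τ ∧ IsHerNormal E X τ ∧ (∀ n : ℕ, ¬ IsTight E n X τ) ∧
    ∃ (om : N) (L : Λ → N), IsOmega E om ∧ (∀ a, Sub E om (L a)) ∧
      (∀ a b, a < b → Sub E (L a) (L b) ∧ ¬ OntoFrom E (L a) (L b)) ∧ ∀ a, ¬ IsTightAt E (L a) X τ

end Pool.Agent.TFN
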