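import Pool.Agent.TFN.ER1

/-!
# TFN module EA: the name of `ω`

`ExtB` facts about the truth values `bXxx` come from `Rep.extB` (or by unfolding and the closure lemmas of BVU/Ext); for this
an ultrafilter is needed only formally; therefore the `ext_…` lemmas below are proved directly by `ExtB.iInf`, `ExtB.inf`, ….

`emp_natN0`: `bEmp e ≤ beq e (natN 0)` (`beq_ext`, `not_bmem_natN_zero`).  `succ_natN`: `bSucc (natN n) s ≤ beq s (natN (n+1))`
(`beq_ext`, `bmem_bsucc`; note `natN (n+1) = bsucc (natN n)` by definition).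
`bInd_omN = ⊤`: first part: `bEmp e ≤ beq e (natN 0)` and `bmem (natN 0) omN = ⊤`; second part: `bmem x omN = ⨆ n, beq x (natN n)`;
`beq x (natN n) ⊓ bSucc x s ≤ bSucc (natN n) s ≤ beq s (natN (n+1)) ≤ bmem s omN`.
`bInd_le`: `bInd z ≤ bmem (natN n) z` by induction on `n`: `bEmp (natN 0) = ⊤`; `bSucc (natN n) (natN (n+1)) = ⊤`.
`bOmega_omN`: `bSub omN z = ⨅ n, bmem (natN n) z` (`iInf_omN`).
`bOmega_le`: `bOmega om ≤ bSub om omN` (`z := omN`, `bInd omN = ⊤`) and `bOmega om ≤ bInd om ≤ bmem (natN n) om` for all `n`, so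
`bOmega om ≤ bSub omN om`; then `beq_ext`.
-/

set_option autoImplicit false

namespace Pool.Agent.TFN

open Pool.Agent.BVU Pool.Agent.BVU.BSet

variable {B : Type} [CompleteBooleanAlgebra B]

theorem ext_bEmp : ExtB (fun x : BSet B => bEmp x) :=
  ExtB.iInf fun z => ExtB.compl (ExtB.mem_right z)

theorem ext_bSucc_left (s : BSet B) : ExtB (fun x : BSet B => bSucc x s) :=
  ExtB.iInf fun w => ExtB.inf
    (ExtB.himp (ExtB.const _) (ExtB.sup (ExtB.mem_right w) (ExtB.eq_right w)))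
    (ExtB.himp (ExtB.sup (ExtB.mem_right w) (ExtB.eq_right w)) (ExtB.const _))

theorem ext_bUPair1 (y z : BSet B) : ExtB (fun x : BSet B => bUPair x y z) :=
  ExtB.iInf fun w => ExtB.inf
    (ExtB.himp (ExtB.const _) (ExtB.sup (ExtB.eq_right w) (ExtB.const _)))
    (ExtB.himp (ExtB.sup (ExtB.eq_right w) (ExtB.const _)) (ExtB.const _))

theorem ext_bUPair2 (x z : BSet B) : ExtB (fun y : BSet B => bUPair x y z) :=
  ExtB.iInf fun w => ExtB.inf
    (ExtB.himp (ExtB.const _) (ExtB.sup (ExtB.const _) (ExtB.eq_right w)))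
    (ExtB.himp (ExtB.sup (ExtB.const _) (ExtB.eq_right w)) (ExtB.const _))

theorem ext_bUPair3 (x y : BSet B) : ExtB (fun z : BSet B => bUPair x y z) :=
  ExtB.iInf fun w => ExtB.inf
    (ExtB.himp (ExtB.mem_right w) (ExtB.const _))
    (ExtB.himp (ExtB.const _) (ExtB.mem_right w))

private theorem EA_UPair12 (z : BSet B) : ExtB (fun x : BSet B => bUPair x x z) :=
  ExtB.iInf fun w => ExtB.inf
    (ExtB.himp (ExtB.const _) (ExtB.sup (ExtB.eq_right w) (ExtB.eq_right w)))
    (ExtB.himp (ExtB.sup (ExtB.eq_right w) (ExtB.eq_right w)) (ExtB.const _))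

theorem ext_bPair1 (y p : BSet B) : ExtB (fun x : BSet B => bPair x y p) :=
  ExtB.iSup fun a => ExtB.iSup fun b => ExtB.inf (EA_UPair12 a)
    (ExtB.inf (ext_bUPair1 y b) (ExtB.const _))

theorem ext_bPair2 (x p : BSet B) : ExtB (fun y : BSet B => bPair x y p) :=
  ExtB.iSup fun _ => ExtB.iSup fun b => ExtB.inf (ExtB.const _)
    (ExtB.inf (ext_bUPair2 x b) (ExtB.const _))

theorem emp_natN0 (e : BSet B) : bEmp e ≤ beq e (natN 0) := by
  rw [Pool.Agent.BVU.beq_ext]
  refine le_inf (le_iInf fun z => ?_) (le_iInf fun z => ?_)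
  · rw [le_himp_iff]
    calc bEmp e ⊓ bmem z e ≤ (bmem z e)ᶜ ⊓ bmem z e := inf_le_inf_right _ (iInf_le _ z)
      _ = ⊥ := compl_inf_self _
      _ ≤ _ := bot_le
  · rw [not_bmem_natN_zero, bot_himp]
    exact le_top

theorem succ_natN (n : ℕ) (s : BSet B) : bSucc (natN n) s ≤ beq s (natN (n + 1)) := by
  rw [Pool.Agent.BVU.beq_ext]
  refine le_inf (le_iInf fun z => ?_) (le_iInf fun z => ?_)
  · change _ ≤ bmem z s ⇨ bmem z (bsucc (natN n))
    rw [bmem_bsucc]
    exact le_trans (iInf_le _ z) inf_le_left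
  · change _ ≤ bmem z (bsucc (natN n)) ⇨ bmem z s
    rw [bmem_bsucc]
    exact le_trans (iInf_le _ z) inf_le_right

private theorem EA_mem_of_eq (x z : BSet B) (n : ℕ) (h : bmem (natN n) z = ⊤) : beq x (natN n) ≤ bmem x z := by
  have h1 := bmem_congr_left (natN n) x z
  rwa [h, inf_top_eq, beq_comm] at h1

theorem bInd_omN : bInd (omN : BSet B) = ⊤ := by
  rw [eq_top_iff]
  refine le_inf (le_iInf fun e => ?_) (le_iInf fun x => le_iInf fun s => ?_)
  · rw [le_himp_iff, top_inf_eq]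
    exact le_trans (emp_natN0 e) (EA_mem_of_eq e omN 0 (natN_mem_omN 0))
  · rw [le_himp_iff, le_himp_iff, top_inf_eq]
    have h : bmem x (omN : BSet B) = ⨆ n, (⊤ : B) ⊓ beq x (natN n) := bmem_subN x (fun _ => ⊤)
    rw [h, iSup_inf_eq]
    refine iSup_le fun n => ?_
    rw [top_inf_eq]
    calc beq x (natN n) ⊓ bSucc x s ≤ bSucc (natN n) s := ext_bSucc_left s x (natN n)
      _ ≤ beq s (natN (n + 1)) := succ_natN n s
      _ ≤ bmem s omN := EA_mem_of_eq s omN (n + 1) (natN_mem_omN (n + 1))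

theorem bInd_le (z : BSet B) (n : ℕ) : bInd z ≤ bmem (natN n) z := by
  induction n with
  | zero =>
    have h1 : bEmp (natN 0 : BSet B) = ⊤ := by
      rw [eq_top_iff]
      refine le_iInf fun w => ?_
      rw [not_bmem_natN_zero, compl_bot]
    have h2 : bInd z ≤ bEmp (natN 0) ⇨ bmem (natN 0) z := le_trans inf_le_left (iInf_le _ (natN 0))
    rwa [h1, top_himp] at h2
  | succ n ih =>
    have h1 : bSucc (natN n : BSet B) (natN (n + 1)) = ⊤ := by
      rw [eq_top_iff]
      refine le_iInf fun w => ?_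
      change ⊤ ≤ (bmem w (bsucc (natN n)) ⇨ (bmem w (natN n) ⊔ beq w (natN n))) ⊓
        ((bmem w (natN n) ⊔ beq w (natN n)) ⇨ bmem w (bsucc (natN n)))
      rw [bmem_bsucc, himp_self, inf_idem]
    have h2 : bInd z ≤ bmem (natN n) z ⇨ (bSucc (natN n) (natN (n + 1)) ⇨ bmem (natN (n + 1)) z) :=
      le_trans inf_le_right (le_trans (iInf_le _ (natN n)) (iInf_le _ (natN (n + 1))))
    rw [h1, top_himp, le_himp_iff] at h2
    exact le_trans (le_inf le_rfl ih) h2

private theorem EA_Sub_omN (z : BSet B) : bSub omN z = ⨅ n, bmem (natN n) z :=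
  iInf_omN (ExtB.mem_left z)

theorem bOmega_omN : bOmega (omN : BSet B) = ⊤ := by
  rw [eq_top_iff]
  refine le_inf (by rw [bInd_omN]) (le_iInf fun z => ?_)
  rw [le_himp_iff, top_inf_eq, EA_Sub_omN]
  exact le_iInf fun n => bInd_le z n

theorem bOmega_le (om : BSet B) : bOmega om ≤ beq om omN := by
  have h1 : bOmega om ≤ bSub om omN := by
    have h2 : bOmega om ≤ bInd omN ⇨ bSub om omN := le_trans inf_le_right (iInf_le _ omN)
    rwa [bInd_omN, top_himp] at h2
  have h3 : bOmega om ≤ bSub omN om := by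
    rw [EA_Sub_omN]
    exact le_iInf fun n => le_trans inf_le_left (bInd_le om n)
  rw [Pool.Agent.BVU.beq_ext]
  exact le_inf h1 h3

end Pool.Agent.TFN
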