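import Pool.Agent.TFN.EA

/-!
# TFN module EB: almost inclusion of names, the name of the tower

`ext_bAS2`, …: closure lemmas of BVU/Ext.
`bAS_subN`: `iSup_omN` (the function `n ↦ ⨅ k, …` is extensional) and `iInf_subN`: the value is
`⨆ n, ⨅ k, (W k ⇨ (W' k ⊔ bmem (natN k) (natN n)))`; `bmem (natN k) (natN n)` is `⊤` for `k < n` and `⊥` for `n ≤ k`.
`bSlt_lt`: `bAS` is `⊤` by `A.T1`; and the reverse one is `⊥`: `⨆ n, ⨅ k ≥ n, (T β k ⇨ T α k)` is disjoint from everything because by `A.T2`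
for each `n` `⊤ ≤ ⨆ k ≥ n, T β k ⊓ (T α k)ᶜ` and `(T β k ⇨ T α k) ⊓ T β k ⊓ (T α k)ᶜ = ⊥`.
`bSlt_ge`: for `β < α`: `bAS omN T_α T_β = ⊥` as just seen; for `β = α`: `bAS omN T_α T_α = ⊤`, its complement is `⊥`.
`beq_tow_ne`: for `α < β`: `beq T_α T_β ⊓ bSlt T_α T_β ≤ bSlt T_α T_α = ⊥` (`ext_bSlt3`, `beq_comm`).
`iSup_tow`, `iInf_tow`: `iSup_bmem`, `iInf_bmem` for the name `towN A`.  `mem_tow`: `vl_le`.
-/

set_option autoImplicit false

namespace Pool.Agent.TFN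

open Pool.Agent.BVU Pool.Agent.BVU.BSet

variable {B : Type} [CompleteBooleanAlgebra B]

theorem ext_bAS2 (om t : BSet B) : ExtB (fun s : BSet B => bAS om s t) :=
  ExtB.iSup fun _ => ExtB.inf (ExtB.const _) (ExtB.iInf fun k =>
    ExtB.himp (ExtB.mem_right k) (ExtB.const _))

theorem ext_bAS3 (om s : BSet B) : ExtB (fun t : BSet B => bAS om s t) :=
  ExtB.iSup fun _ => ExtB.inf (ExtB.const _) (ExtB.iInf fun k =>
    ExtB.himp (ExtB.const _) (ExtB.sup (ExtB.mem_right k) (ExtB.const _)))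

theorem ext_bSlt2 (om t : BSet B) : ExtB (fun s : BSet B => bSlt om s t) :=
  ExtB.inf (ext_bAS2 om t) (ExtB.compl (ext_bAS3 om t))

theorem ext_bSlt3 (om s : BSet B) : ExtB (fun t : BSet B => bSlt om s t) :=
  ExtB.inf (ext_bAS3 om s) (ExtB.compl (ext_bAS2 om s))

theorem bAS_subN (W W' : ℕ → B) :
    bAS omN (subN W) (subN W') = ⨆ n, ⨅ k, ⨅ (_ : n ≤ k), (W k ⇨ W' k) := by
  have h1 : ExtB (fun n : BSet B => ⨅ k, (bmem k (subN W) ⇨ (bmem k (subN W') ⊔ bmem k n))) :=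
    ExtB.iInf fun k => ExtB.himp (ExtB.const _) (ExtB.sup (ExtB.const _) (ExtB.mem_right k))
  have h2 := iSup_omN h1
  rw [bAS, h2]
  refine iSup_congr fun n => ?_
  have h3 : ExtB (fun k : BSet B => bmem k (subN W') ⊔ bmem k (natN n)) :=
    ExtB.sup (ExtB.mem_left _) (ExtB.mem_left _)
  rw [iInf_subN h3]
  refine iInf_congr fun k => ?_
  rw [natN_mem_subN]
  by_cases hk : n ≤ k
  · rw [natN_mem_of_le hk, sup_bot_eq]
    simp [hk]
  · rw [natN_mem_of_lt (not_le.1 hk), sup_top_eq, himp_top]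
    simp [hk]

variable {Ω : Type} [LinearOrder Ω] [OrderBot Ω] (A : TowAlg Ω B)

private theorem EB_self (W : ℕ → B) : bAS omN (subN W) (subN W) = ⊤ := by
  rw [bAS_subN]
  apply top_unique
  refine le_iSup_of_le 0 ?_
  refine le_iInf fun k => le_iInf fun _ => ?_
  rw [himp_self]

private theorem EB_lt {α β : Ω} (h : α < β) : bAS omN (subN (A.T α)) (subN (A.T β)) = ⊤ := by
  rw [bAS_subN]
  exact top_unique (A.T1 α β h)

private theorem EB_gt {α β : Ω} (h : α < β) : bAS omN (subN (A.T β)) (subN (A.T α)) = ⊥ := by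
  rw [bAS_subN]
  apply bot_unique
  refine iSup_le fun n => ?_
  calc (⨅ k, ⨅ (_ : n ≤ k), (A.T β k ⇨ A.T α k))
      = (⨅ k, ⨅ (_ : n ≤ k), (A.T β k ⇨ A.T α k)) ⊓ ⊤ := (inf_top_eq _).symm
    _ ≤ (⨅ k, ⨅ (_ : n ≤ k), (A.T β k ⇨ A.T α k)) ⊓
        ⨆ k, ⨆ (_ : n ≤ k), (A.T β k ⊓ (A.T α k)ᶜ) := inf_le_inf_left _ (A.T2 α β h n)
    _ ≤ ⊥ := by
      rw [inf_iSup_eq]
      refine iSup_le fun k => ?_
      rw [inf_iSup_eq]
      refine iSup_le fun hk => ?_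
      calc (⨅ k, ⨅ (_ : n ≤ k), (A.T β k ⇨ A.T α k)) ⊓ (A.T β k ⊓ (A.T α k)ᶜ)
          ≤ (A.T β k ⇨ A.T α k) ⊓ (A.T β k ⊓ (A.T α k)ᶜ) :=
            inf_le_inf_right _ (iInf₂_le k hk)
        _ = ((A.T β k ⇨ A.T α k) ⊓ A.T β k) ⊓ (A.T α k)ᶜ := (inf_assoc _ _ _).symm
        _ ≤ A.T α k ⊓ (A.T α k)ᶜ := inf_le_inf_right _ himp_inf_le
        _ = ⊥ := inf_compl_eq_bot

theorem bSlt_lt {α β : Ω} (h : α < β) : bSlt omN (subN (A.T α)) (subN (A.T β)) = ⊤ := by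
  rw [bSlt, EB_lt A h, EB_gt A h, compl_bot, top_inf_eq]

theorem bSlt_ge {α β : Ω} (h : β ≤ α) : bSlt omN (subN (A.T α)) (subN (A.T β)) = ⊥ := by
  rcases h.lt_or_eq with h | h
  · rw [bSlt, EB_gt A h, bot_inf_eq]
  · subst h
    rw [bSlt, EB_self, compl_top, inf_bot_eq]

theorem beq_tow_ne {α β : Ω} (h : α ≠ β) : beq (subN (A.T α)) (subN (A.T β)) = ⊥ := by
  have key : ∀ {α β : Ω}, α < β → beq (subN (A.T α)) (subN (A.T β)) = ⊥ := by
    intro α β h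
    have h1 := ext_bSlt2 omN (subN (A.T β)) (subN (A.T α)) (subN (A.T β))
    simp only [] at h1
    rw [bSlt_lt A h, bSlt_ge A le_rfl, inf_top_eq] at h1
    exact bot_unique h1
  rcases lt_or_gt_of_ne h with h | h
  · exact key h
  · rw [beq_comm]
    exact key h

theorem mem_tow (α : Ω) : bmem (subN (A.T α)) (towN A) = ⊤ :=
  top_unique (vl_le (towN A) α)

theorem bmem_tow (x : BSet B) : bmem x (towN A) = ⨆ α, beq x (subN (A.T α)) := by
  change (⨆ α : Ω, (⊤ : B) ⊓ beq x (subN (A.T α))) = _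
  simp only [top_inf_eq]

theorem iSup_tow {f : BSet B → B} (hf : ExtB f) : (⨆ z, bmem z (towN A) ⊓ f z) = ⨆ α, f (subN (A.T α)) := by
  rw [iSup_bmem hf (towN A)]
  change (⨆ α : Ω, (⊤ : B) ⊓ f (subN (A.T α))) = _
  simp only [top_inf_eq]

theorem iInf_tow {f : BSet B → B} (hf : ExtB f) : (⨅ z, bmem z (towN A) ⇨ f z) = ⨅ α, f (subN (A.T α)) := by
  rw [iInf_bmem hf (towN A)]
  change (⨅ α : Ω, (⊤ : B) ⇨ f (subN (A.T α))) = _
  simp only [top_himp]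

end Pool.Agent.TFN
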