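import Pool.Agent.TFN.EB
import Pool.Agent.BVU.Ax3

/-!
# TFN module EC: the easy clauses of `IsTower` have value `⊤`
-/

set_option autoImplicit false

namespace Pool.Agent.TFN

open Pool.Agent.BVU Pool.Agent.BVU.BSet

variable {B : Type} [CompleteBooleanAlgebra B]
variable {Ω : Type} [LinearOrder Ω] [OrderBot Ω] (A : TowAlg Ω B)

private theorem EC_himp_top {a b : B} (h : a ≤ b) : (a ⇨ b) = ⊤ := himp_eq_top_iff.2 h

private theorem EC_iInf_top {ι : Sort*} {f : ι → B} (h : ∀ i, f i = ⊤) : (⨅ i, f i) = ⊤ := by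
  rw [iInf_congr h]
  exact iInf_top

private theorem EC_emp (e : BSet B) : bEmp e ≤ beq e (subN (A.T ⊥)) := by
  rw [Pool.Agent.BVU.beq_ext]
  refine le_inf (le_iInf fun z => ?_) (le_iInf fun z => ?_)
  · rw [le_himp_iff]
    refine le_trans (inf_le_inf_right _ (iInf_le (fun z => (bmem z e)ᶜ) z)) ?_
    rw [compl_inf_self]
    exact bot_le
  · have h : bmem z (subN (A.T ⊥)) = ⊥ := by
      rw [bmem_subN]
      apply bot_unique
      refine iSup_le fun n => ?_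
      rw [A.T0, bot_inf_eq]
    rw [h, bot_himp]
    exact le_top

theorem tow_emp : (⨅ e, (bEmp e ⇨ bmem e (towN A))) = ⊤ := by
  refine EC_iInf_top fun e => EC_himp_top ?_
  rw [bmem_tow]
  exact le_trans (EC_emp A e) (le_iSup (fun α => beq e (subN (A.T α))) ⊥)

private theorem EC_ext_bSub : ExtB (fun t : BSet B => bSub t omN) :=
  ExtB.iInf fun z => (ExtB.mem_right z).himp (ExtB.const _)

theorem tow_sub : (⨅ t, (bmem t (towN A) ⇨ bSub t omN)) = ⊤ := by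
  rw [iInf_tow A EC_ext_bSub]
  refine EC_iInf_top fun α => EC_iInf_top fun z => EC_himp_top ?_
  have h : bmem z (omN : BSet B) = ⨆ n, (⊤ : B) ⊓ beq z (natN n) := bmem_subN z _
  rw [bmem_subN, h]
  exact iSup_mono fun n => inf_le_inf_right _ le_top

private theorem EC_ext_g2 (s : BSet B) :
    ExtB (fun t : BSet B => beq s t ⊔ (bSlt omN s t ⊔ bSlt omN t s)) :=
  (ExtB.eq_right s).sup ((ext_bSlt3 omN s).sup (ext_bSlt2 omN s))

private theorem EC_ext_g1 (t : BSet B) :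
    ExtB (fun s : BSet B => beq s t ⊔ (bSlt omN s t ⊔ bSlt omN t s)) :=
  (ExtB.eq_left t).sup ((ext_bSlt2 omN t).sup (ext_bSlt3 omN t))

theorem tow_lin : (⨅ s, ⨅ t, (bmem s (towN A) ⇨ (bmem t (towN A) ⇨
    (beq s t ⊔ (bSlt omN s t ⊔ bSlt omN t s))))) = ⊤ := by
  have h1 : ∀ s : BSet B, (⨅ t, (bmem s (towN A) ⇨ (bmem t (towN A) ⇨
      (beq s t ⊔ (bSlt omN s t ⊔ bSlt omN t s)))))
      = (bmem s (towN A) ⇨ ⨅ β, (beq s (subN (A.T β)) ⊔
        (bSlt omN s (subN (A.T β)) ⊔ bSlt omN (subN (A.T β)) s))) := by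
    intro s
    rw [← himp_iInf_eq, iInf_tow A (EC_ext_g2 s)]
  have h2 : (⨅ s, ⨅ t, (bmem s (towN A) ⇨ (bmem t (towN A) ⇨
      (beq s t ⊔ (bSlt omN s t ⊔ bSlt omN t s)))))
      = ⨅ s, (bmem s (towN A) ⇨ ⨅ β, (beq s (subN (A.T β)) ⊔
        (bSlt omN s (subN (A.T β)) ⊔ bSlt omN (subN (A.T β)) s))) := iInf_congr h1
  rw [h2, iInf_tow A (ExtB.iInf fun β => EC_ext_g1 (subN (A.T β)))]
  refine EC_iInf_top fun α => EC_iInf_top fun β => ?_
  rcases lt_trichotomy α β with h | h | h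
  · rw [bSlt_lt A h, top_sup_eq, sup_top_eq]
  · rw [h, beq_refl, top_sup_eq]
  · rw [bSlt_lt A h, sup_top_eq, sup_top_eq]

theorem tow_top (hM : ∀ α : Ω, ∃ β, α < β) : (⨅ t, (bmem t (towN A) ⇨ (bAS omN omN t)ᶜ)) = ⊤ := by
  rw [iInf_tow A (ext_bAS3 omN omN).compl]
  refine EC_iInf_top fun α => ?_
  obtain ⟨β, hβ⟩ := hM α
  have h : bAS (omN : BSet B) omN (subN (A.T α)) = ⊥ := by
    have h0 : bAS (omN : BSet B) omN (subN (A.T α)) = ⨆ n, ⨅ k, ⨅ (_ : n ≤ k), ((⊤ : B) ⇨ A.T α k) :=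
      bAS_subN (fun _ => ⊤) (A.T α)
    rw [h0]
    apply bot_unique
    refine iSup_le fun n => ?_
    have h2 := A.T2 α β hβ n
    calc (⨅ k, ⨅ (_ : n ≤ k), ((⊤ : B) ⇨ A.T α k))
        ≤ (⨅ k, ⨅ (_ : n ≤ k), ((⊤ : B) ⇨ A.T α k)) ⊓ ⨆ k, ⨆ (_ : n ≤ k), (A.T β k ⊓ (A.T α k)ᶜ) :=
          le_inf le_rfl (le_trans le_top h2)
      _ ≤ ⊥ := by
          rw [inf_iSup_eq]
          refine iSup_le fun k => ?_
          rw [inf_iSup_eq]
          refine iSup_le fun hk => ?_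
          have h3 : (⨅ k, ⨅ (_ : n ≤ k), ((⊤ : B) ⇨ A.T α k)) ≤ A.T α k := by
            refine le_trans (iInf_le _ k) (le_trans (iInf_le _ hk) ?_)
            rw [top_himp]
          calc (⨅ k, ⨅ (_ : n ≤ k), ((⊤ : B) ⇨ A.T α k)) ⊓ (A.T β k ⊓ (A.T α k)ᶜ)
              ≤ A.T α k ⊓ (A.T α k)ᶜ := inf_le_inf h3 inf_le_right
            _ = ⊥ := inf_compl_self _
  rw [h, compl_bot]

theorem tow_unb (hM : ∀ α : Ω, ∃ β, α < β) :
    (⨅ s, (bmem s (towN A) ⇨ ⨆ t, (bmem t (towN A) ⊓ bSlt omN s t))) = ⊤ := by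
  rw [iInf_tow A (ExtB.iSup fun t => (ExtB.const (bmem t (towN A))).inf (ext_bSlt2 omN t))]
  refine EC_iInf_top fun α => ?_
  obtain ⟨β, hβ⟩ := hM α
  apply top_unique
  refine le_trans ?_ (le_iSup (fun t => bmem t (towN A) ⊓ bSlt omN (subN (A.T α)) t) (subN (A.T β)))
  rw [mem_tow, bSlt_lt A hβ, inf_top_eq]

private theorem EC_mem (S s : BSet B) :
    bSub S (towN A) ⊓ bmem s S ≤ ⨆ α, (beq s (subN (A.T α)) ⊓ bmem s S) := by
  have h1 : bSub S (towN A) ⊓ bmem s S ≤ bmem s (towN A) := by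
    rw [← le_himp_iff]
    exact iInf_le (fun z => bmem z S ⇨ bmem z (towN A)) s
  have h2 : bSub S (towN A) ⊓ bmem s S ≤ bmem s (towN A) ⊓ bmem s S := le_inf h1 inf_le_right
  rw [bmem_tow, iSup_inf_eq] at h2
  exact h2

theorem tow_wf (hwf : WellFounded ((· < ·) : Ω → Ω → Prop)) (S : BSet B) :
    bSub S (towN A) ⊓ (⨆ s, bmem s S) ≤ ⨆ s, (bmem s S ⊓ ⨅ t, (bmem t S ⇨ (bSlt omN t s)ᶜ)) := by
  have h1 : bSub S (towN A) ⊓ (⨆ s, bmem s S) ≤ ⨆ α, bmem (subN (A.T α)) S := by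
    rw [inf_iSup_eq]
    refine iSup_le fun s => le_trans (EC_mem A S s) (iSup_mono fun α => ?_)
    exact bmem_congr_left _ _ _
  have h2 : bSub S (towN A) ⊓ (⨆ s, bmem s S) ≤ bSub S (towN A) ⊓
      ⨆ α, (bmem (subN (A.T α)) S ⊓ ⨅ α', ⨅ (_ : α' < α), (bmem (subN (A.T α')) S)ᶜ) :=
    le_inf inf_le_left (le_trans h1 (iSup_least (fun a b : Ω => a < b) hwf
      (fun α => bmem (subN (A.T α)) S)))
  refine le_trans h2 ?_
  rw [inf_iSup_eq]
  refine iSup_le fun α => ?_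
  refine le_trans ?_ (le_iSup (fun s => bmem s S ⊓ ⨅ t, (bmem t S ⇨ (bSlt omN t s)ᶜ)) (subN (A.T α)))
  refine le_inf (le_trans inf_le_right inf_le_left) (le_iInf fun t => ?_)
  rw [le_himp_iff]
  set N : B := ⨅ α', ⨅ (_ : α' < α), (bmem (subN (A.T α')) S)ᶜ with hN
  calc bSub S (towN A) ⊓ (bmem (subN (A.T α)) S ⊓ N) ⊓ bmem t S
      ≤ N ⊓ (bSub S (towN A) ⊓ bmem t S) := by
        refine le_inf ?_ (le_inf ?_ inf_le_right)
        · exact le_trans inf_le_left (le_trans inf_le_right inf_le_right)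
        · exact le_trans inf_le_left inf_le_left
    _ ≤ N ⊓ ⨆ γ, (beq t (subN (A.T γ)) ⊓ bmem t S) := inf_le_inf_left _ (EC_mem A S t)
    _ ≤ (bSlt omN t (subN (A.T α)))ᶜ := by
        rw [inf_iSup_eq]
        refine iSup_le fun γ => ?_
        rcases lt_or_ge γ α with h | h
        · have h3 : N ≤ (bmem (subN (A.T γ)) S)ᶜ := le_trans (iInf_le _ γ) (iInf_le _ h)
          have h4 : beq t (subN (A.T γ)) ⊓ bmem t S ≤ bmem (subN (A.T γ)) S := bmem_congr_left _ _ _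
          refine le_trans (inf_le_inf h3 h4) ?_
          rw [compl_inf_self]
          exact bot_le
        · have h5 := (ext_bSlt2 (omN : BSet B) (subN (A.T α))).compl (subN (A.T γ)) t
          change beq (subN (A.T γ)) t ⊓ (bSlt omN (subN (A.T γ)) (subN (A.T α)))ᶜ
            ≤ (bSlt omN t (subN (A.T α)))ᶜ at h5
          rw [bSlt_ge A h, compl_bot, inf_top_eq, beq_comm] at h5
          exact le_trans inf_le_right (le_trans inf_le_left h5)

end Pool.Agent.TFN
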