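import Mathlib

/-!
# TFN module ED: uncountable free sets for small set mappings (Lázár's argument)

Statement: `X` has more than `aleph (n + 1)` elements and `f i` has at most `aleph n` elements for all `i`; then some uncountable
`F ⊆ X` is free: `i ∉ f j` for `i ≠ j` in `F`.
Proof: suppose every free subset of `X` is countable.  Let `Λ := (Cardinal.aleph (n + 1)).ord.ToType`.  By well-founded recursion
define for `ξ : Λ` a maximal free subset `F ξ` of `X \ ⋃ η < ξ, F η` (Zorn: the union of a chain of free sets is free).  Let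
`V := ⋃ ξ, F ξ`; each `F ξ` is countable, so `#V ≤ aleph (n + 1)`, and `V' := ⋃ i ∈ V, f i` has at most `aleph (n + 1)` elements.  Take
`j ∈ X \ (V ∪ V')`.  For every `ξ` the set `F ξ ∪ {j}` is not free by maximality (`j ∈ X \ ⋃ η < ξ, F η` and `j ∉ F ξ`), so there is `i ∈ F ξ`
with `i ∈ f j` or `j ∈ f i`; the second is excluded by `j ∉ V'`.  Choose such an `i ξ ∈ F ξ ∩ f j`; the `F ξ` are pairwise disjoint, so `ξ ↦ i ξ`
is an injection of `Λ` into `f j`, and `aleph (n + 1) ≤ #(f j) ≤ aleph n`, contradiction.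
-/

set_option autoImplicit false

namespace Pool.Agent.TFN

open Cardinal

theorem exists_free {I : Type} (n : ℕ) (X : Set I) (hX : aleph (n + 1) < #X) (f : I → Set I)
    (hf : ∀ i, #(f i) ≤ aleph n) :
    ∃ F : Set I, F ⊆ X ∧ ¬ F.Countable ∧ ∀ i ∈ F, ∀ j ∈ F, i ≠ j → i ∉ f j := by
  classical
  by_contra hcon
  push Not at hcon
  -- every free subset of X is countable
  have hct : ∀ F : Set I, F ⊆ X → (∀ i ∈ F, ∀ j ∈ F, i ≠ j → i ∉ f j) → F.Countable := by
    intro F hF hfree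
    by_contra hc
    obtain ⟨i, hi, j, hj, hij, hm⟩ := hcon F hF hc
    exact hfree i hi j hj hij hm
  -- maximal free subsets
  have hmax : ∀ U : Set I, ∃ m : Set I, Maximal (· ∈ {S : Set I | S ⊆ X \ U ∧
      ∀ i ∈ S, ∀ j ∈ S, i ≠ j → i ∉ f j}) m := by
    intro U
    apply zorn_subset
    intro c hc hchain
    refine ⟨⋃₀ c, ⟨?_, ?_⟩, fun s hs => Set.subset_sUnion_of_mem hs⟩
    · exact Set.sUnion_subset (fun s hs => (hc hs).1)
    · rintro i ⟨s, hs, his⟩ j ⟨t, ht, hjt⟩ hij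
      rcases hchain.total hs ht with h | h
      · exact (hc ht).2 i (h his) j hjt hij
      · exact (hc hs).2 i his j (h hjt) hij
  choose mx hmx using hmax
  let Λ := (Cardinal.aleph ((n : Ordinal) + 1)).ord.ToType
  have hwf : WellFounded ((· < ·) : Λ → Λ → Prop) := wellFounded_lt
  let F : Λ → Set I := hwf.fix (fun ξ rec => mx (⋃ η : Λ, ⋃ h : η < ξ, rec η h))
  have hF : ∀ ξ, F ξ = mx (⋃ η : Λ, ⋃ _ : η < ξ, F η) := by
    intro ξ
    exact hwf.fix_eq _ ξ
  have hmF : ∀ ξ, Maximal (· ∈ {S : Set I | S ⊆ X \ (⋃ η : Λ, ⋃ _ : η < ξ, F η) ∧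
      ∀ i ∈ S, ∀ j ∈ S, i ≠ j → i ∉ f j}) (F ξ) := by
    intro ξ
    rw [hF ξ]
    exact hmx _
  have hFX : ∀ ξ, F ξ ⊆ X := fun ξ => (hmF ξ).prop.1.trans Set.sdiff_subset
  have hFc : ∀ ξ, #(F ξ) ≤ ℵ₀ := fun ξ =>
    (Cardinal.le_aleph0_iff_set_countable).2 (hct (F ξ) (hFX ξ) (hmF ξ).prop.2)
  have hdisj : ∀ ξ η, η < ξ → ∀ i ∈ F ξ, i ∉ F η := by
    intro ξ η hlt i hi hi'
    exact ((hmF ξ).prop.1 hi).2 (Set.mem_iUnion₂.2 ⟨η, hlt, hi'⟩)
  have hΛ : #Λ = aleph ((n : Ordinal) + 1) := Cardinal.mk_ord_toType _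
  have hinf : ℵ₀ ≤ aleph ((n : Ordinal) + 1) := Cardinal.aleph0_le_aleph _
  have hnn : aleph (n : Ordinal) < aleph ((n : Ordinal) + 1) := by
    apply Cardinal.aleph_lt_aleph.2
    exact lt_add_of_pos_right _ zero_lt_one
  obtain ⟨V, hVd⟩ : ∃ V : Set I, V = ⋃ ξ, F ξ := ⟨_, rfl⟩
  have hV : #V ≤ aleph ((n : Ordinal) + 1) := by
    rw [hVd]
    refine (Cardinal.mk_iUnion_le_sum_mk).trans ?_
    refine (Cardinal.sum_le_sum _ (fun _ => ℵ₀) hFc).trans ?_
    rw [Cardinal.sum_const']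
    rw [hΛ]
    exact (Cardinal.mul_le_max_of_aleph0_le_left hinf).trans (max_le le_rfl hinf)
  have hV' : #(⋃ i : V, f (i : I)) ≤ aleph ((n : Ordinal) + 1) := by
    refine (Cardinal.mk_iUnion_le_sum_mk).trans ?_
    refine (Cardinal.sum_le_sum _ (fun _ => aleph (n : Ordinal)) (fun i : V => hf (i : I))).trans ?_
    rw [Cardinal.sum_const']
    refine (mul_le_mul' hV hnn.le).trans ?_
    exact (Cardinal.mul_le_max_of_aleph0_le_left hinf).trans (max_le le_rfl le_rfl)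
  have hex : ∃ j ∈ X, j ∉ V ∧ j ∉ (⋃ i : V, f (i : I)) := by
    by_contra hne
    push Not at hne
    have hsub : X ⊆ V ∪ (⋃ i : V, f (i : I)) := by
      intro j hj
      by_cases h1 : j ∈ V
      · exact Or.inl h1
      · exact Or.inr (hne j hj h1)
    have h2 := (Cardinal.mk_le_mk_of_subset hsub).trans (Cardinal.mk_union_le _ _)
    have h3 := h2.trans (add_le_add hV hV')
    rw [Cardinal.add_eq_self hinf] at h3
    exact absurd hX (not_lt.2 h3)
  obtain ⟨j, hjX, hjV, hjV'⟩ := hex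
  have hjF : ∀ ξ, j ∉ F ξ := fun ξ h => hjV (hVd ▸ Set.mem_iUnion.2 ⟨ξ, h⟩)
  have hpick : ∀ ξ, ∃ i, i ∈ F ξ ∧ i ∈ f j := by
    intro ξ
    by_contra hno
    push Not at hno
    have hmem : insert j (F ξ) ∈ {S : Set I | S ⊆ X \ (⋃ η : Λ, ⋃ _ : η < ξ, F η) ∧
        ∀ i ∈ S, ∀ k ∈ S, i ≠ k → i ∉ f k} := by
      refine ⟨?_, ?_⟩
      · intro x hx
        rcases hx with rfl | hx
        · refine ⟨hjX, ?_⟩
          intro hu
          obtain ⟨η, _, hη⟩ := Set.mem_iUnion₂.1 hu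
          exact hjF η hη
        · exact (hmF ξ).prop.1 hx
      · intro x hx y hy hxy
        rcases hx with rfl | hx
        · rcases hy with rfl | hy
          · exact absurd rfl hxy
          · intro hxf
            exact hjV' (Set.mem_iUnion.2 ⟨⟨y, hVd ▸ Set.mem_iUnion.2 ⟨ξ, hy⟩⟩, hxf⟩)
        · rcases hy with rfl | hy
          · exact hno x hx
          · exact (hmF ξ).prop.2 x hx y hy hxy
    have := (hmF ξ).le_of_ge hmem (Set.subset_insert j (F ξ))
    exact hjF ξ (this (Set.mem_insert j _))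
  choose g hg1 hg2 using hpick
  have hginj : Function.Injective (fun ξ : Λ => (⟨g ξ, hg2 ξ⟩ : f j)) := by
    intro ξ η he
    have he' : g ξ = g η := congrArg Subtype.val he
    rcases lt_trichotomy ξ η with h | h | h
    · exact absurd (he' ▸ hg1 ξ) (hdisj η ξ h (g η) (hg1 η))
    · exact h
    · exact absurd (he' ▸ hg1 η : g ξ ∈ F η) (hdisj ξ η h (g ξ) (hg1 ξ))
  have h1 := Cardinal.mk_le_of_injective hginj
  rw [hΛ] at h1
  exact absurd (h1.trans (hf j)) (not_le.2 hnn)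

end Pool.Agent.TFN
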