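import Pool.Agent.TFN.BDefs
import Pool.Agent.BVU.Rep
import Pool.Agent.BVU.Nat

/-!
# TFN part E: truth values of the notions of TFN/Defs (definitions)

`bXxx` is the truth value of the notion `IsXxx` of `TFN/Defs`.
-/

set_option autoImplicit false

namespace Pool.Agent.TFN

open Pool.Agent.BVU Pool.Agent.BVU.BSet

variable {B : Type} [CompleteBooleanAlgebra B]

def bSub (x y : BSet B) : B := ⨅ z, (bmem z x ⇨ bmem z y)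

def bEmp (x : BSet B) : B := ⨅ z, (bmem z x)ᶜ

def bUPair (x y z : BSet B) : B :=
  ⨅ w, (bmem w z ⇨ (beq w x ⊔ beq w y)) ⊓ ((beq w x ⊔ beq w y) ⇨ bmem w z)

def bPair (x y p : BSet B) : B := ⨆ a, ⨆ b, bUPair x x a ⊓ (bUPair x y b ⊓ bUPair a b p)

def bSucc (x s : BSet B) : B :=
  ⨅ w, (bmem w s ⇨ (bmem w x ⊔ beq w x)) ⊓ ((bmem w x ⊔ beq w x) ⇨ bmem w s)

def bInd (z : BSet B) : B :=
  (⨅ e, (bEmp e ⇨ bmem e z)) ⊓ ⨅ x, ⨅ s, (bmem x z ⇨ (bSucc x s ⇨ bmem s z))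

def bOmega (om : BSet B) : B := bInd om ⊓ ⨅ z, (bInd z ⇨ bSub om z)

/-- `f` is single-valued at the elements of `om` -/
def bSv (om f : BSet B) : B := ⨅ n, ⨅ y, ⨅ y', ⨅ p, ⨅ p',
  (bmem n om ⇨ (bPair n y p ⇨ (bmem p f ⇨ (bPair n y' p' ⇨ (bmem p' f ⇨ beq y y')))))

/-- every element of `x` is a value of `f` at an element of `om` -/
def bOnto (om f x : BSet B) : B := ⨅ y, (bmem y x ⇨ ⨆ n, ⨆ p, bmem n om ⊓ (bPair n y p ⊓ bmem p f))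

def bCtbl (x : BSet B) : B := ⨆ om, ⨆ f, bOmega om ⊓ (bSv om f ⊓ bOnto om f x)

def bRel (R a b : BSet B) : B := ⨆ p, bmem p R ⊓ bPair a b p

def bStrict (x R : BSet B) : B :=
  (⨅ a, (bmem a x ⇨ (bRel R a a)ᶜ)) ⊓
  ((⨅ a, ⨅ b, ⨅ c, (bmem a x ⇨ (bmem b x ⇨ (bmem c x ⇨ (bRel R a b ⇨ (bRel R b c ⇨ bRel R a c)))))) ⊓
  (⨅ a, ⨅ b, (bmem a x ⇨ (bmem b x ⇨ (beq a b ⊔ (bRel R a b ⊔ bRel R b a))))))

/-- `s` is the initial segment `{a ∈ x : a R b}` -/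
def bSeg (x R b s : BSet B) : B :=
  ⨅ a, (bmem a s ⇨ (bmem a x ⊓ bRel R a b)) ⊓ ((bmem a x ⊓ bRel R a b) ⇨ bmem a s)

def bLe : ℕ → BSet B → B
  | 0, x => bCtbl x
  | n + 1, x => ⨆ R, bStrict x R ⊓ ⨅ b, ⨅ s, (bmem b x ⇨ (bSeg x R b s ⇨ bLe n s))

def bAS (om s t : BSet B) : B := ⨆ n, bmem n om ⊓ ⨅ k, (bmem k s ⇨ (bmem k t ⊔ bmem k n))

def bSlt (om s t : BSet B) : B := bAS om s t ⊓ (bAS om t s)ᶜ

def bSepFrom (om T H K : BSet B) : B := ⨅ t, (bmem t H ⇨ (bmem t T ⊓ ⨆ s, (bmem s T ⊓ (bSlt om s t ⊓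
  ⨅ r, (bmem r K ⇨ (bSlt om s r ⇨ (bSlt om r t ⊔ beq r t)ᶜ))))))

/-- truth value of the first half of the conclusion of `IsTower.sep` -/
def bSepA (om T H W : BSet B) : B := ⨅ t, (bmem t H ⇨ ⨆ s, (bmem s T ⊓ (bSlt om s t ⊓
  ⨆ n, (bmem n om ⊓ ⨅ k, (bmem k t ⇨ (bmem k s ⊔ (bmem k n ⊔ bmem k W)))))))

/-- truth value of the second half of the conclusion of `IsTower.sep` -/
def bSepB (om T K W : BSet B) : B := ⨅ t, (bmem t K ⇨ ⨆ s, (bmem s T ⊓ (bSlt om s t ⊓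
  ⨆ n, (bmem n om ⊓ ⨅ k, (bmem k t ⇨ (bmem k s ⊔ (bmem k n ⊔ (bmem k W)ᶜ)))))))

/-- The name of the tower. -/
def towN {Ω : Type} [LinearOrder Ω] [OrderBot Ω] (A : TowAlg Ω B) : BSet B :=
  BSet.mk Ω (fun α => subN (A.T α)) (fun _ => ⊤)

end Pool.Agent.TFN
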