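import Pool.Agent.TFN.EB

/-!
# TFN module EE: countable sets of the Boolean-valued universe are covered by countable sets

`ctbl_of_ccc`: if the elements `u i ≠ ⊥` (`i ∈ I`) are pairwise disjoint then `I` is countable: `u` is injective on `I` and the image is
countable by `A.ccc`.

`cover_zero`: let `c ≤ bSub S (towN A) ⊓ bCtbl S`.  By the maximum principle (twice; the functions `om ↦ ⨆ f, …` and `f ↦ …` are extensional by
the closure lemmas of BVU/Ext and the `ext_` lemmas) there are `om`, `f` with `c ≤ bOmega om ⊓ (bSv om f ⊓ bOnto om f S)`.  By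
`bOmega_le` `c ≤ beq om omN`.  Put `g n y := ⨆ p, bPair n y p ⊓ bmem p f` (extensional in `n`).  For `y = T_α`:
`c ⊓ bmem T_α S ≤ ⨆ n, bmem n om ⊓ g n T_α`, met with `beq om omN` it is `≤ ⨆ n, bmem n omN ⊓ g n T_α = ⨆ m : ℕ, g (natN m) T_α` (`iSup_omN`).
For `α ≠ β`: `c ⊓ g (natN m) T_α ⊓ g (natN m) T_β ≤ beq T_α T_β = ⊥` by `bSv` (`bmem (natN m) om ≥ beq om omN`), `beq_tow_ne`.  So
`{α | c ⊓ g (natN m) T_α ≠ ⊥}` is countable by `ctbl_of_ccc`; let `Z` be the union over `m`.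
-/

set_option autoImplicit false

namespace Pool.Agent.TFN

open Pool.Agent.BVU Pool.Agent.BVU.BSet

variable {B : Type} [CompleteBooleanAlgebra B]
variable {Ω : Type} [LinearOrder Ω] [OrderBot Ω] (A : TowAlg Ω B)

theorem ctbl_of_ccc (I : Set Ω) (u : Ω → B) (h0 : ∀ i ∈ I, u i ≠ ⊥)
    (h : ∀ i ∈ I, ∀ j ∈ I, i ≠ j → u i ⊓ u j = ⊥) (A : TowAlg Ω B) : I.Countable := by
  refine Set.countable_of_injective_of_countable_image (f := u) ?_ (A.ccc (u '' I) ?_ ?_)
  · intro i hi j hj hij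
    by_contra hne
    apply h0 i hi
    have h1 := h i hi j hj hne
    rwa [← hij, inf_idem] at h1
  · rintro _ ⟨i, hi, rfl⟩
    exact h0 i hi
  · rintro _ ⟨i, hi, rfl⟩ _ ⟨j, hj, rfl⟩ hne
    exact h i hi j hj fun e => hne (by rw [e])

private theorem EE_ext_om (f S : BSet B) : ExtB (fun om : BSet B => bSv om f ⊓ bOnto om f S) := by
  unfold bSv bOnto
  refine ExtB.inf ?_ ?_
  · refine ExtB.iInf fun n => ExtB.iInf fun y => ExtB.iInf fun y' => ExtB.iInf fun p => ExtB.iInf fun p' => ?_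
    exact ExtB.himp (ExtB.mem_right n) (ExtB.const _)
  · refine ExtB.iInf fun y => ExtB.himp (ExtB.const _) (ExtB.iSup fun n => ExtB.iSup fun p => ?_)
    exact ExtB.inf (ExtB.mem_right n) (ExtB.const _)

private theorem EE_ext_f (S : BSet B) : ExtB (fun f : BSet B => bSv omN f ⊓ bOnto omN f S) := by
  unfold bSv bOnto
  refine ExtB.inf ?_ ?_
  · refine ExtB.iInf fun n => ExtB.iInf fun y => ExtB.iInf fun y' => ExtB.iInf fun p => ExtB.iInf fun p' => ?_
    exact ExtB.himp (ExtB.const _) (ExtB.himp (ExtB.const _) (ExtB.himp (ExtB.mem_right p)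
      (ExtB.himp (ExtB.const _) (ExtB.himp (ExtB.mem_right p') (ExtB.const _)))))
  · refine ExtB.iInf fun y => ExtB.himp (ExtB.const _) (ExtB.iSup fun n => ExtB.iSup fun p => ?_)
    exact ExtB.inf (ExtB.const _) (ExtB.inf (ExtB.const _) (ExtB.mem_right p))

private theorem EE_ctbl (S : BSet B) : ∃ f : BSet B, bCtbl S ≤ bSv omN f ⊓ bOnto omN f S := by
  obtain ⟨f, hf⟩ := max_principle (EE_ext_f S)
  refine ⟨f, ?_⟩
  rw [hf]
  unfold bCtbl
  refine iSup_le fun om => iSup_le fun g => ?_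
  refine le_trans ?_ (le_iSup _ g)
  exact le_trans (inf_le_inf_right _ (bOmega_le om)) (EE_ext_om g S om omN)

theorem cover_zero (S : BSet B) (c : B) (hc : c ≤ bSub S (towN A)) (hc' : c ≤ bCtbl S) :
    ∃ Z : Set Ω, Z.Countable ∧ ∀ α, α ∉ Z → c ⊓ bmem (subN (A.T α)) S = ⊥ := by
  obtain ⟨f, hf⟩ := EE_ctbl S
  have hcf := hc'.trans hf
  have h1 : c ≤ bSv omN f := hcf.trans inf_le_left
  have h2 : c ≤ bOnto omN f S := hcf.trans inf_le_right
  let g : BSet B → BSet B → B := fun n y => ⨆ p, bPair n y p ⊓ bmem p f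
  have hg : ∀ y, ExtB (fun n => g n y) := fun y =>
    ExtB.iSup fun p => ExtB.inf (ext_bPair1 y p) (ExtB.const _)
  have h3 : ∀ y, c ⊓ bmem y S ≤ ⨆ m : ℕ, g (natN m) y := by
    intro y
    have e1 : (⨆ n, ⨆ p, bmem n omN ⊓ (bPair n y p ⊓ bmem p f)) = ⨆ m : ℕ, g (natN m) y := by
      rw [← iSup_omN (hg y)]
      refine iSup_congr fun n => ?_
      rw [inf_iSup_eq]
    rw [← e1, ← le_himp_iff]
    refine h2.trans ?_
    unfold bOnto
    exact iInf_le _ y
  have h4 : ∀ (m : ℕ) (y y' : BSet B), c ⊓ (g (natN m) y ⊓ g (natN m) y') ≤ beq y y' := by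
    intro m y y'
    change c ⊓ ((⨆ p, bPair (natN m) y p ⊓ bmem p f) ⊓ (⨆ p, bPair (natN m) y' p ⊓ bmem p f)) ≤ beq y y'
    rw [iSup_inf_iSup, inf_iSup_eq]
    refine iSup_le fun q => ?_
    have h5 : c ≤ (bmem (natN m) omN ⇨ (bPair (natN m) y q.1 ⇨ (bmem q.1 f ⇨ (bPair (natN m) y' q.2 ⇨
        (bmem q.2 f ⇨ beq y y'))))) := by
      refine h1.trans ?_
      unfold bSv
      exact iInf_le_of_le (natN m) (iInf_le_of_le y (iInf_le_of_le y' (iInf_le_of_le q.1 (iInf_le _ q.2))))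
    rw [natN_mem_omN, top_himp, le_himp_iff, le_himp_iff, le_himp_iff, le_himp_iff] at h5
    refine le_trans (le_of_eq ?_) h5
    ac_rfl
  refine ⟨⋃ m : ℕ, {α | c ⊓ (bmem (subN (A.T α)) S ⊓ g (natN m) (subN (A.T α))) ≠ ⊥}, ?_, ?_⟩
  · refine Set.countable_iUnion fun m => ?_
    refine ctbl_of_ccc _ (fun α => c ⊓ (bmem (subN (A.T α)) S ⊓ g (natN m) (subN (A.T α))))
      (fun i hi => hi) ?_ A
    intro i _ j _ hij
    rw [eq_bot_iff, ← beq_tow_ne A hij]
    refine le_trans (le_inf (inf_le_left.trans inf_le_left) (le_inf ?_ ?_)) (h4 m _ _)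
    · exact inf_le_left.trans (inf_le_right.trans inf_le_right)
    · exact inf_le_right.trans (inf_le_right.trans inf_le_right)
  · intro α hα
    rw [Set.mem_iUnion] at hα
    push Not at hα
    rw [eq_bot_iff]
    have h5 : c ⊓ bmem (subN (A.T α)) S ≤ (c ⊓ bmem (subN (A.T α)) S) ⊓ ⨆ m : ℕ, g (natN m) (subN (A.T α)) :=
      le_inf le_rfl (h3 _)
    refine h5.trans ?_
    rw [inf_iSup_eq]
    refine iSup_le fun m => ?_
    have h6 := hα m
    rw [Set.mem_setOf_eq, not_not] at h6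
    rw [inf_assoc, h6]

end Pool.Agent.TFN
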