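import Pool.Agent.TFN.ER1

/-!
# TFN module ER2: representing cardinality notions and separation

As in ER1.  `rep_Sv`, `rep_Onto` are the two halves of `IsCtbl`.  `rep_Strict`: `IsStrictLin` is a structure with three fields;
use `Rep.congr` with the equivalence with the conjunction.  `rep_Le`: induction on `n` for all `i`.
-/

set_option autoImplicit false

namespace Pool.Agent.TFN

open Pool.Agent.BVU Pool.Agent.BVU.BSet

variable {B : Type} [CompleteBooleanAlgebra B] (U : UF B)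

theorem rep_Sv (i j : ℕ) :
    Rep U (fun v => ∀ n y y' p p', qE U n (v i) → IsPair (qE U) n y p → qE U p (v j) → IsPair (qE U) n y' p' →
      qE U p' (v j) → y = y') (fun v => bSv (v i) (v j)) := by
  have h := Rep.all (Rep.all (Rep.all (Rep.all (Rep.all (Rep.imp (Rep.mem U 4 (i + 5)) (Rep.imp (rep_Pair U 4 3 1)
    (Rep.imp (Rep.mem U 1 (j + 5)) (Rep.imp (rep_Pair U 4 2 0) (Rep.imp (Rep.mem U 0 (j + 5))
      (Rep.eq U 3 2))))))))))
  exact h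

theorem rep_Onto (i j k : ℕ) :
    Rep U (fun v => ∀ y, qE U y (v k) → ∃ n p, qE U n (v i) ∧ IsPair (qE U) n y p ∧ qE U p (v j))
      (fun v => bOnto (v i) (v j) (v k)) := by
  have h := Rep.all (Rep.imp (Rep.mem U 0 (k + 1)) (Rep.ex (Rep.ex (Rep.and (Rep.mem U 1 (i + 3))
    (Rep.and (rep_Pair U 1 2 0) (Rep.mem U 0 (j + 3)))))))
  exact h

theorem rep_Ctbl (i : ℕ) : Rep U (fun v => IsCtbl (qE U) (v i)) (fun v => bCtbl (v i)) := by
  have h := Rep.ex (Rep.ex (Rep.and (rep_Omega U 1) (Rep.and (rep_Sv U 1 0) (rep_Onto U 1 0 (i + 2)))))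
  exact h

theorem rep_Strict (i j : ℕ) :
    Rep U (fun v => IsStrictLin (qE U) (v i) (v j)) (fun v => bStrict (v i) (v j)) := by
  have h := Rep.and (Rep.all (Rep.imp (Rep.mem U 0 (i + 1)) (Rep.not (rep_Rel U (j + 1) 0 0))))
    (Rep.and (Rep.all (Rep.all (Rep.all (Rep.imp (Rep.mem U 2 (i + 3)) (Rep.imp (Rep.mem U 1 (i + 3))
      (Rep.imp (Rep.mem U 0 (i + 3)) (Rep.imp (rep_Rel U (j + 3) 2 1) (Rep.imp (rep_Rel U (j + 3) 1 0)
        (rep_Rel U (j + 3) 2 0)))))))))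
      (Rep.all (Rep.all (Rep.imp (Rep.mem U 1 (i + 2)) (Rep.imp (Rep.mem U 0 (i + 2))
        (Rep.or (Rep.eq U 1 0) (Rep.or (rep_Rel U (j + 2) 1 0) (rep_Rel U (j + 2) 0 1))))))))
  exact Rep.congr h (fun v => ⟨fun e => ⟨e.irrefl, e.trans, e.total⟩, fun e => ⟨e.1, e.2.1, e.2.2⟩⟩)
    (fun v => rfl)

theorem rep_Seg (i j k l : ℕ) :
    Rep U (fun v => ∀ a, qE U a (v l) ↔ qE U a (v i) ∧ Pool.Agent.TFN.Rel (qE U) (v j) a (v k))
      (fun v => bSeg (v i) (v j) (v k) (v l)) := by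
  have h := Rep.all (Rep.iff (Rep.mem U 0 (l + 1)) (Rep.and (Rep.mem U 0 (i + 1)) (rep_Rel U (j + 1) 0 (k + 1))))
  exact h

theorem rep_Le (n i : ℕ) : Rep U (fun v => IsLe (qE U) n (v i)) (fun v => bLe n (v i)) := by
  induction n generalizing i with
  | zero => exact rep_Ctbl U i
  | succ n ih =>
    have h := Rep.ex (Rep.and (rep_Strict U (i + 1) 0) (Rep.all (Rep.all (Rep.imp (Rep.mem U 1 (i + 3))
      (Rep.imp (rep_Seg U (i + 3) 2 1 0) (ih 0))))))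
    exact h

theorem rep_SepFrom (i j k l : ℕ) :
    Rep U (fun v => SepFrom (qE U) (v i) (v j) (v k) (v l)) (fun v => bSepFrom (v i) (v j) (v k) (v l)) := by
  have h := Rep.all (Rep.imp (Rep.mem U 0 (k + 1)) (Rep.and (Rep.mem U 0 (j + 1)) (Rep.ex (Rep.and
    (Rep.mem U 0 (j + 2)) (Rep.and (rep_Slt U (i + 2) 0 1) (Rep.all (Rep.imp (Rep.mem U 0 (l + 3))
      (Rep.imp (rep_Slt U (i + 3) 1 0) (Rep.not (Rep.or (rep_Slt U (i + 3) 0 2) (Rep.eq U 0 2)))))))))))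
  exact h

theorem rep_SepA (i j k l : ℕ) :
    Rep U (fun v => ∀ t, qE U t (v k) → ∃ s, qE U s (v j) ∧ Slt (qE U) (v i) s t ∧ ∃ n, qE U n (v i) ∧
      ∀ m, qE U m t → qE U m s ∨ qE U m n ∨ qE U m (v l)) (fun v => bSepA (v i) (v j) (v k) (v l)) := by
  have h := Rep.all (Rep.imp (Rep.mem U 0 (k + 1)) (Rep.ex (Rep.and (Rep.mem U 0 (j + 2))
    (Rep.and (rep_Slt U (i + 2) 0 1) (Rep.ex (Rep.and (Rep.mem U 0 (i + 3)) (Rep.all (Rep.imp (Rep.mem U 0 3)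
      (Rep.or (Rep.mem U 0 2) (Rep.or (Rep.mem U 0 1) (Rep.mem U 0 (l + 4))))))))))))
  exact h

theorem rep_SepB (i j k l : ℕ) :
    Rep U (fun v => ∀ t, qE U t (v k) → ∃ s, qE U s (v j) ∧ Slt (qE U) (v i) s t ∧ ∃ n, qE U n (v i) ∧
      ∀ m, qE U m t → qE U m s ∨ qE U m n ∨ ¬ qE U m (v l)) (fun v => bSepB (v i) (v j) (v k) (v l)) := by
  have h := Rep.all (Rep.imp (Rep.mem U 0 (k + 1)) (Rep.ex (Rep.and (Rep.mem U 0 (j + 2))
    (Rep.and (rep_Slt U (i + 2) 0 1) (Rep.ex (Rep.and (Rep.mem U 0 (i + 3)) (Rep.all (Rep.imp (Rep.mem U 0 3)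
      (Rep.or (Rep.mem U 0 2) (Rep.or (Rep.mem U 0 1) (Rep.not (Rep.mem U 0 (l + 4)))))))))))))
  exact h

end Pool.Agent.TFN
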