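import Pool.Agent.TFN.ED
import Pool.Agent.TFN.EE
import Pool.Agent.TFN.ER2
import Pool.Agent.BVU.Ax1

/-!
# TFN module EF: sets with at most `ℵ_n` elements are covered by sets with at most `ℵ_n` elements

Induction on `n` for all `S`, `c`.  `n = 0`: `cover_zero` (`bLe 0 S = bCtbl S` by `rfl`; a countable set has cardinality `≤ aleph 0`).
Step: `c ≤ bLe (n + 1) S`; by the maximum principle (extensionality of the function of `R`: use `Rep.extB` of a representation, or the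
closure lemmas; an ultrafilter exists by `exists_uf` if `B` is nontrivial, and if `B` is trivial everything is `⊥`; the closure
lemmas avoid this case distinction) there is `R` with `c ≤ bStrict S R ⊓ ⨅ b, ⨅ s, (bmem b S ⇨ (bSeg S R b s ⇨ bLe n s))`.  For `β : Ω` let `s_β` be given
by `sep_bv` (BVU/Ax1) with `bmem a s_β = bmem a S ⊓ bRel R a T_β`; then `bSeg S R T_β s_β = ⊤`, `c_β := c ⊓ bmem T_β S ≤ bLe n s_β` and
`c_β ≤ bSub s_β (towN A)`.  The induction hypothesis gives `Z β` with `#(Z β) ≤ aleph n` and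
`c ⊓ bmem T_β S ⊓ bmem T_α S ⊓ bRel R T_α T_β = ⊥` for `α ∉ Z β`.  Let `X := {α | c ⊓ bmem T_α S ≠ ⊥}`.  If `#X ≤ aleph (n + 1)` take `Z := X`.
Otherwise `exists_free` gives an uncountable free `F ⊆ X`.  For `α ≠ β` in `F`: by totality (`bStrict`)
`c ⊓ bmem T_α S ⊓ bmem T_β S ≤ beq T_α T_β ⊔ (bRel R T_α T_β ⊔ bRel R T_β T_α)`, the first is `⊥` (`beq_tow_ne`) and the meets with the others are
`⊥` because `α ∉ Z β` and `β ∉ Z α`.  So the elements `c ⊓ bmem T_α S`, `α ∈ F`, are pairwise disjoint and not `⊥`, and `F` is countable by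
`ctbl_of_ccc`, contradiction.
-/

set_option autoImplicit false

namespace Pool.Agent.TFN

open Pool.Agent.BVU Pool.Agent.BVU.BSet

variable {B : Type} [CompleteBooleanAlgebra B]
variable {Ω : Type} [LinearOrder Ω] [OrderBot Ω] (A : TowAlg Ω B)

private theorem EF_ext_strict (R : BSet B) : ExtB (fun x : BSet B => bStrict x R) := by
  unfold bStrict
  refine ExtB.inf ?_ (ExtB.inf ?_ ?_)
  · exact ExtB.iInf fun a => ExtB.himp (ExtB.mem_right a) (ExtB.const _)
  · exact ExtB.iInf fun a => ExtB.iInf fun b => ExtB.iInf fun c => ExtB.himp (ExtB.mem_right a)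
      (ExtB.himp (ExtB.mem_right b) (ExtB.himp (ExtB.mem_right c) (ExtB.const _)))
  · exact ExtB.iInf fun a => ExtB.iInf fun b => ExtB.himp (ExtB.mem_right a)
      (ExtB.himp (ExtB.mem_right b) (ExtB.const _))

private theorem EF_ext_seg (R b s : BSet B) : ExtB (fun x : BSet B => bSeg x R b s) := by
  unfold bSeg
  exact ExtB.iInf fun a => ExtB.inf (ExtB.himp (ExtB.const _) (ExtB.inf (ExtB.mem_right a) (ExtB.const _)))
    (ExtB.himp (ExtB.inf (ExtB.mem_right a) (ExtB.const _)) (ExtB.const _))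

private theorem EF_ext_rel1 (a b : BSet B) : ExtB (fun R : BSet B => bRel R a b) := by
  unfold bRel
  exact ExtB.iSup fun p => ExtB.inf (ExtB.mem_right p) (ExtB.const _)

private theorem EF_ext_rel2 (R b : BSet B) : ExtB (fun a : BSet B => bRel R a b) := by
  unfold bRel
  exact ExtB.iSup fun p => ExtB.inf (ExtB.const _) (ext_bPair1 b p)

private theorem EF_ext_strict' (S : BSet B) : ExtB (fun R : BSet B => bStrict S R) := by
  unfold bStrict
  refine ExtB.inf ?_ (ExtB.inf ?_ ?_)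
  · exact ExtB.iInf fun a => ExtB.himp (ExtB.const _) (ExtB.compl (EF_ext_rel1 a a))
  · exact ExtB.iInf fun a => ExtB.iInf fun b => ExtB.iInf fun c => ExtB.himp (ExtB.const _)
      (ExtB.himp (ExtB.const _) (ExtB.himp (ExtB.const _) (ExtB.himp (EF_ext_rel1 a b)
        (ExtB.himp (EF_ext_rel1 b c) (EF_ext_rel1 a c)))))
  · exact ExtB.iInf fun a => ExtB.iInf fun b => ExtB.himp (ExtB.const _)
      (ExtB.himp (ExtB.const _) (ExtB.sup (ExtB.const _) (ExtB.sup (EF_ext_rel1 a b) (EF_ext_rel1 b a))))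

private theorem EF_ext_seg' (S b s : BSet B) : ExtB (fun R : BSet B => bSeg S R b s) := by
  unfold bSeg
  exact ExtB.iInf fun a => ExtB.inf (ExtB.himp (ExtB.const _) (ExtB.inf (ExtB.const _) (EF_ext_rel1 a b)))
    (ExtB.himp (ExtB.inf (ExtB.const _) (EF_ext_rel1 a b)) (ExtB.const _))

theorem ext_bLe (n : ℕ) : ExtB (fun x : BSet B => bLe n x) := by
  cases n with
  | zero =>
    change ExtB (fun x : BSet B => ⨆ om, ⨆ f, bOmega om ⊓ (bSv om f ⊓ bOnto om f x))
    refine ExtB.iSup fun om => ExtB.iSup fun f => ExtB.inf (ExtB.const _) (ExtB.inf (ExtB.const _) ?_)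
    unfold bOnto
    exact ExtB.iInf fun y => ExtB.himp (ExtB.mem_right y) (ExtB.const _)
  | succ n =>
    change ExtB (fun x : BSet B => ⨆ R, bStrict x R ⊓ ⨅ b, ⨅ s, (bmem b x ⇨ (bSeg x R b s ⇨ bLe n s)))
    exact ExtB.iSup fun R => ExtB.inf (EF_ext_strict R) (ExtB.iInf fun b => ExtB.iInf fun s =>
      ExtB.himp (ExtB.mem_right b) (ExtB.himp (EF_ext_seg R b s) (ExtB.const _)))

private theorem EF_max (n : ℕ) (S : BSet B) : ∃ R : BSet B, bLe (n + 1) S ≤
    bStrict S R ⊓ ⨅ b, ⨅ s, (bmem b S ⇨ (bSeg S R b s ⇨ bLe n s)) := by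
  have hE : ExtB (fun R : BSet B => bStrict S R ⊓ ⨅ b, ⨅ s, (bmem b S ⇨ (bSeg S R b s ⇨ bLe n s))) :=
    ExtB.inf (EF_ext_strict' S) (ExtB.iInf fun b => ExtB.iInf fun s =>
      ExtB.himp (ExtB.const _) (ExtB.himp (EF_ext_seg' S b s) (ExtB.const _)))
  obtain ⟨R, hR⟩ := max_principle hE
  exact ⟨R, hR.ge⟩

theorem cover (n : ℕ) (S : BSet B) (c : B) (hc : c ≤ bSub S (towN A)) (hc' : c ≤ bLe n S) :
    ∃ Z : Set Ω, Cardinal.mk Z ≤ Cardinal.aleph n ∧ ∀ α, α ∉ Z → c ⊓ bmem (subN (A.T α)) S = ⊥ := by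
  induction n generalizing S c with
  | zero =>
    obtain ⟨Z, hZ, h⟩ := cover_zero A S c hc hc'
    refine ⟨Z, ?_, h⟩
    have h1 : Cardinal.mk Z ≤ Cardinal.aleph0 := Cardinal.mk_le_aleph0_iff.2 hZ.to_subtype
    rw [Nat.cast_zero, Cardinal.aleph_zero]
    exact h1
  | succ n ih =>
    obtain ⟨R, hR⟩ := EF_max n S
    have hcR := hc'.trans hR
    have h1 : c ≤ bStrict S R := hcR.trans inf_le_left
    have h2 : c ≤ ⨅ b, ⨅ s, (bmem b S ⇨ (bSeg S R b s ⇨ bLe n s)) := hcR.trans inf_le_right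
    have hs : ∀ β : Ω, ∃ s : BSet B, ∀ w, bmem w s = bmem w S ⊓ bRel R w (subN (A.T β)) := fun β =>
      sep_bv (EF_ext_rel2 R _) S
    choose s hs using hs
    have hZ : ∀ β : Ω, ∃ Z : Set Ω, Cardinal.mk Z ≤ Cardinal.aleph n ∧ ∀ α, α ∉ Z →
        (c ⊓ bmem (subN (A.T β)) S) ⊓ bmem (subN (A.T α)) (s β) = ⊥ := by
      intro β
      refine ih (s β) (c ⊓ bmem (subN (A.T β)) S) ?_ ?_
      · refine (inf_le_left.trans hc).trans ?_
        unfold bSub
        refine iInf_mono fun z => ?_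
        rw [hs]
        exact himp_le_himp_right inf_le_left
      · have h3 : c ≤ (bmem (subN (A.T β)) S ⇨ (bSeg S R (subN (A.T β)) (s β) ⇨ bLe n (s β))) :=
          h2.trans (iInf_le_of_le _ (iInf_le _ _))
        rw [le_himp_iff] at h3
        have h4 : bSeg S R (subN (A.T β)) (s β) = ⊤ := by
          unfold bSeg
          rw [eq_top_iff]
          refine le_iInf fun a => ?_
          rw [hs, himp_self, inf_top_eq]
        rwa [h4, top_himp] at h3
    choose Z hZ1 hZ2 using hZ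
    obtain ⟨X, hX⟩ : ∃ X : Set Ω, X = {α | c ⊓ bmem (subN (A.T α)) S ≠ ⊥} := ⟨_, rfl⟩
    have hXm : ∀ α, α ∈ X ↔ c ⊓ bmem (subN (A.T α)) S ≠ ⊥ := by
      intro α
      rw [hX]
      exact Iff.rfl
    by_cases hle : Cardinal.mk X ≤ Cardinal.aleph ((n + 1 : ℕ) : Ordinal)
    · refine ⟨X, hle, fun α hα => ?_⟩
      rw [hXm, not_not] at hα
      exact hα
    exfalso
    have hlt : Cardinal.aleph ((n : Ordinal) + 1) < Cardinal.mk X := by
      rw [not_le] at hle
      rwa [Nat.cast_succ] at hle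
    obtain ⟨F, hFX, hF1, hF2⟩ := exists_free n X hlt Z hZ1
    apply hF1
    refine ctbl_of_ccc F (fun α => c ⊓ bmem (subN (A.T α)) S) (fun i hi => (hXm i).1 (hFX hi)) ?_ A
    intro i hi j hj hij
    obtain ⟨x, hx⟩ : ∃ x : BSet B, x = subN (A.T i) := ⟨_, rfl⟩
    obtain ⟨y, hy⟩ : ∃ y : BSet B, y = subN (A.T j) := ⟨_, rfl⟩
    have e1 : (c ⊓ bmem y S) ⊓ (bmem x S ⊓ bRel R x y) = ⊥ := by
      have := hZ2 j i (hF2 i hi j hj hij)
      rwa [hs, ← hx, ← hy] at this
    have e2 : (c ⊓ bmem x S) ⊓ (bmem y S ⊓ bRel R y x) = ⊥ := by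
      have := hZ2 i j (hF2 j hj i hi (Ne.symm hij))
      rwa [hs, ← hx, ← hy] at this
    have e3 : beq x y = ⊥ := by
      rw [hx, hy]
      exact beq_tow_ne A hij
    have h5 : c ≤ (bmem x S ⇨ (bmem y S ⇨ (beq x y ⊔ (bRel R x y ⊔ bRel R y x)))) := by
      refine h1.trans ?_
      unfold bStrict
      exact (inf_le_right.trans inf_le_right).trans (iInf_le_of_le x (iInf_le _ y))
    rw [le_himp_iff, le_himp_iff, e3, bot_sup_eq] at h5
    change (c ⊓ bmem (subN (A.T i)) S) ⊓ (c ⊓ bmem (subN (A.T j)) S) = ⊥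
    rw [← hx, ← hy, eq_bot_iff]
    calc (c ⊓ bmem x S) ⊓ (c ⊓ bmem y S)
        ≤ (c ⊓ bmem x S ⊓ bmem y S) ⊓ (bRel R x y ⊔ bRel R y x) := by
          refine le_inf ?_ (le_trans ?_ h5)
          · exact le_inf inf_le_left (inf_le_right.trans inf_le_right)
          · exact le_inf inf_le_left (inf_le_right.trans inf_le_right)
      _ = ⊥ := by
          rw [inf_sup_left, sup_eq_bot_iff]
          constructor
          · rw [← e1]
            ac_rfl
          · rw [← e2]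
            ac_rfl

end Pool.Agent.TFN
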