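import Pool.Agent.TFN.EF

/-!
# TFN module EG: the clause `bdd` of `IsTower`

Let `c := bSub S (towN A) ⊓ bLe n S`; `cover` gives `Z` with `#Z ≤ aleph n`, and `Om.bdd` gives `b : Ω` with `α < b` for all `α ∈ Z`.  Take
`t := T_b` in the supremum: `mem_tow`; for every `s`: `c ⊓ bmem s S ≤ bmem s (towN A) = ⨆ α, beq s T_α` (`bSub`, `bmem_tow`), and
`c ⊓ bmem s S ⊓ beq s T_α ≤ (c ⊓ bmem T_α S) ⊓ beq s T_α`, which is `⊥` for `α ∉ Z`; for `α ∈ Z` we have `bSlt omN T_α T_b = ⊤` (`bSlt_lt`), so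
`beq s T_α ≤ bSlt omN s T_b` (`ext_bSlt2`, `beq_comm`).
-/

set_option autoImplicit false

namespace Pool.Agent.TFN

open Pool.Agent.BVU Pool.Agent.BVU.BSet

variable {B : Type} [CompleteBooleanAlgebra B]
variable {Ω : Type} [LinearOrder Ω] [OrderBot Ω] (A : TowAlg Ω B)

theorem tow_bdd (n : ℕ) (hb : ∀ Z : Set Ω, Cardinal.mk Z ≤ Cardinal.aleph n → ∃ b, ∀ a ∈ Z, a < b) (S : BSet B) :
    bSub S (towN A) ⊓ bLe n S ≤ ⨆ t, (bmem t (towN A) ⊓ ⨅ s, (bmem s S ⇨ bSlt omN s t)) := by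
  obtain ⟨c, hc⟩ : ∃ c : B, c = bSub S (towN A) ⊓ bLe n S := ⟨_, rfl⟩
  rw [← hc]
  have hc1 : c ≤ bSub S (towN A) := hc.le.trans inf_le_left
  have hc2 : c ≤ bLe n S := hc.le.trans inf_le_right
  obtain ⟨Z, hZ1, hZ2⟩ := cover A n S c hc1 hc2
  obtain ⟨b, hb⟩ := hb Z hZ1
  refine le_trans ?_ (le_iSup _ (subN (A.T b)))
  rw [mem_tow, top_inf_eq]
  refine le_iInf fun s => ?_
  rw [le_himp_iff]
  have h1 : c ⊓ bmem s S ≤ ⨆ α, beq s (subN (A.T α)) := by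
    rw [← bmem_tow, ← le_himp_iff]
    refine hc1.trans ?_
    unfold bSub
    exact iInf_le _ s
  have h2 : c ⊓ bmem s S ≤ (c ⊓ bmem s S) ⊓ ⨆ α, beq s (subN (A.T α)) := le_inf le_rfl h1
  refine h2.trans ?_
  rw [inf_iSup_eq]
  refine iSup_le fun α => ?_
  by_cases hα : α ∈ Z
  · have h3 : beq (subN (A.T α)) s ⊓ bSlt omN (subN (A.T α)) (subN (A.T b)) ≤ bSlt omN s (subN (A.T b)) :=
      ext_bSlt2 (B := B) omN (subN (A.T b)) (subN (A.T α)) s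
    rw [bSlt_lt A (hb α hα), inf_top_eq, beq_comm] at h3
    exact inf_le_right.trans h3
  · have h3 : bmem s S ⊓ beq s (subN (A.T α)) ≤ bmem (subN (A.T α)) S := by
      rw [inf_comm]
      exact bmem_congr_left _ _ _
    calc c ⊓ bmem s S ⊓ beq s (subN (A.T α)) = c ⊓ (bmem s S ⊓ beq s (subN (A.T α))) := inf_assoc _ _ _
      _ ≤ c ⊓ bmem (subN (A.T α)) S := inf_le_inf_left _ h3
      _ = ⊥ := hZ2 α hα
      _ ≤ _ := bot_le

end Pool.Agent.TFN
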