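import Pool.Agent.TFN.EB

/-!
# TFN module EH: the clause `sep` of `IsTower`

Let `b := bSepFrom omN (towN A) H K ⊓ bSepFrom omN (towN A) K H`, `h α := bmem T_α H`, `k α := bmem T_α K` (`T_α = subN (A.T α)`).
`sep_hyp`: instantiate `t := T_α`: `bSepFrom … ⊓ bmem T_α H ≤ ⨆ s, (bmem s (towN A) ⊓ (bSlt omN s T_α ⊓ ⨅ r, …))`; by `iSup_tow` (the function is
extensional) this is `⨆ β, (bSlt omN T_β T_α ⊓ ⨅ r, …)`; `bSlt omN T_β T_α` is `⊤` for `β < α` and `⊥` for `α ≤ β`; for `β < γ ≤ α` take `r := T_γ`: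
`bSlt omN T_β T_γ = ⊤` and `bSlt omN T_γ T_α ⊔ beq T_γ T_α = ⊤` (cases `γ < α`, `γ = α`), so the infimum over `r` is `≤ (bmem T_γ K)ᶜ`.
Then `A.sep h k b` gives `W`.  `tow_sep`: the name is `subN W`.  `b ≤ bSepA …`: let `t` be given; `b ⊓ bmem t H ≤ bmem t (towN A) = ⨆ α, beq t T_α`, so (by
extensionality in `t`) it is enough to treat `t = T_α`.  There
`b ⊓ h α ≤ ⨆ β < α, ⨆ n, ⨅ m ≥ n, (A.T α m ⇨ (A.T β m ⊔ W m))`; take `s := T_β` (`mem_tow`, `bSlt_lt`), `n := natN n` (`natN_mem_omN`), and by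
`iInf_subN` the infimum over `k` is `⨅ m, (A.T α m ⇨ (bmem (natN m) T_β ⊔ (bmem (natN m) (natN n) ⊔ bmem (natN m) (subN W))))` with
`bmem (natN m) T_β = A.T β m`, `bmem (natN m) (subN W) = W m` (`natN_mem_subN`), and for `m < n` `bmem (natN m) (natN n) = ⊤`.
Same for `bSepB` (`(bmem (natN m) (subN W))ᶜ = (W m)ᶜ`).
-/

set_option autoImplicit false

namespace Pool.Agent.TFN

open Pool.Agent.BVU Pool.Agent.BVU.BSet

variable {B : Type} [CompleteBooleanAlgebra B]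
variable {Ω : Type} [LinearOrder Ω] [OrderBot Ω] (A : TowAlg Ω B)

theorem sep_hyp (H K : BSet B) (α : Ω) :
    bSepFrom omN (towN A) H K ⊓ bmem (subN (A.T α)) H ≤
      ⨆ β, ⨆ (_ : β < α), ⨅ γ, ⨅ (_ : β < γ ∧ γ ≤ α), (bmem (subN (A.T γ)) K)ᶜ := by
  have h1 : bSepFrom omN (towN A) H K ≤ (bmem (subN (A.T α)) H ⇨ (bmem (subN (A.T α)) (towN A) ⊓
      ⨆ s, (bmem s (towN A) ⊓ (bSlt omN s (subN (A.T α)) ⊓
      ⨅ r, (bmem r K ⇨ (bSlt omN s r ⇨ (bSlt omN r (subN (A.T α)) ⊔ beq r (subN (A.T α)))ᶜ)))))) :=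
    iInf_le _ (subN (A.T α))
  have h2 := le_himp_iff.1 h1
  refine h2.trans (inf_le_right.trans ?_)
  have hf : ExtB (fun s : BSet B => bSlt omN s (subN (A.T α)) ⊓
      ⨅ r, (bmem r K ⇨ (bSlt omN s r ⇨ (bSlt omN r (subN (A.T α)) ⊔ beq r (subN (A.T α)))ᶜ))) :=
    (ext_bSlt2 _ _).inf (ExtB.iInf fun r => (ExtB.const _).himp ((ext_bSlt2 _ r).himp (ExtB.const _)))
  rw [iSup_tow A hf]
  refine iSup_le fun β => ?_
  by_cases hβ : β < α
  · refine le_trans inf_le_right (le_iSup₂_of_le β hβ ?_)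
    refine le_iInf₂ fun γ hγ => ?_
    refine (iInf_le _ (subN (A.T γ))).trans ?_
    have h3 : bSlt omN (subN (A.T γ)) (subN (A.T α)) ⊔ beq (subN (A.T γ)) (subN (A.T α)) = ⊤ := by
      rcases lt_or_eq_of_le hγ.2 with h | h
      · rw [bSlt_lt A h, top_sup_eq]
      · rw [h, beq_refl, sup_top_eq]
    rw [h3, compl_top, bSlt_lt A hγ.1, top_himp, himp_bot]
  · rw [bSlt_ge A (not_lt.1 hβ), bot_inf_eq]
    exact bot_le

private theorem eh_red (H : BSet B) (b : B) (hb : b ≤ ⨅ t, (bmem t H ⇨ bmem t (towN A)))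
    {F : BSet B → B} (hF : ExtB F)
    (h : ∀ α, b ⊓ bmem (subN (A.T α)) H ≤ F (subN (A.T α))) : b ≤ ⨅ t, (bmem t H ⇨ F t) := by
  refine le_iInf fun t => le_himp_iff.2 ?_
  have h1 : b ⊓ bmem t H ≤ ⨆ α, beq t (subN (A.T α)) := by
    rw [← bmem_tow]
    exact le_himp_iff.1 (hb.trans (iInf_le _ t))
  have h2 : b ⊓ bmem t H = ⨆ α, (b ⊓ bmem t H) ⊓ beq t (subN (A.T α)) := by
    rw [← inf_iSup_eq]
    exact (inf_eq_left.2 h1).symm
  rw [h2]
  refine iSup_le fun α => ?_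
  have h3 : beq t (subN (A.T α)) ⊓ bmem t H ≤ bmem (subN (A.T α)) H := bmem_congr_left _ _ _
  have h4 : beq (subN (A.T α)) t ⊓ F (subN (A.T α)) ≤ F t := hF _ _
  refine le_trans ?_ h4
  refine le_inf ?_ (le_trans (le_inf ?_ ?_) (h α))
  · rw [beq_comm]
    exact inf_le_right
  · exact inf_le_left.trans inf_le_left
  · exact le_trans (le_inf inf_le_right (inf_le_left.trans inf_le_right)) h3

private theorem eh_extF (om T : BSet B) {G : BSet B → B} :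
    ExtB (fun t : BSet B => ⨆ s, (bmem s T ⊓ (bSlt om s t ⊓
      ⨆ n, (bmem n om ⊓ ⨅ k, (bmem k t ⇨ (bmem k s ⊔ (bmem k n ⊔ G k))))))) :=
  ExtB.iSup fun s => (ExtB.const _).inf ((ext_bSlt3 om s).inf
    (ExtB.iSup fun _ => (ExtB.const _).inf (ExtB.iInf fun k => (ExtB.mem_right k).himp (ExtB.const _))))

private theorem eh_main {G : BSet B → B} (hG : ExtB G) (V : ℕ → B) (hV : ∀ m, G (natN m) = V m) (α : Ω) :
    (⨆ β, ⨆ (_ : β < α), ⨆ n, ⨅ m, ⨅ (_ : n ≤ m), (A.T α m ⇨ (A.T β m ⊔ V m))) ≤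
      ⨆ s, (bmem s (towN A) ⊓ (bSlt omN s (subN (A.T α)) ⊓
      ⨆ n, (bmem n omN ⊓ ⨅ k, (bmem k (subN (A.T α)) ⇨ (bmem k s ⊔ (bmem k n ⊔ G k)))))) := by
  refine iSup₂_le fun β hβ => iSup_le fun n => ?_
  refine le_iSup_of_le (subN (A.T β)) ?_
  rw [mem_tow, top_inf_eq, bSlt_lt A hβ, top_inf_eq]
  refine le_iSup_of_le (natN n) ?_
  have hf : ExtB (fun k : BSet B => bmem k (subN (A.T β)) ⊔ (bmem k (natN n) ⊔ G k)) :=
    (ExtB.mem_left _).sup ((ExtB.mem_left _).sup hG)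
  rw [natN_mem_omN, top_inf_eq, iInf_subN hf]
  refine le_iInf fun m => ?_
  by_cases hm : n ≤ m
  · refine (iInf₂_le m hm).trans ?_
    refine himp_le_himp_left ?_
    rw [natN_mem_subN, hV]
    exact sup_le_sup_left le_sup_right _
  · rw [natN_mem_of_lt (not_le.1 hm), top_sup_eq, sup_top_eq, himp_top]
    exact le_top

theorem sepA_of (H : BSet B) (W : ℕ → B) (b : B) (hb : b ≤ ⨅ t, (bmem t H ⇨ bmem t (towN A)))
    (h : ∀ α, b ⊓ bmem (subN (A.T α)) H ≤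
      ⨆ β, ⨆ (_ : β < α), ⨆ n, ⨅ m, ⨅ (_ : n ≤ m), (A.T α m ⇨ (A.T β m ⊔ W m))) :
    b ≤ bSepA omN (towN A) H (subN W) := by
  unfold bSepA
  refine eh_red A H b hb (eh_extF omN (towN A) (G := fun k => bmem k (subN W))) (fun α => (h α).trans ?_)
  exact eh_main A (ExtB.mem_left _) W (fun m => natN_mem_subN m W) α

theorem sepB_of (K : BSet B) (W : ℕ → B) (b : B) (hb : b ≤ ⨅ t, (bmem t K ⇨ bmem t (towN A)))
    (h : ∀ α, b ⊓ bmem (subN (A.T α)) K ≤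
      ⨆ β, ⨆ (_ : β < α), ⨆ n, ⨅ m, ⨅ (_ : n ≤ m), (A.T α m ⇨ (A.T β m ⊔ (W m)ᶜ))) :
    b ≤ bSepB omN (towN A) K (subN W) := by
  unfold bSepB
  refine eh_red A K b hb (eh_extF omN (towN A) (G := fun k => (bmem k (subN W))ᶜ)) (fun α => (h α).trans ?_)
  exact eh_main A (ExtB.mem_left _).compl (fun m => (W m)ᶜ)
    (fun m => congrArg compl (natN_mem_subN m W)) α

theorem tow_sep (H K : BSet B) :
    bSepFrom omN (towN A) H K ⊓ bSepFrom omN (towN A) K H ≤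
      ⨆ W, (bSepA omN (towN A) H W ⊓ bSepB omN (towN A) K W) := by
  have hsub : ∀ H K : BSet B, bSepFrom omN (towN A) H K ≤ ⨅ t, (bmem t H ⇨ bmem t (towN A)) := by
    intro H K
    refine iInf_mono fun t => himp_le_himp_left inf_le_left
  obtain ⟨W, h1, h2⟩ := A.sep (fun α => bmem (subN (A.T α)) H) (fun α => bmem (subN (A.T α)) K)
    (bSepFrom omN (towN A) H K ⊓ bSepFrom omN (towN A) K H)
    (fun α => (inf_le_inf_right _ inf_le_left).trans (sep_hyp A H K α))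
    (fun α => (inf_le_inf_right _ inf_le_right).trans (sep_hyp A K H α))
  exact le_iSup_of_le (subN W) (le_inf (sepA_of A H W _ (inf_le_left.trans (hsub H K)) h1)
    (sepB_of A K W _ (inf_le_right.trans (hsub K H)) h2))

end Pool.Agent.TFN
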