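import Pool.Agent.TFN.EC
import Pool.Agent.TFN.EG
import Pool.Agent.TFN.EH
import Pool.Agent.TFN.ER2

/-!
# TFN module EI: the quotient contains a tower

`tower_q`: `om := qmk U omN`, `T := qmk U (towN A)`.  For every field take the assignment `v` with `v 0 = omN`, `v 1 = towN A`, and the
remaining values `omN`; represent the statement of the field (with variables `0` for `om` and `1` for `T`) by the calculus
(`Rep.all`, `Rep.imp`, `rep_Slt`, `rep_Le`, …); `Rep.iff_mem` reduces it to `value ∈ U.s`, and the value is `⊤` by `bOmega_omN`, `tow_emp`, `tow_sub`,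
`tow_lin`, `tow_wf`, `tow_top`, `tow_unb`, `tow_bdd`, `tow_sep` (for an inequality `x ≤ y` valid for all `S` the value `⨅ S, (x S ⇨ y S)` is `⊤`;
curried implications `a ⇨ (b ⇨ c) = a ⊓ b ⇨ c`, `himp_himp`).  `hM` (no greatest element): apply `Om.bdd` to `{α}`.
-/

set_option autoImplicit false

namespace Pool.Agent.TFN

open Pool.Agent.BVU Pool.Agent.BVU.BSet

variable {B : Type} [CompleteBooleanAlgebra B]
variable {Ω : Type} [LinearOrder Ω] [OrderBot Ω]

private theorem ei_top {U : UF B} {R : (ℕ → QN U) → Prop} {f : (ℕ → BSet B) → B} (h : Rep U R f)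
    (v : ℕ → BSet B) (hf : f v = ⊤) : R (fun i => qmk U (v i)) :=
  (h.iff_mem v).2 (by rw [hf]; exact U.top)

theorem tower_q (n : ℕ) [Om n Ω] (A : TowAlg Ω B) (U : UF B) :
    IsTower (qE U) n (qmk U omN) (qmk U (towN A)) := by
  have hwf : WellFounded ((· < ·) : Ω → Ω → Prop) := Om.wf n
  have hbd : ∀ Z : Set Ω, Cardinal.mk Z ≤ Cardinal.aleph n → ∃ b, ∀ a ∈ Z, a < b := Om.bdd (n := n)
  have hM : ∀ α : Ω, ∃ β, α < β := by
    intro α
    obtain ⟨b, hb⟩ := hbd {α} (by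
      rw [Cardinal.mk_singleton]
      exact (Cardinal.one_lt_aleph0.le).trans (Cardinal.aleph0_le_aleph n))
    exact ⟨b, hb α rfl⟩
  let v : ℕ → BSet B := cons omN (fun _ => towN A)
  refine ⟨?_, ?_, ?_, ?_, ?_, ?_, ?_, ?_, ?_⟩
  · exact ei_top (rep_Omega U 0) v bOmega_omN
  · exact ei_top (Rep.all (Rep.imp (rep_Emp U 0) (Rep.mem U 0 2))) v (tow_emp A)
  · exact ei_top (Rep.all (Rep.imp (Rep.mem U 0 2) (rep_Sub U 0 1))) v (tow_sub A)
  · exact ei_top (Rep.all (Rep.all (Rep.imp (Rep.mem U 1 3) (Rep.imp (Rep.mem U 0 3)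
      (Rep.or (Rep.eq U 1 0) (Rep.or (rep_Slt U 2 1 0) (rep_Slt U 2 0 1))))))) v (tow_lin A)
  · refine ei_top (Rep.all (Rep.imp (rep_Sub U 0 2) (Rep.imp (Rep.ex (Rep.mem U 0 1))
      (Rep.ex (Rep.and (Rep.mem U 0 1) (Rep.all (Rep.imp (Rep.mem U 0 2)
        (Rep.not (rep_Slt U 3 0 1))))))))) v ?_
    refine top_le_iff.1 (le_iInf fun S => ?_)
    rw [himp_himp, top_le_iff, himp_eq_top_iff]
    exact tow_wf A hwf S
  · exact ei_top (Rep.all (Rep.imp (Rep.mem U 0 2) (Rep.not (rep_AS U 1 1 0)))) v (tow_top A hM)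
  · exact ei_top (Rep.all (Rep.imp (Rep.mem U 0 2) (Rep.ex (Rep.and (Rep.mem U 0 3)
      (rep_Slt U 2 1 0))))) v (tow_unb A hM)
  · refine ei_top (Rep.all (Rep.imp (rep_Sub U 0 2) (Rep.imp (rep_Le U n 0)
      (Rep.ex (Rep.and (Rep.mem U 0 3) (Rep.all (Rep.imp (Rep.mem U 0 2)
        (rep_Slt U 3 0 1)))))))) v ?_
    refine top_le_iff.1 (le_iInf fun S => ?_)
    rw [himp_himp, top_le_iff, himp_eq_top_iff]
    exact tow_bdd A n hbd S
  · refine ei_top (Rep.all (Rep.all (Rep.imp (rep_SepFrom U 2 3 1 0) (Rep.imp (rep_SepFrom U 2 3 0 1)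
      (Rep.ex (Rep.and (rep_SepA U 3 4 2 0) (rep_SepB U 3 4 1 0))))))) v ?_
    refine top_le_iff.1 (le_iInf fun H => le_iInf fun K => ?_)
    rw [himp_himp, top_le_iff, himp_eq_top_iff]
    exact tow_sep A H K

end Pool.Agent.TFN
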