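import Pool.Agent.TFN.Defs2
import Pool.Agent.TFN.ER2
import Pool.Agent.TFN.EB

/-!
# TFN module EJ: names of initial segments, representing `OntoFrom`

`zN A Z` is the name of the set `ω ∪ {T_α : α ∈ Z}`.
`rep_OntoFrom`: `Rep.ex (Rep.and (rep_Sv U (i + 1) 0) (rep_Onto U (i + 1) 0 (j + 1)))` (compare `rep_Ctbl`).
`sub_zN_om`: `bSub omN (zN A Z) = ⊤`: by `iInf_omN` and `vl_le` for the index `Sum.inl n`.
`sub_zN_mono`: by `iInf_bmem`; the indices `Sum.inl n` and `Sum.inr α` of `zN A Z` are also indices of `zN A Z'`.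
`onto_anti`: `bSub y' y ⊓ bOntoFrom x y ≤ bOntoFrom x y'` (Boolean algebra).
-/

set_option autoImplicit false

namespace Pool.Agent.TFN

open Pool.Agent.BVU Pool.Agent.BVU.BSet

variable {B : Type} [CompleteBooleanAlgebra B]

/-- truth value of `OntoFrom x y` -/
def bOntoFrom (x y : BSet B) : B := ⨆ f, bSv x f ⊓ bOnto x f y

theorem rep_OntoFrom (U : UF B) (i j : ℕ) :
    Rep U (fun v => OntoFrom (qE U) (v i) (v j)) (fun v => bOntoFrom (v i) (v j)) := by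
  have h := Rep.ex (Rep.and (rep_Sv U (i + 1) 0) (rep_Onto U (i + 1) 0 (j + 1)))
  exact h

theorem onto_anti (x y y' : BSet B) : bSub y' y ⊓ bOntoFrom x y ≤ bOntoFrom x y' := by
  unfold bOntoFrom
  rw [inf_iSup_eq]
  refine iSup_le fun f => ?_
  refine le_trans ?_ (le_iSup _ f)
  refine le_inf (inf_le_right.trans inf_le_left) ?_
  unfold bOnto
  refine le_iInf fun z => ?_
  rw [le_himp_iff]
  have h1 : bSub y' y ≤ bmem z y' ⇨ bmem z y := by
    unfold bSub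
    exact iInf_le _ z
  have h2 : bSub y' y ⊓ bmem z y' ≤ bmem z y := by
    rw [← le_himp_iff]
    exact h1
  have h3 : (⨅ y_1, (bmem y_1 y ⇨ ⨆ n, ⨆ p, bmem n x ⊓ (bPair n y_1 p ⊓ bmem p f))) ⊓ bmem z y ≤
      ⨆ n, ⨆ p, bmem n x ⊓ (bPair n z p ⊓ bmem p f) := by
    rw [← le_himp_iff]
    exact iInf_le _ z
  refine le_trans (le_inf ?_ ?_) h3
  · exact inf_le_left.trans (inf_le_right.trans inf_le_right)
  · refine le_trans (le_inf ?_ inf_le_right) h2
    exact inf_le_left.trans inf_le_left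

variable {Ω : Type} [LinearOrder Ω] [OrderBot Ω] (A : TowAlg Ω B)

/-- The name of `ω ∪ {T_α : α ∈ Z}`. -/
def zN (Z : Set Ω) : BSet B :=
  BSet.mk (ℕ ⊕ Z) (fun i => Sum.elim natN (fun α => subN (A.T α.1)) i) (fun _ => ⊤)

theorem sub_zN_om (Z : Set Ω) : bSub omN (zN A Z) = ⊤ := by
  unfold bSub
  rw [iInf_omN (ExtB.mem_left _), iInf_eq_top]
  intro n
  exact top_unique (vl_le (zN A Z) (Sum.inl n))

theorem sub_zN_mono {Z Z' : Set Ω} (h : Z ⊆ Z') : bSub (zN A Z) (zN A Z') = ⊤ := by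
  unfold bSub
  rw [iInf_bmem (ExtB.mem_left _), iInf_eq_top]
  rintro (n | ⟨α, hα⟩)
  · have h1 : (⊤ : B) ≤ bmem (natN n) (zN A Z') := vl_le (zN A Z') (Sum.inl n)
    exact himp_eq_top_iff.2 (le_trans le_top h1)
  · have h1 : (⊤ : B) ≤ bmem (subN (A.T α)) (zN A Z') := vl_le (zN A Z') (Sum.inr ⟨α, h hα⟩)
    exact himp_eq_top_iff.2 (le_trans le_top h1)

end Pool.Agent.TFN
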