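import Pool.Agent.TFN.EE
import Pool.Agent.TFN.EJ

/-!
# TFN module EK: images of ground model sets are covered by ground model sets

`cover_gen` (compare `cover_zero` in EE): by the maximum principle (extensionality in `f` by the closure lemmas) there is `f` with
`c ≤ bSv z f ⊓ bOnto z f S`, `z := zN A Z₀`.  Put `g n y := ⨆ p, bPair n y p ⊓ bmem p f` (extensional in `n`, `y`: `ext_bPair1`, `ext_bPair2`).
For `α : Ω`: `c ⊓ bmem T_α S ≤ ⨆ n, bmem n z ⊓ g n T_α = ⨆ i : ℕ ⊕ Z₀, g (z.fn i) T_α` (`iSup_bmem`, values `⊤`).  For fixed `i` and `α ≠ β`: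
`c ⊓ g (z.fn i) T_α ⊓ g (z.fn i) T_β ≤ beq T_α T_β = ⊥`, so `Z_i := {α | c ⊓ g (z.fn i) T_α ≠ ⊥}` is countable (`ctbl_of_ccc`).  `Z := ⋃ i, Z_i`; its
cardinality is at most `#(ℕ ⊕ Z₀) * ℵ₀ = max ℵ₀ #Z₀` (`Cardinal.mk_iUnion_le`, `Cardinal.mul_eq_max`, …).

`bdd_gen`: from `cover_gen` exactly as `tow_bdd` in EG (with `c := bSub S (towN A) ⊓ bOntoFrom (zN A Z₀) S`).

`not_onto`: let `c := bOntoFrom (zN A Z₀) (zN A Z₁)` and let `S := BSet.mk Z₁ (fun α => subN (A.T α.1)) (fun _ => ⊤)`; `bSub S (towN A) = ⊤`,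
`bSub S (zN A Z₁) = ⊤`, so `c ≤ bOntoFrom (zN A Z₀) S` by `onto_anti`.  `cover_gen` gives `Z` with `#Z ≤ max ℵ₀ #Z₀ < #Z₁`; take `α ∈ Z₁ \ Z`:
`bmem T_α S = ⊤`, so `c = c ⊓ bmem T_α S = ⊥`.
-/

set_option autoImplicit false

namespace Pool.Agent.TFN

open Pool.Agent.BVU Pool.Agent.BVU.BSet

variable {B : Type} [CompleteBooleanAlgebra B]
variable {Ω : Type} [LinearOrder Ω] [OrderBot Ω] (A : TowAlg Ω B)

private theorem EK_ext_f (z S : BSet B) : ExtB (fun f : BSet B => bSv z f ⊓ bOnto z f S) := by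
  unfold bSv bOnto
  refine ExtB.inf ?_ ?_
  · refine ExtB.iInf fun n => ExtB.iInf fun y => ExtB.iInf fun y' => ExtB.iInf fun p => ExtB.iInf fun p' => ?_
    exact ExtB.himp (ExtB.const _) (ExtB.himp (ExtB.const _) (ExtB.himp (ExtB.mem_right p)
      (ExtB.himp (ExtB.const _) (ExtB.himp (ExtB.mem_right p') (ExtB.const _)))))
  · refine ExtB.iInf fun y => ExtB.himp (ExtB.const _) (ExtB.iSup fun n => ExtB.iSup fun p => ?_)
    exact ExtB.inf (ExtB.const _) (ExtB.inf (ExtB.const _) (ExtB.mem_right p))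

theorem cover_gen (Z₀ : Set Ω) (S : BSet B) (c : B) (hc' : c ≤ bOntoFrom (zN A Z₀) S) :
    ∃ Z : Set Ω, Cardinal.mk Z ≤ max Cardinal.aleph0 (Cardinal.mk Z₀) ∧
      ∀ α, α ∉ Z → c ⊓ bmem (subN (A.T α)) S = ⊥ := by
  obtain ⟨f, hf⟩ := max_principle (EK_ext_f (zN A Z₀) S)
  have hcf : c ≤ bSv (zN A Z₀) f ⊓ bOnto (zN A Z₀) f S := by
    rw [hf]
    exact hc'
  have h1 : c ≤ bSv (zN A Z₀) f := hcf.trans inf_le_left
  have h2 : c ≤ bOnto (zN A Z₀) f S := hcf.trans inf_le_right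
  let zf : ℕ ⊕ Z₀ → BSet B := fun i => Sum.elim natN (fun α => subN (A.T α.1)) i
  have hzf : ∀ i, bmem (zf i) (zN A Z₀) = ⊤ := fun i => top_unique (vl_le (zN A Z₀) i)
  let g : BSet B → BSet B → B := fun n y => ⨆ p, bPair n y p ⊓ bmem p f
  have hg : ∀ y, ExtB (fun n => g n y) := fun y =>
    ExtB.iSup fun p => ExtB.inf (ext_bPair1 y p) (ExtB.const _)
  have h3 : ∀ y, c ⊓ bmem y S ≤ ⨆ i : ℕ ⊕ Z₀, g (zf i) y := by
    intro y
    have e1 : (⨆ n, ⨆ p, bmem n (zN A Z₀) ⊓ (bPair n y p ⊓ bmem p f)) = ⨆ i : ℕ ⊕ Z₀, g (zf i) y := by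
      have e2 := iSup_bmem (hg y) (zN A Z₀)
      have e3 : (⨆ a : (zN A Z₀).ty, (zN A Z₀).vl a ⊓ g ((zN A Z₀).fn a) y) = ⨆ i : ℕ ⊕ Z₀, g (zf i) y := by
        change (⨆ i : ℕ ⊕ Z₀, (⊤ : B) ⊓ g (zf i) y) = _
        simp only [top_inf_eq]
      rw [← e3, ← e2]
      refine iSup_congr fun n => ?_
      rw [inf_iSup_eq]
    rw [← e1, ← le_himp_iff]
    refine h2.trans ?_
    unfold bOnto
    exact iInf_le _ y
  have h4 : ∀ (i : ℕ ⊕ Z₀) (y y' : BSet B), c ⊓ (g (zf i) y ⊓ g (zf i) y') ≤ beq y y' := by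
    intro m y y'
    change c ⊓ ((⨆ p, bPair (zf m) y p ⊓ bmem p f) ⊓ (⨆ p, bPair (zf m) y' p ⊓ bmem p f)) ≤ beq y y'
    rw [iSup_inf_iSup, inf_iSup_eq]
    refine iSup_le fun q => ?_
    have h5 : c ≤ (bmem (zf m) (zN A Z₀) ⇨ (bPair (zf m) y q.1 ⇨ (bmem q.1 f ⇨ (bPair (zf m) y' q.2 ⇨
        (bmem q.2 f ⇨ beq y y'))))) := by
      refine h1.trans ?_
      unfold bSv
      exact iInf_le_of_le (zf m) (iInf_le_of_le y (iInf_le_of_le y' (iInf_le_of_le q.1 (iInf_le _ q.2))))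
    rw [hzf, top_himp, le_himp_iff, le_himp_iff, le_himp_iff, le_himp_iff] at h5
    refine le_trans (le_of_eq ?_) h5
    ac_rfl
  refine ⟨⋃ i : ℕ ⊕ Z₀, {α | c ⊓ (bmem (subN (A.T α)) S ⊓ g (zf i) (subN (A.T α))) ≠ ⊥}, ?_, ?_⟩
  · have hct : ∀ i : ℕ ⊕ Z₀, ({α | c ⊓ (bmem (subN (A.T α)) S ⊓ g (zf i) (subN (A.T α))) ≠ ⊥} : Set Ω).Countable := by
      intro m
      refine ctbl_of_ccc _ (fun α => c ⊓ (bmem (subN (A.T α)) S ⊓ g (zf m) (subN (A.T α))))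
        (fun i hi => hi) ?_ A
      intro i _ j _ hij
      rw [eq_bot_iff, ← beq_tow_ne A hij]
      refine le_trans (le_inf (inf_le_left.trans inf_le_left) (le_inf ?_ ?_)) (h4 m _ _)
      · exact inf_le_left.trans (inf_le_right.trans inf_le_right)
      · exact inf_le_right.trans (inf_le_right.trans inf_le_right)
    refine (Cardinal.mk_iUnion_le _).trans ?_
    have h5 : Cardinal.mk (ℕ ⊕ Z₀) ≤ max Cardinal.aleph0 (Cardinal.mk Z₀) := by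
      rw [Cardinal.mk_sum, Cardinal.mk_nat, Cardinal.lift_aleph0, Cardinal.lift_id]
      exact (Cardinal.add_le_max _ _).trans (max_le le_rfl (le_max_left _ _))
    have h6 : (⨆ i : ℕ ⊕ Z₀, Cardinal.mk ({α | c ⊓ (bmem (subN (A.T α)) S ⊓ g (zf i) (subN (A.T α))) ≠ ⊥} : Set Ω)) ≤
        Cardinal.aleph0 := ciSup_le' fun i => Cardinal.mk_le_aleph0_iff.2 (hct i).to_subtype
    refine (mul_le_mul' h5 h6).trans ?_
    rw [Cardinal.mul_eq_max (le_max_left _ _) le_rfl]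
    exact max_le le_rfl (le_max_left _ _)
  · intro α hα
    rw [Set.mem_iUnion] at hα
    push Not at hα
    rw [eq_bot_iff]
    have h5 : c ⊓ bmem (subN (A.T α)) S ≤ (c ⊓ bmem (subN (A.T α)) S) ⊓ ⨆ i : ℕ ⊕ Z₀, g (zf i) (subN (A.T α)) :=
      le_inf le_rfl (h3 _)
    refine h5.trans ?_
    rw [inf_iSup_eq]
    refine iSup_le fun m => ?_
    have h6 := hα m
    rw [Set.mem_setOf_eq, not_not] at h6
    rw [inf_assoc, h6]

theorem bdd_gen (Z₀ : Set Ω)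
    (hb : ∀ Z : Set Ω, Cardinal.mk Z ≤ max Cardinal.aleph0 (Cardinal.mk Z₀) → ∃ b, ∀ a ∈ Z, a < b) (S : BSet B) :
    bSub S (towN A) ⊓ bOntoFrom (zN A Z₀) S ≤ ⨆ t, (bmem t (towN A) ⊓ ⨅ s, (bmem s S ⇨ bSlt omN s t)) := by
  obtain ⟨c, hc⟩ : ∃ c : B, c = bSub S (towN A) ⊓ bOntoFrom (zN A Z₀) S := ⟨_, rfl⟩
  rw [← hc]
  have hc1 : c ≤ bSub S (towN A) := hc.le.trans inf_le_left
  have hc2 : c ≤ bOntoFrom (zN A Z₀) S := hc.le.trans inf_le_right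
  obtain ⟨Z, hZ1, hZ2⟩ := cover_gen A Z₀ S c hc2
  obtain ⟨b, hb⟩ := hb Z hZ1
  refine le_trans ?_ (le_iSup _ (subN (A.T b)))
  rw [mem_tow, top_inf_eq]
  refine le_iInf fun s => ?_
  rw [le_himp_iff]
  have h1 : c ⊓ bmem s S ≤ ⨆ α, beq s (subN (A.T α)) := by
    rw [← bmem_tow, ← le_himp_iff]
    refine hc1.trans ?_
    unfold bSub
    exact iInf_le _ s
  have h2 : c ⊓ bmem s S ≤ (c ⊓ bmem s S) ⊓ ⨆ α, beq s (subN (A.T α)) := le_inf le_rfl h1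
  refine h2.trans ?_
  rw [inf_iSup_eq]
  refine iSup_le fun α => ?_
  by_cases hα : α ∈ Z
  · have h3 : beq (subN (A.T α)) s ⊓ bSlt omN (subN (A.T α)) (subN (A.T b)) ≤ bSlt omN s (subN (A.T b)) :=
      ext_bSlt2 (B := B) omN (subN (A.T b)) (subN (A.T α)) s
    rw [bSlt_lt A (hb α hα), inf_top_eq, beq_comm] at h3
    exact inf_le_right.trans h3
  · have h3 : bmem s S ⊓ beq s (subN (A.T α)) ≤ bmem (subN (A.T α)) S := by
      rw [inf_comm]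
      exact bmem_congr_left _ _ _
    calc c ⊓ bmem s S ⊓ beq s (subN (A.T α)) = c ⊓ (bmem s S ⊓ beq s (subN (A.T α))) := inf_assoc _ _ _
      _ ≤ c ⊓ bmem (subN (A.T α)) S := inf_le_inf_left _ h3
      _ = ⊥ := hZ2 α hα
      _ ≤ _ := bot_le

theorem not_onto (Z₀ Z₁ : Set Ω) (h : max Cardinal.aleph0 (Cardinal.mk Z₀) < Cardinal.mk Z₁) :
    bOntoFrom (zN A Z₀) (zN A Z₁) = ⊥ := by
  obtain ⟨S, hS⟩ : ∃ S : BSet B, S = BSet.mk Z₁ (fun α => subN (A.T α.1)) (fun _ => ⊤) := ⟨_, rfl⟩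
  have h1 : bSub S (zN A Z₁) = ⊤ := by
    subst hS
    unfold bSub
    rw [iInf_bmem (ExtB.mem_left _), iInf_eq_top]
    intro α
    have h1 : (⊤ : B) ≤ bmem (subN (A.T α.1)) (zN A Z₁) := vl_le (zN A Z₁) (Sum.inr α)
    exact himp_eq_top_iff.2 (le_trans le_top h1)
  have h2 : bOntoFrom (zN A Z₀) (zN A Z₁) ≤ bOntoFrom (zN A Z₀) S := by
    have h3 := onto_anti (zN A Z₀) (zN A Z₁) S
    rwa [h1, top_inf_eq] at h3
  obtain ⟨Z, hZ1, hZ2⟩ := cover_gen A Z₀ S _ h2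
  obtain ⟨α, hα, hαZ⟩ : ∃ α ∈ Z₁, α ∉ Z := by
    by_contra hcon
    push Not at hcon
    exact absurd ((Cardinal.mk_le_mk_of_subset hcon).trans hZ1) (not_le.2 h)
  have h4 : bmem (subN (A.T α)) S = ⊤ := by
    subst hS
    exact top_unique (vl_le (BSet.mk Z₁ (fun α => subN (A.T α.1)) (fun _ => (⊤ : B))) ⟨α, hα⟩)
  have h5 := hZ2 α hαZ
  rwa [h4, inf_top_eq] at h5

end Pool.Agent.TFN
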