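import Pool.Agent.TFN.EDefs

/-!
# TFN module ER1: representing the basic notions (calculus of BVU/Rep)

Every statement is proved by combining `Rep.mem`, `Rep.eq`, `Rep.all`, `Rep.ex`, `Rep.imp`, `Rep.iff`, … following the definition
(in `TFN/Defs` and `TFN/EDefs`; `bXxx` unfolds by `rfl`/`Iff.rfl` to the truth value produced by the calculus, so
`exact Rep.all (…)` with `show`, or `Rep.congr _ (fun v => Iff.rfl) (fun v => rfl)`).  Under a quantifier the bound variable is
number 0 and the old variable `i` is number `i + 1`; `cons x v (i + 1)` reduces to `v i`.  Example: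
`rep_Sub : Rep.all (Rep.imp (Rep.mem U 0 (i + 1)) (Rep.mem U 0 (j + 1)))`.
-/

set_option autoImplicit false

namespace Pool.Agent.TFN

open Pool.Agent.BVU Pool.Agent.BVU.BSet

variable {B : Type} [CompleteBooleanAlgebra B] (U : UF B)

theorem rep_Sub (i j : ℕ) : Rep U (fun v => Sub (qE U) (v i) (v j)) (fun v => bSub (v i) (v j)) := by
  have h := Rep.all (Rep.imp (Rep.mem U 0 (i + 1)) (Rep.mem U 0 (j + 1)))
  exact h

theorem rep_Emp (i : ℕ) : Rep U (fun v => IsEmp (qE U) (v i)) (fun v => bEmp (v i)) := by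
  have h := Rep.all (Rep.not (Rep.mem U 0 (i + 1)))
  exact h

theorem rep_UPair (i j k : ℕ) :
    Rep U (fun v => IsUPair (qE U) (v i) (v j) (v k)) (fun v => bUPair (v i) (v j) (v k)) := by
  have h := Rep.all (Rep.iff (Rep.mem U 0 (k + 1)) (Rep.or (Rep.eq U 0 (i + 1)) (Rep.eq U 0 (j + 1))))
  exact h

theorem rep_Pair (i j k : ℕ) :
    Rep U (fun v => IsPair (qE U) (v i) (v j) (v k)) (fun v => bPair (v i) (v j) (v k)) := by
  have h := Rep.ex (Rep.ex (Rep.and (rep_UPair U (i + 2) (i + 2) 1) (Rep.and (rep_UPair U (i + 2) (j + 2) 0)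
    (rep_UPair U 1 0 (k + 2)))))
  exact h

theorem rep_Succ (i j : ℕ) : Rep U (fun v => IsSucc (qE U) (v i) (v j)) (fun v => bSucc (v i) (v j)) := by
  have h := Rep.all (Rep.iff (Rep.mem U 0 (j + 1)) (Rep.or (Rep.mem U 0 (i + 1)) (Rep.eq U 0 (i + 1))))
  exact h

theorem rep_Ind (i : ℕ) : Rep U (fun v => IsInd (qE U) (v i)) (fun v => bInd (v i)) := by
  have h := Rep.and (Rep.all (Rep.imp (rep_Emp U 0) (Rep.mem U 0 (i + 1))))
    (Rep.all (Rep.all (Rep.imp (Rep.mem U 1 (i + 2)) (Rep.imp (rep_Succ U 1 0) (Rep.mem U 0 (i + 2))))))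
  exact h

theorem rep_Omega (i : ℕ) : Rep U (fun v => IsOmega (qE U) (v i)) (fun v => bOmega (v i)) := by
  have h := Rep.and (rep_Ind U i) (Rep.all (Rep.imp (rep_Ind U 0) (rep_Sub U (i + 1) 0)))
  exact h

theorem rep_Rel (i j k : ℕ) :
    Rep U (fun v => Pool.Agent.TFN.Rel (qE U) (v i) (v j) (v k)) (fun v => bRel (v i) (v j) (v k)) := by
  have h := Rep.ex (Rep.and (Rep.mem U 0 (i + 1)) (rep_Pair U (j + 1) (k + 1) 0))
  exact h

theorem rep_AS (i j k : ℕ) :
    Rep U (fun v => AS (qE U) (v i) (v j) (v k)) (fun v => bAS (v i) (v j) (v k)) := by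
  have h := Rep.ex (Rep.and (Rep.mem U 0 (i + 1)) (Rep.all (Rep.imp (Rep.mem U 0 (j + 2))
    (Rep.or (Rep.mem U 0 (k + 2)) (Rep.mem U 0 1)))))
  exact h

theorem rep_Slt (i j k : ℕ) :
    Rep U (fun v => Slt (qE U) (v i) (v j) (v k)) (fun v => bSlt (v i) (v j) (v k)) := by
  have h := Rep.and (rep_AS U i j k) (Rep.not (rep_AS U i k j))
  exact h

end Pool.Agent.TFN
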