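import Mathlib

/-!
# TFN part G: the regular open algebra of a preorder (definitions and basic facts)
-/

set_option autoImplicit false

namespace Pool.Agent.TFN

/-- Regular (open) subsets of a preorder: downward closed sets containing every element below which they are dense. -/
@[ext] structure RO (P : Type) [Preorder P] where
  c : Set P
  reg : ∀ p, (∀ q, q ≤ p → ∃ r, r ≤ q ∧ r ∈ c) → p ∈ c
  dn : ∀ p ∈ c, ∀ q, q ≤ p → q ∈ c

namespace RO
variable {P : Type} [Preorder P]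

/-- The regularization of the set of all elements below some element of `D`. -/
def of (D : Set P) : RO P where
  c := {p | ∀ q, q ≤ p → ∃ r, r ≤ q ∧ ∃ s ∈ D, r ≤ s}
  reg := by
    intro p hp q hq
    obtain ⟨r, hr, hr'⟩ := hp q hq
    obtain ⟨s, hs, t, ht, hst⟩ := hr' r le_rfl
    exact ⟨s, hs.trans hr, t, ht, hst⟩
  dn := by
    intro p hp q hq q' hq'
    exact hp q' (hq'.trans hq)

instance : LE (RO P) := ⟨fun a b => a.c ⊆ b.c⟩

theorem le_def {a b : RO P} : a ≤ b ↔ ∀ p ∈ a.c, p ∈ b.c := Iff.rfl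

instance : PartialOrder (RO P) where
  le_refl a := fun _ h => h
  le_trans a b c h h' := fun _ hp => h' (h hp)
  le_antisymm a b h h' := by
    apply RO.ext
    exact Set.Subset.antisymm h h'

instance : InfSet (RO P) := ⟨fun S =>
  { c := {p | ∀ a ∈ S, p ∈ a.c}
    reg := by
      intro p hp a ha
      exact a.reg p (fun q hq => by
        obtain ⟨r, hr, hr'⟩ := hp q hq
        exact ⟨r, hr, hr' a ha⟩)
    dn := by
      intro p hp q hq a ha
      exact a.dn p (hp a ha) q hq }⟩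

instance : Compl (RO P) := ⟨fun a =>
  { c := {p | ∀ q, q ≤ p → q ∉ a.c}
    reg := by
      intro p hp q hq hqa
      obtain ⟨r, hr, hr'⟩ := hp q hq
      exact hr' r le_rfl (a.dn q hqa r hr)
    dn := by
      intro p hp q hq q' hq'
      exact hp q' (hq'.trans hq) }⟩

instance : Min (RO P) := ⟨fun a b =>
  { c := a.c ∩ b.c
    reg := by
      intro p hp
      exact ⟨a.reg p (fun q hq => by
          obtain ⟨r, hr, hr'⟩ := hp q hq
          exact ⟨r, hr, hr'.1⟩),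
        b.reg p (fun q hq => by
          obtain ⟨r, hr, hr'⟩ := hp q hq
          exact ⟨r, hr, hr'.2⟩)⟩
    dn := by
      intro p hp q hq
      exact ⟨a.dn p hp.1 q hq, b.dn p hp.2 q hq⟩ }⟩

instance : SupSet (RO P) := ⟨fun S => of {p | ∃ a ∈ S, p ∈ a.c}⟩

instance : Max (RO P) := ⟨fun a b => of (a.c ∪ b.c)⟩

instance : Top (RO P) := ⟨
  { c := Set.univ
    reg := fun _ _ => trivial
    dn := fun _ _ _ _ => trivial }⟩

instance : Bot (RO P) := ⟨
  { c := ∅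
    reg := by
      intro p hp
      obtain ⟨r, _, hr⟩ := hp p le_rfl
      exact hr
    dn := fun _ h _ _ => h }⟩

theorem mem_inf {a b : RO P} {p : P} : p ∈ (a ⊓ b).c ↔ p ∈ a.c ∧ p ∈ b.c := Iff.rfl

theorem mem_compl {a : RO P} {p : P} : p ∈ (aᶜ).c ↔ ∀ q, q ≤ p → q ∉ a.c := Iff.rfl

theorem mem_top {p : P} : p ∈ (⊤ : RO P).c := trivial

theorem not_mem_bot {p : P} : p ∉ (⊥ : RO P).c := fun h => h

theorem subset_of {D : Set P} {p : P} (h : p ∈ D) : p ∈ (of D).c := fun q hq => ⟨q, le_rfl, p, h, hq⟩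

theorem of_le {D : Set P} {a : RO P} (h : ∀ p ∈ D, p ∈ a.c) : of D ≤ a := by
  intro p hp
  refine a.reg p (fun q hq => ?_)
  obtain ⟨r, hr, s, hs, hrs⟩ := hp q hq
  exact ⟨r, hr, a.dn s (h s hs) r hrs⟩

theorem mem_sup {a b : RO P} {p : P} :
    p ∈ (a ⊔ b).c ↔ ∀ q, q ≤ p → ∃ r, r ≤ q ∧ (r ∈ a.c ∨ r ∈ b.c) := by
  constructor
  · intro h q hq
    obtain ⟨r, hr, s, hs, hrs⟩ := h q hq
    refine ⟨r, hr, ?_⟩
    rcases hs with hs | hs
    · exact Or.inl (a.dn s hs r hrs)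
    · exact Or.inr (b.dn s hs r hrs)
  · intro h q hq
    obtain ⟨r, hr, hr'⟩ := h q hq
    exact ⟨r, hr, r, hr', le_rfl⟩

theorem mem_compl_compl {a : RO P} {p : P} : p ∈ (aᶜᶜ).c ↔ p ∈ a.c := by
  constructor
  · intro h
    refine a.reg p (fun q hq => ?_)
    have h1 := h q hq
    rw [mem_compl] at h1
    push_neg at h1
    obtain ⟨r, hr, hr'⟩ := h1
    exact ⟨r, hr, hr'⟩
  · intro h q hq h'
    exact h' q le_rfl (a.dn p h q hq)

noncomputable instance : CompleteBooleanAlgebra (RO P) where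
  sup := (· ⊔ ·)
  le_sup_left a b := fun p hp => subset_of (Or.inl hp)
  le_sup_right a b := fun p hp => subset_of (Or.inr hp)
  sup_le a b c h h' := of_le (fun p hp => hp.elim (fun x => h x) (fun x => h' x))
  inf := (· ⊓ ·)
  inf_le_left a b := fun p hp => hp.1
  inf_le_right a b := fun p hp => hp.2
  le_inf a b c h h' := fun p hp => ⟨h hp, h' hp⟩
  sSup := sSup
  sInf := sInf
  isLUB_sSup S := by
    constructor
    · intro a ha p hp
      exact subset_of ⟨a, ha, hp⟩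
    · intro b hb
      refine of_le ?_
      rintro p ⟨a, ha, hp⟩
      exact hb ha hp
  isGLB_sInf S := by
    constructor
    · intro a ha p hp
      exact hp a ha
    · intro b hb p hp a ha
      exact hb ha hp
  top := ⊤
  bot := ⊥
  le_top a := fun _ _ => trivial
  bot_le a := fun _ h => h.elim
  le_sup_inf a b c := by
    intro p hp
    obtain ⟨h1, h2⟩ := hp
    rw [mem_sup] at h1 h2
    show p ∈ (a ⊔ (b ⊓ c)).c
    rw [mem_sup]
    intro q hq
    obtain ⟨r, hr, hr'⟩ := h1 q hq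
    rcases hr' with hr' | hr'
    · exact ⟨r, hr, Or.inl hr'⟩
    · obtain ⟨s, hs, hs'⟩ := h2 r (hr.trans hq)
      rcases hs' with hs' | hs'
      · exact ⟨s, hs.trans hr, Or.inl hs'⟩
      · exact ⟨s, hs.trans hr, Or.inr ⟨b.dn r hr' s hs, hs'⟩⟩
  compl := fun a => aᶜ
  sdiff := fun a b => a ⊓ bᶜ
  himp := fun a b => b ⊔ aᶜ
  inf_compl_le_bot a := by
    intro p hp
    exact (hp.2 p le_rfl hp.1).elim
  top_le_sup_compl a := by
    intro p _
    show p ∈ (a ⊔ aᶜ).c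
    rw [mem_sup]
    intro q _
    by_cases h : ∃ r, r ≤ q ∧ r ∈ a.c
    · obtain ⟨r, hr, hr'⟩ := h
      exact ⟨r, hr, Or.inl hr'⟩
    · push_neg at h
      exact ⟨q, le_rfl, Or.inr h⟩

theorem mem_sSup {S : Set (RO P)} {p : P} :
    p ∈ (sSup S).c ↔ ∀ q, q ≤ p → ∃ r, r ≤ q ∧ ∃ a ∈ S, r ∈ a.c := by
  constructor
  · intro h q hq
    obtain ⟨r, hr, s, ⟨a, ha, hs⟩, hrs⟩ := h q hq
    exact ⟨r, hr, a, ha, a.dn s hs r hrs⟩
  · intro h q hq
    obtain ⟨r, hr, a, ha, hr'⟩ := h q hq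
    exact ⟨r, hr, r, ⟨a, ha, hr'⟩, le_rfl⟩

theorem mem_iSup {ι : Sort*} {f : ι → RO P} {p : P} :
    p ∈ (⨆ i, f i).c ↔ ∀ q, q ≤ p → ∃ r, r ≤ q ∧ ∃ i, r ∈ (f i).c := by
  rw [iSup, mem_sSup]
  simp only [Set.exists_range_iff]

theorem mem_iInf {ι : Sort*} {f : ι → RO P} {p : P} :
    p ∈ (⨅ i, f i).c ↔ ∀ i, p ∈ (f i).c := by
  constructor
  · intro h i
    exact h (f i) ⟨i, rfl⟩
  · rintro h _ ⟨i, rfl⟩
    exact h i

theorem mem_himp {a b : RO P} {p : P} :
    p ∈ (a ⇨ b).c ↔ ∀ q, q ≤ p → q ∈ a.c → q ∈ b.c := by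
  constructor
  · intro h q hq hqa
    have h1 : q ∈ (a ⊓ (a ⇨ b)).c := ⟨hqa, (a ⇨ b).dn p h q hq⟩
    exact (inf_himp_le : a ⊓ (a ⇨ b) ≤ b) h1
  · intro h
    show p ∈ (b ⊔ aᶜ).c
    rw [mem_sup]
    intro q hq
    by_cases h' : ∃ r, r ≤ q ∧ r ∈ a.c
    · obtain ⟨r, hr, hr'⟩ := h'
      exact ⟨r, hr, Or.inl (h r (hr.trans hq) hr')⟩
    · push_neg at h'
      exact ⟨q, le_rfl, Or.inr h'⟩

theorem mem_of {D : Set P} {p : P} :
    p ∈ (of D).c ↔ ∀ q, q ≤ p → ∃ r, r ≤ q ∧ ∃ s ∈ D, r ≤ s := Iff.rfl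

theorem eq_bot_iff' {a : RO P} : a = ⊥ ↔ ∀ p, p ∉ a.c := by
  constructor
  · rintro rfl p hp
    exact hp
  · intro h
    exact le_antisymm (fun p hp => (h p hp).elim) bot_le

/-- The element of `RO P` below `p`. -/
def cone (p : P) : RO P := of {p}

theorem mem_cone (p : P) : p ∈ (cone p).c := subset_of rfl

theorem cone_le {p : P} {a : RO P} : cone p ≤ a ↔ p ∈ a.c := by
  constructor
  · intro h
    exact h (mem_cone p)
  · intro h
    refine of_le ?_
    rintro q rfl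
    exact h

instance [Nonempty P] : Nontrivial (RO P) := by
  refine ⟨⊤, ⊥, fun h => ?_⟩
  obtain ⟨p⟩ := ‹Nonempty P›
  have : p ∈ (⊥ : RO P).c := by
    rw [← h]
    trivial
  exact this

end RO
end Pool.Agent.TFN
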