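import Pool.Agent.TFN.GC
import Pool.Agent.TFN.ROdef

/-!
# TFN module GH: the generic tower

`TT α k` = truth value of `k ∈ T_α`.

`mem_TT`: let `α ∈ r.p.F`, `k < r.p.n`.  If `r.p.t α k = true` then `r` belongs to the generating set (`RO.subset_of`).  If
`r ∈ (TT α k).c`, there are (`RO.mem_of`) `r' ≤ r` and `s` in the generating set with `r' ≤ s`; by `agr` of both
`r.p.t α k = r'.p.t α k = s.p.t α k = true`.
`mem_TT_compl`: if `r.p.t α k = false` then no `q ≤ r` is in `TT α k` (by `mem_TT` for `q`); the converse by `mem_TT`.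
`TT0`: no condition has `t ⊥ k = true` (field `bot`), use `RO.eq_bot_iff'`.
`TT1`: let `p` be a condition; take `q ≤ p` with `α, β ∈ q.p.F` and `n := q.p.n`.  Then `q` is in the infimum over `k ≥ n`:
by `RO.mem_himp` let `q₁ ≤ q`, `q₁ ∈ TT α k`; to see `q₁ ∈ TT β k` use `RO.reg`: for `q₂ ≤ q₁` take `q₃ ≤ q₂` with `k < q₃.p.n`
(`exists_n`); `q₃.p.t α k = true` (`dn`, `mem_TT`), so `q₃.p.t β k = true` by `mono` of `q₃ ≤ q`, hence `q₃ ∈ TT β k`.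
`TT2`: given `p` and `n` add `α`, `β`, make the length `≥ n` and apply `exists_ext` with `U = {γ | β ≤ γ}` (`⊥ ∉ U` since
`⊥ ≤ α < β`); the new place `k` satisfies `t β k = true`, `t α k = false`.
-/

set_option autoImplicit false

namespace Pool.Agent.TFN

variable {Ω : Type} [LinearOrder Ω] [OrderBot Ω]

/-- The truth value of `k ∈ T_α`. -/
def TT (α : Ω) (k : ℕ) : RO (PP Ω) := RO.of {r | α ∈ r.1.p.F ∧ k < r.1.p.n ∧ r.1.p.t α k = true}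

theorem mem_TT {α : Ω} {k : ℕ} {r : PP Ω} (h : α ∈ r.1.p.F) (hk : k < r.1.p.n) :
    r ∈ (TT α k).c ↔ r.1.p.t α k = true := by
  constructor
  · intro hr
    obtain ⟨r', hr', s, hs, hrs⟩ := RO.mem_of.1 hr r le_rfl
    obtain ⟨h1, h2, h3⟩ := hs
    have h4 : le r'.1 r.1 := PP.le_def.1 hr'
    have h5 : le r'.1 s.1 := PP.le_def.1 hrs
    rw [← h4.tp.agr α h k hk, h5.tp.agr α h1 k h2, h3]
  · intro ht
    exact RO.subset_of ⟨h, hk, ht⟩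

theorem mem_TT_compl {α : Ω} {k : ℕ} {r : PP Ω} (h : α ∈ r.1.p.F) (hk : k < r.1.p.n) :
    r ∈ ((TT α k)ᶜ).c ↔ r.1.p.t α k = false := by
  constructor
  · intro hr
    have h1 := RO.mem_compl.1 hr r le_rfl
    rw [mem_TT h hk] at h1
    exact Bool.eq_false_iff.2 h1
  · intro hr
    rw [RO.mem_compl]
    intro q hq hqt
    have h4 : le q.1 r.1 := PP.le_def.1 hq
    rw [mem_TT (h4.tp.sub h) (lt_of_lt_of_le hk h4.tp.len), h4.tp.agr α h k hk, hr] at hqt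
    exact Bool.false_ne_true hqt

theorem TT0 (k : ℕ) : TT (⊥ : Ω) k = ⊥ := by
  rw [RO.eq_bot_iff']
  intro p hp
  obtain ⟨r, _, s, hs, _⟩ := RO.mem_of.1 hp p le_rfl
  obtain ⟨_, _, h3⟩ := hs
  rw [s.1.p.bot k] at h3
  exact Bool.false_ne_true h3

private theorem GH_two (p : PP Ω) (α β : Ω) : ∃ q : PP Ω, q ≤ p ∧ α ∈ q.1.p.F ∧ β ∈ q.1.p.F := by
  obtain ⟨q1, h1, _, _, _, _, h6⟩ := exists_add p α
  obtain ⟨q2, g1, _, _, _, g5, g6⟩ := exists_add q1 β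
  exact ⟨q2, g1.trans h1, g5 h6, g6⟩

theorem TT1 (α β : Ω) (h : α < β) : ⊤ ≤ ⨆ n, ⨅ k, ⨅ (_ : n ≤ k), (TT α k ⇨ TT β k) := by
  rw [RO.le_def]
  intro p _
  rw [RO.mem_iSup]
  intro q _
  obtain ⟨r, hr, hα, hβ⟩ := GH_two q α β
  refine ⟨r, hr, r.1.p.n, ?_⟩
  rw [RO.mem_iInf]
  intro k
  rw [RO.mem_iInf]
  intro hk
  rw [RO.mem_himp]
  intro q1 hq1 hq1t
  refine (TT β k).reg q1 (fun q2 hq2 => ?_)
  obtain ⟨q3, hq3, _, _, _, hn⟩ := exists_n q2 (k + 1)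
  have h1 : q3 ∈ (TT α k).c := (TT α k).dn q1 hq1t q3 (hq3.trans hq2)
  have h2 : le q3.1 r.1 := PP.le_def.1 ((hq3.trans hq2).trans hq1)
  have h3 : q3.1.p.t α k = true := (mem_TT (h2.tp.sub hα) hn).1 h1
  have h4 : q3.1.p.t β k = true := h2.tp.mono α hα β hβ h k hk hn h3
  exact ⟨q3, hq3, (mem_TT (h2.tp.sub hβ) hn).2 h4⟩

theorem TT2 (α β : Ω) (h : α < β) (n : ℕ) : ⊤ ≤ ⨆ k, ⨆ (_ : n ≤ k), (TT β k ⊓ (TT α k)ᶜ) := by
  rw [RO.le_def]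
  intro p _
  refine RO.reg _ p (fun q _ => ?_)
  obtain ⟨r, hr, hα, hβ⟩ := GH_two q α β
  obtain ⟨r1, hr1, _, _, hF, hn⟩ := exists_n r n
  obtain ⟨r2, hr2, _, _, hF2, hn2, h6, h7⟩ := exists_ext r1 {γ | β ≤ γ}
    (fun hb => absurd (lt_of_le_of_lt bot_le h : (⊥ : Ω) < β) (not_lt_of_ge hb))
    (fun a ha b hab => le_trans ha hab)
  refine ⟨r2, (hr2.trans hr1).trans hr, ?_⟩
  have hle : TT β r1.1.p.n ⊓ (TT α r1.1.p.n)ᶜ ≤ ⨆ k, ⨆ (_ : n ≤ k), (TT β k ⊓ (TT α k)ᶜ) :=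
    le_iSup₂_of_le r1.1.p.n hn le_rfl
  refine RO.le_def.1 hle r2 ?_
  have hα2 : α ∈ r2.1.p.F := by
    rw [hF2, hF]
    exact hα
  have hβ2 : β ∈ r2.1.p.F := by
    rw [hF2, hF]
    exact hβ
  have hlt : r1.1.p.n < r2.1.p.n := by
    rw [hn2]
    exact Nat.lt_succ_self _
  rw [RO.mem_inf]
  refine ⟨(mem_TT hβ2 hlt).2 (h6 β (le_refl β)), (mem_TT_compl hα2 hlt).2 (h7 α ?_)⟩
  intro hc
  exact absurd h (not_lt_of_ge hc)

end Pool.Agent.TFN
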