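import Pool.Agent.TFN.GD
import Pool.Agent.TFN.GH

/-!
# TFN module GJ: the generic set `W_x`

`WW x k` = truth value of `k ∈ W_x`.
`mem_WW`, `mem_WW_compl`: as for `mem_TT`; for `q ≤ r` with `x ∈ r.S`, `(r.d x).s[k]? = some b` also
`(q.d x).s[k]? = some b` (initial segments, field `pre`).
`key_true`: show membership in the supremum by `RO.mem_iSup`: let `q ≤ r`.  By `exists_code` and `exists_prm` there is
`q' ≤ q` with `x ∈ q'.S`, `e ∈ (q'.d x).F`.  Let `n := |s|` for `s = (q'.d x).s`, and let `m ≥ n`.  `RO.mem_himp`: let `q₁ ≤ q'`,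
`q₁ ∈ TT e.2.1 m`; show `q₁ ∈ TT e.1 m ⊔ WW x m` by `RO.mem_sup`: for `q₂ ≤ q₁` take `q₃ ≤ q₂` with `m < |(q₃.d x).s|`
(`exists_long` with `m + 1`).  Then `m < q₃.p.n` (`Syn.len`), `e.1, e.2.1 ∈ q₃.p.F` (`Syn.act` with `e ∈ (q₃.d x).F`), so
`q₃.p.t e.2.1 m = true` by `mem_TT`.  If `q₃.p.t e.1 m = true` then `q₃ ∈ TT e.1 m`.  Otherwise `Blk q₃.p e m`, and
`(q₃.d x).s[m]? = some b` for some `b`, with `b = e.2.2.1 = true` by `new` of `q₃ ≤ q'`, so `q₃ ∈ WW x m`.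
`key_false`: the same with `b = false` and `mem_WW_compl`.
-/

set_option autoImplicit false

namespace Pool.Agent.TFN

variable {Ω : Type} [LinearOrder Ω] [OrderBot Ω]

/-- The truth value of `k ∈ W_x`. -/
def WW (x : Code Ω) (k : ℕ) : RO (PP Ω) := RO.of {r | x ∈ r.1.S ∧ (r.1.d x).s[k]? = some true}

private theorem GJ_pre {l l' : List Bool} (h : l <+: l') {k : ℕ} {b : Bool} (hb : l[k]? = some b) :
    l'[k]? = some b := by
  obtain ⟨t, rfl⟩ := h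
  obtain ⟨hk, _⟩ := List.getElem?_eq_some_iff.1 hb
  rw [List.getElem?_append_left hk]
  exact hb

theorem mem_WW {x : Code Ω} {k : ℕ} {r : PP Ω} (h : x ∈ r.1.S) (hk : (r.1.d x).s[k]? = some true) :
    r ∈ (WW x k).c :=
  RO.subset_of ⟨h, hk⟩

theorem mem_WW_compl {x : Code Ω} {k : ℕ} {r : PP Ω} (h : x ∈ r.1.S) (hk : (r.1.d x).s[k]? = some false) :
    r ∈ ((WW x k)ᶜ).c := by
  rw [RO.mem_compl]
  intro q hq hqW
  obtain ⟨r', hr', s, ⟨hs1, hs2⟩, hrs⟩ := RO.mem_of.1 hqW q le_rfl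
  have h1 : le r'.1 r.1 := PP.le_def.1 (hr'.trans hq)
  have h2 : le r'.1 s.1 := PP.le_def.1 hrs
  have h3 := GJ_pre (h1.pre x h) hk
  have h4 := GJ_pre (h2.pre x hs1) hs2
  rw [h3] at h4
  exact Bool.false_ne_true (Option.some_injective _ h4)

private theorem GJ_key {x : Code Ω} (hx : Good x) {e : J Ω} (he : e ∈ x.act) (Z : ℕ → RO (PP Ω))
    (hZ : ∀ m (q : PP Ω), x ∈ q.1.S → (q.1.d x).s[m]? = some e.2.2.1 → q ∈ (Z m).c) {r : PP Ω}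
    (hr : r ≤ toPP hx he) : r ∈ (⨆ n, ⨅ m, ⨅ (_ : n ≤ m), (TT e.2.1 m ⇨ (TT e.1 m ⊔ Z m)) : RO (PP Ω)).c := by
  rw [RO.mem_iSup]
  intro q hq
  obtain ⟨q1, hq1, hx1⟩ := exists_code q hx
  obtain ⟨q', hq', hx', he'⟩ := exists_prm q1 hx hx1 he ((hq1.trans hq).trans hr)
  refine ⟨q', hq'.trans hq1, (q'.1.d x).s.length, ?_⟩
  rw [RO.mem_iInf]
  intro m
  rw [RO.mem_iInf]
  intro hm
  rw [RO.mem_himp]
  intro p1 hp1 hp1T
  rw [RO.mem_sup]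
  intro p2 hp2
  have h2' : le p2.1 q'.1 := PP.le_def.1 (hp2.trans hp1)
  obtain ⟨p3, hp3, hx3, hlen⟩ := exists_long p2 (h2'.sub hx') (m + 1)
  refine ⟨p3, hp3, ?_⟩
  have hle : p3 ≤ q' := (hp3.trans hp2).trans hp1
  have h3 : le p3.1 q'.1 := PP.le_def.1 hle
  have hsyn : Syn p3.1 := (mem_PP.1 p3.2).1
  have hmn : m < p3.1.p.n := lt_of_lt_of_le (Nat.lt_of_succ_le hlen) (hsyn.len x hx3)
  have heF : e ∈ (p3.1.d x).F := h3.prm x hx' he'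
  obtain ⟨_, hF1, hF2, _⟩ := hsyn.act x hx3 e heF
  have hT : p3 ∈ (TT e.2.1 m).c := (TT e.2.1 m).dn p1 hp1T p3 (hp3.trans hp2)
  have ht : p3.1.p.t e.2.1 m = true := (mem_TT hF2 hmn).1 hT
  by_cases h1 : p3.1.p.t e.1 m = true
  · exact Or.inl ((mem_TT hF1 hmn).2 h1)
  · right
    apply hZ m p3 hx3
    have hml : m < (p3.1.d x).s.length := Nat.lt_of_succ_le hlen
    have hb : (p3.1.d x).s[m]? = some ((p3.1.d x).s[m]) := List.getElem?_eq_getElem hml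
    rw [hb]
    congr 1
    exact h3.new x hx' e he' m hm _ hb ⟨ht, Bool.eq_false_iff.2 h1⟩

theorem key_true {x : Code Ω} (hx : Good x) {e : J Ω} (he : e ∈ x.act) (ht : e.2.2.1 = true) {r : PP Ω}
    (hr : r ≤ toPP hx he) : r ∈ (⨆ n, ⨅ m, ⨅ (_ : n ≤ m), (TT e.2.1 m ⇨ (TT e.1 m ⊔ WW x m)) : RO (PP Ω)).c :=
  GJ_key hx he (fun m => WW x m) (fun m q h1 h2 => mem_WW h1 (by rw [h2, ht])) hr

theorem key_false {x : Code Ω} (hx : Good x) {e : J Ω} (he : e ∈ x.act) (ht : e.2.2.1 = false) {r : PP Ω}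
    (hr : r ≤ toPP hx he) : r ∈ (⨆ n, ⨅ m, ⨅ (_ : n ≤ m), (TT e.2.1 m ⇨ (TT e.1 m ⊔ (WW x m)ᶜ)) : RO (PP Ω)).c :=
  GJ_key hx he (fun m => (WW x m)ᶜ) (fun m q h1 h2 => mem_WW_compl h1 (by rw [h2, ht])) hr

end Pool.Agent.TFN
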