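import Pool.Agent.TFN.GI
import Pool.Agent.TFN.GJ

/-!
# TFN module GK: the algebra `RO (PP Ω)` carries a `TowAlg`

`PP_sep`: put `v (β, α, true) := b ⊓ h α ⊓ ⨅ γ, ⨅ (_ : β < γ ∧ γ ≤ α), (k γ)ᶜ` and
`v (β, α, false) := b ⊓ k α ⊓ ⨅ γ, ⨅ (_ : β < γ ∧ γ ≤ α), (h γ)ᶜ` if `β < α`, and `⊥` otherwise.  The hypothesis `hv` of
`exists_name`: let `β' < α` and `β < α'` (and `β < α`, `β' < α'`, otherwise one of the values is `⊥`).  If `α ≤ α'` then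
`β' < α ≤ α'`, so `v (β', α', false) ≤ (h α)ᶜ` while `v (β, α, true) ≤ h α`.  If `α' ≤ α` then `β < α' ≤ α`, so
`v (β, α, true) ≤ (k α')ᶜ` while `v (β', α', false) ≤ k α'`.
Let `x` be the code given by `exists_name` and `W := WW x`.  For `β < α` we have
`v (β, α, true) ≤ ⨆ n, ⨅ m, ⨅ (_ : n ≤ m), (TT α m ⇨ (TT β m ⊔ W m))`: if `r` is in the left side, so is every `r' ≤ r`, and
there are `j`, `q ≤ r'` with `q ≤ toPP hx he` for `e = (β, α, true, j)`, so `q` is in the right side by `key_true`; now use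
`RO.reg`.  Finally `b ⊓ h α ≤ ⨆ β, ⨆ (_ : β < α), v (β, α, true)` by the hypothesis and distributivity
(`le_inf le_rfl (hh α)`, `inf_iSup_eq`).  Symmetrically for `k`.

`PP_ccc'`: choose `p_a ∈ a.c` for `a ∈ A`; `a ↦ p_a` is injective on `A` because the elements are disjoint and not `⊥`; if `A`
were uncountable then so would be the image, and `PP_ccc` gives `q ≤ p_a, p_b` with `p_a ≠ p_b`; then `q ∈ (a ⊓ b).c = ∅`.
-/

set_option autoImplicit false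

namespace Pool.Agent.TFN

variable {Ω : Type} [LinearOrder Ω] [OrderBot Ω]

open Classical in
/-- the values of the names -/
private noncomputable def GK_v (h k : Ω → RO (PP Ω)) (b : RO (PP Ω)) : Ω × Ω × Bool → RO (PP Ω) :=
  fun e => if e.1 < e.2.1 then
    (if e.2.2 = true then b ⊓ h e.2.1 ⊓ ⨅ γ, ⨅ (_ : e.1 < γ ∧ γ ≤ e.2.1), (k γ)ᶜ
      else b ⊓ k e.2.1 ⊓ ⨅ γ, ⨅ (_ : e.1 < γ ∧ γ ≤ e.2.1), (h γ)ᶜ)
    else ⊥

private theorem GK_v0 (h k : Ω → RO (PP Ω)) (b : RO (PP Ω)) (β α : Ω) (ty : Bool)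
    (hβ : ¬ β < α) : GK_v h k b (β, α, ty) = ⊥ := if_neg hβ

private theorem GK_vt (h k : Ω → RO (PP Ω)) (b : RO (PP Ω)) (β α : Ω) (hβ : β < α) :
    GK_v h k b (β, α, true) = b ⊓ h α ⊓ ⨅ γ, ⨅ (_ : β < γ ∧ γ ≤ α), (k γ)ᶜ := by
  unfold GK_v
  rw [if_pos hβ, if_pos rfl]

private theorem GK_vf (h k : Ω → RO (PP Ω)) (b : RO (PP Ω)) (β α : Ω) (hβ : β < α) :
    GK_v h k b (β, α, false) = b ⊓ k α ⊓ ⨅ γ, ⨅ (_ : β < γ ∧ γ ≤ α), (h γ)ᶜ := by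
  unfold GK_v
  rw [if_pos hβ, if_neg (by simp)]

private theorem GK_disj (h k : Ω → RO (PP Ω)) (b : RO (PP Ω)) (β α β' α' : Ω)
    (hn : ¬ (α ≤ β' ∨ α' ≤ β)) : GK_v h k b (β, α, true) ⊓ GK_v h k b (β', α', false) = ⊥ := by
  rw [not_or, not_le, not_le] at hn
  obtain ⟨h1, h2⟩ := hn
  by_cases hβ : β < α
  · by_cases hβ' : β' < α'
    · rw [GK_vt h k b β α hβ, GK_vf h k b β' α' hβ']
      rcases le_total α α' with hle | hle
      · refine le_antisymm ?_ bot_le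
        refine (inf_le_inf (a := h α) (c := (h α)ᶜ) ?_ ?_).trans (inf_compl_self _).le
        · exact inf_le_left.trans inf_le_right
        · exact inf_le_right.trans (iInf₂_le α ⟨h1, hle⟩)
      · refine le_antisymm ?_ bot_le
        refine (inf_le_inf (a := (k α')ᶜ) (c := k α') ?_ ?_).trans ?_
        · exact inf_le_right.trans (iInf₂_le α' ⟨h2, hle⟩)
        · exact inf_le_left.trans inf_le_right
        · rw [inf_comm]
          exact (inf_compl_self _).le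
    · rw [GK_v0 h k b β' α' false hβ', inf_bot_eq]
  · rw [GK_v0 h k b β α true hβ, bot_inf_eq]

theorem PP_sep (h k : Ω → RO (PP Ω)) (b : RO (PP Ω))
    (hh : ∀ α, b ⊓ h α ≤ ⨆ β, ⨆ (_ : β < α), ⨅ γ, ⨅ (_ : β < γ ∧ γ ≤ α), (k γ)ᶜ)
    (hk : ∀ α, b ⊓ k α ≤ ⨆ β, ⨆ (_ : β < α), ⨅ γ, ⨅ (_ : β < γ ∧ γ ≤ α), (h γ)ᶜ) :
    ∃ W : ℕ → RO (PP Ω),
      (∀ α, b ⊓ h α ≤ ⨆ β, ⨆ (_ : β < α), ⨆ n, ⨅ m, ⨅ (_ : n ≤ m), (TT α m ⇨ (TT β m ⊔ W m))) ∧
      (∀ α, b ⊓ k α ≤ ⨆ β, ⨆ (_ : β < α), ⨆ n, ⨅ m, ⨅ (_ : n ≤ m), (TT α m ⇨ (TT β m ⊔ (W m)ᶜ))) := by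
  obtain ⟨x, hx, _, hx2⟩ := exists_name (GK_v h k b) (GK_v0 h k b)
    (fun β α β' α' hn => GK_disj h k b β α β' α' hn)
  refine ⟨WW x, ?_, ?_⟩
  · intro α
    have h1 : b ⊓ h α ≤ (b ⊓ h α) ⊓ ⨆ β, ⨆ (_ : β < α), ⨅ γ, ⨅ (_ : β < γ ∧ γ ≤ α), (k γ)ᶜ :=
      le_inf le_rfl (hh α)
    refine h1.trans ?_
    rw [inf_iSup_eq]
    refine iSup_mono fun β => ?_
    rw [inf_iSup_eq]
    refine iSup_mono fun hβ => ?_
    rw [← GK_vt h k b β α hβ]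
    intro r hr
    refine RO.reg _ r (fun q hq => ?_)
    obtain ⟨j, he, q', hq'q, hq'⟩ := hx2 β α true q (RO.dn _ r hr q hq)
    exact ⟨q', hq'q, key_true hx he rfl hq'⟩
  · intro α
    have h1 : b ⊓ k α ≤ (b ⊓ k α) ⊓ ⨆ β, ⨆ (_ : β < α), ⨅ γ, ⨅ (_ : β < γ ∧ γ ≤ α), (h γ)ᶜ :=
      le_inf le_rfl (hk α)
    refine h1.trans ?_
    rw [inf_iSup_eq]
    refine iSup_mono fun β => ?_
    rw [inf_iSup_eq]
    refine iSup_mono fun hβ => ?_
    rw [← GK_vf h k b β α hβ]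
    intro r hr
    refine RO.reg _ r (fun q hq => ?_)
    obtain ⟨j, he, q', hq'q, hq'⟩ := hx2 β α false q (RO.dn _ r hr q hq)
    exact ⟨q', hq'q, key_false hx he rfl hq'⟩

theorem PP_ccc' (A : Set (RO (PP Ω))) (h0 : ∀ a ∈ A, a ≠ ⊥) (hA : ∀ a ∈ A, ∀ b ∈ A, a ≠ b → a ⊓ b = ⊥) :
    A.Countable := by
  by_contra hc
  have hex : ∀ a : A, ∃ p, p ∈ a.1.c := by
    intro a
    by_contra hcon
    push Not at hcon
    exact h0 a.1 a.2 (RO.eq_bot_iff'.2 hcon)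
  choose f hf using hex
  have hdisj : ∀ a b : A, a ≠ b → ∀ q, q ∈ a.1.c → q ∈ b.1.c → False := by
    intro a b hab q hqa hqb
    have h1 := hA a.1 a.2 b.1 b.2 (fun h => hab (Subtype.ext h))
    have h2 : q ∈ (a.1 ⊓ b.1).c := ⟨hqa, hqb⟩
    rw [h1] at h2
    exact RO.not_mem_bot h2
  have hinj : Function.Injective f := by
    intro a b hab
    by_contra hne
    exact hdisj a b hne (f a) (hf a) (hab ▸ hf b)
  have hunc : ¬ (Set.range f).Countable := by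
    intro hcount
    apply hc
    have h1 : Countable (Set.range f) := hcount.to_subtype
    have h2 : Countable A := Function.Injective.countable
      (f := fun a : A => (⟨f a, a, rfl⟩ : Set.range f))
      (fun a b hab => hinj (congrArg Subtype.val hab))
    exact Set.countable_coe_iff.1 h2
  obtain ⟨r, ⟨a, rfl⟩, r', ⟨b, rfl⟩, hne, q, hq, hq'⟩ := PP_ccc (Set.range f) hunc
  refine hdisj a b (fun h => hne (by rw [h])) q ?_ ?_
  · exact RO.dn _ _ (hf a) _ hq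
  · exact RO.dn _ _ (hf b) _ hq'

/-- The forcing algebra. -/
noncomputable def towAlg : TowAlg Ω (RO (PP Ω)) where
  T := TT
  T0 := TT0
  T1 := TT1
  T2 := TT2
  ccc := PP_ccc'
  sep := PP_sep

end Pool.Agent.TFN
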