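import Pool.Agent.TFN.BDefs

/-!
# TFN module GM: an index set with many cardinals below it

Let `o := Ordinal.type (· < · : Λ → Λ → Prop)` (a well-order; for `a : Λ` let `o a := Ordinal.typein _ a < o`), and
`κ := Cardinal.aleph (Ordinal.omega0 + o + 1)` (regular, as a successor), `Ω := κ.ord.ToType`.  For `a : Λ` let
`γ a := {x : Ω | Ordinal.typein (· < ·) x < (Cardinal.aleph (Ordinal.omega0 + o a)).ord}`; its cardinality is
`Cardinal.aleph (Ordinal.omega0 + o a)`, which is strictly increasing in `a`, greater than `ℵ₀` … and less than `κ`.  Bounded subsets: a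
set `Z` with `#Z < κ` is strictly bounded because `κ` is regular (see module GL: the union of the sets `Set.Iic x`, `x ∈ Z`, has
cardinality `< κ`; or cofinality).  `Om n Ω`: `aleph n < κ`.
-/

set_option autoImplicit false

namespace Pool.Agent.TFN

private theorem GM_card {Ω : Type} [LinearOrder Ω] [WellFoundedLT Ω] (c : Cardinal.{0})
    (hc : c.ord < Ordinal.type (LT.lt : Ω → Ω → Prop)) :
    Cardinal.mk {x : Ω | Ordinal.typein (LT.lt : Ω → Ω → Prop) x < c.ord} = c := by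
  have h2 : {x : Ω | Ordinal.typein (LT.lt : Ω → Ω → Prop) x < c.ord} =
      {x | x < Ordinal.enum (LT.lt : Ω → Ω → Prop) ⟨c.ord, hc⟩} := by
    ext x
    change Ordinal.typein (LT.lt : Ω → Ω → Prop) x < c.ord ↔ x < Ordinal.enum (LT.lt : Ω → Ω → Prop) ⟨c.ord, hc⟩
    rw [← Ordinal.typein_lt_typein (LT.lt : Ω → Ω → Prop), Ordinal.typein_enum]
  rw [h2]
  have h3 := Ordinal.card_typein (r := (LT.lt : Ω → Ω → Prop))
    (Ordinal.enum (LT.lt : Ω → Ω → Prop) ⟨c.ord, hc⟩)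
  rw [Ordinal.typein_enum, Cardinal.card_ord] at h3
  exact h3.symm

private theorem GM_bdd (κ : Cardinal.{0}) (h0 : Cardinal.aleph0 ≤ κ) (Z : Set (Order.succ κ).ord.ToType)
    (hZ : Cardinal.mk Z ≤ κ) : ∃ b, ∀ x ∈ Z, x < b := by
  by_contra hcon
  have h1 : (Set.univ : Set (Order.succ κ).ord.ToType) ⊆ ⋃ x ∈ Z, Set.Iic x := by
    intro b _
    by_contra hb
    apply hcon
    refine ⟨b, fun x hx => ?_⟩
    by_contra hxb
    exact hb (Set.mem_biUnion hx (not_lt.1 hxb))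
  have h2 := (Cardinal.mk_le_mk_of_subset h1).trans (Cardinal.mk_biUnion_le (fun x => Set.Iic x) Z)
  have h3 : (⨆ x : Z, Cardinal.mk (Set.Iic x.1)) ≤ κ := by
    refine ciSup_le' fun x => ?_
    have h4 := Cardinal.mk_Iic_lt x.1 (by rw [Cardinal.mk_ord_toType, Ordinal.type_toType])
      (by rw [Cardinal.mk_ord_toType]; exact h0.trans (Order.le_succ κ))
    rw [Cardinal.mk_ord_toType] at h4
    exact Order.lt_succ_iff.1 h4
  have h5 : Cardinal.mk Z * (⨆ x : Z, Cardinal.mk (Set.Iic x.1)) ≤ κ := by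
    calc _ ≤ κ * κ := mul_le_mul' hZ h3
      _ = κ := Cardinal.mul_eq_self h0
  rw [Cardinal.mk_univ, Cardinal.mk_ord_toType] at h2
  exact absurd (h2.trans h5) (not_le.2 (Order.lt_succ κ))

theorem exists_Om2 (Λ : Type) (_ : LinearOrder Λ) (hΛ : WellFounded ((· < ·) : Λ → Λ → Prop)) :
    ∃ (Ω : Type) (_ : LinearOrder Ω) (_ : OrderBot Ω) (γ : Λ → Set Ω), (∀ n : ℕ, Om n Ω) ∧
      (∀ a, ∀ Z : Set Ω, Cardinal.mk Z ≤ max Cardinal.aleph0 (Cardinal.mk (γ a)) → ∃ b, ∀ x ∈ Z, x < b) ∧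
      ∀ a b, a < b → γ a ⊆ γ b ∧ max Cardinal.aleph0 (Cardinal.mk (γ a)) < Cardinal.mk (γ b) := by
  have : WellFoundedLT Λ := ⟨hΛ⟩
  obtain ⟨o, ho⟩ : ∃ o : Ordinal.{0}, o = Ordinal.type ((· < ·) : Λ → Λ → Prop) := ⟨_, rfl⟩
  obtain ⟨κ, hκ⟩ : ∃ κ : Cardinal.{0}, κ = Cardinal.aleph (Ordinal.omega0 + o) := ⟨_, rfl⟩
  have hκ0 : Cardinal.aleph0 ≤ κ := by rw [hκ]; exact Cardinal.aleph0_le_aleph _
  obtain ⟨t, ht⟩ : ∃ t : Λ → Ordinal.{0}, ∀ a, t a = Ordinal.omega0 + Ordinal.typein ((· < ·) : Λ → Λ → Prop) a :=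
    ⟨_, fun _ => rfl⟩
  have ht1 : ∀ a, t a < Ordinal.omega0 + o := by
    intro a
    rw [ht, ho]
    exact (add_lt_add_iff_left _).2 (Ordinal.typein_lt_type _ a)
  have ht2 : ∀ a b, a < b → t a < t b := by
    intro a b hab
    rw [ht, ht]
    exact (add_lt_add_iff_left _).2 ((Ordinal.typein_lt_typein _).2 hab)
  have ht0 : ∀ a, 0 < t a := by
    intro a
    rw [ht]
    exact Ordinal.omega0_pos.trans_le le_self_add
  have hne : Nonempty (Order.succ κ).ord.ToType := by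
    rw [← Cardinal.mk_ne_zero_iff, Cardinal.mk_ord_toType]
    exact (Order.succ_ne_bot κ)
  have hcard : ∀ a, Cardinal.mk {x : (Order.succ κ).ord.ToType |
      Ordinal.typein (LT.lt : (Order.succ κ).ord.ToType → (Order.succ κ).ord.ToType → Prop) x <
        (Cardinal.aleph (t a)).ord} = Cardinal.aleph (t a) := by
    intro a
    refine GM_card _ ?_
    rw [Ordinal.type_toType, Cardinal.ord_lt_ord, hκ]
    exact (Cardinal.aleph_lt_aleph.2 (ht1 a)).trans (Order.lt_succ _)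
  refine ⟨(Order.succ κ).ord.ToType, inferInstance, WellFoundedLT.toOrderBot _,
    fun a => {x | Ordinal.typein (LT.lt : (Order.succ κ).ord.ToType → (Order.succ κ).ord.ToType → Prop) x <
      (Cardinal.aleph (t a)).ord}, ?_, ?_, ?_⟩
  · intro n
    refine ⟨wellFounded_lt, fun A hA => GM_bdd κ hκ0 A (hA.trans ?_)⟩
    rw [hκ, Cardinal.aleph_le_aleph]
    exact (Ordinal.natCast_lt_omega0 n).le.trans le_self_add
  · intro a Z hZ
    refine GM_bdd κ hκ0 Z (hZ.trans (max_le hκ0 ?_))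
    rw [hcard, hκ, Cardinal.aleph_le_aleph]
    exact (ht1 a).le
  · intro a b hab
    refine ⟨fun x hx => ?_, ?_⟩
    · change Ordinal.typein (LT.lt : (Order.succ κ).ord.ToType → (Order.succ κ).ord.ToType → Prop) x <
        (Cardinal.aleph (t b)).ord
      refine lt_trans hx ?_
      rw [Cardinal.ord_lt_ord, Cardinal.aleph_lt_aleph]
      exact ht2 a b hab
    · rw [hcard, hcard]
      refine max_lt ?_ (Cardinal.aleph_lt_aleph.2 (ht2 a b hab))
      rw [← Cardinal.aleph_zero, Cardinal.aleph_lt_aleph]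
      exact ht0 b

end Pool.Agent.TFN
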