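import Pool.Agent.TFN.EI
import Pool.Agent.TFN.EK
import Pool.Agent.TFN.GM
import Pool.Agent.TFN.GK
import Pool.Agent.BVU.Zfd
import Pool.Agent.TFN.A6
import Pool.Agent.TFN.A8
import Pool.Agent.TFN.A9
import Pool.Agent.TFN.A10
import Pool.Agent.TFN.A14
import Pool.Agent.TFN.A15

/-!
# TFN module EZ: assembly
-/

set_option autoImplicit false

namespace Pool.Agent.TFN

open Pool.Agent.BVU Pool.Agent.BVU.BSet

theorem goal2 : Goal2 := by
  intro Λ _ hΛ
  obtain ⟨Ω, i1, i2, γ, hOm, hbd, hγ⟩ := exists_Om2 Λ _ hΛ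
  obtain ⟨U⟩ : Nonempty (UF (RO (PP Ω))) := by
    have : Nonempty (PP Ω) := PP.nonempty
    exact exists_uf
  let A : TowAlg Ω (RO (PP Ω)) := towAlg
  have hTow : ∀ n, IsTower (qE U) n (qmk U omN) (qmk U (towN A)) := fun n => by
    have := hOm n
    exact tower_q n A U
  let L : Λ → QN U := fun a => qmk U (zN A (γ a))
  have hbdd : ∀ S : QN U, Sub (qE U) S (qmk U (towN A)) → (∃ a, OntoFrom (qE U) (L a) S) →
      ∃ t, qE U t (qmk U (towN A)) ∧ ∀ s, qE U s S → Slt (qE U) (qmk U omN) s t := by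
    rintro S hS ⟨a, ha⟩
    obtain ⟨S, rfl⟩ := qmk_surj U S
    have h1 := ((rep_Sub U 0 1).iff_mem (cons S (fun _ => towN A))).1 hS
    have h2 := ((rep_OntoFrom U 0 1).iff_mem (cons (zN A (γ a)) (fun _ => S))).1 ha
    have h3 := U.up _ (U.inf _ h1 _ h2) _ (bdd_gen A (γ a) (hbd a) S)
    have h4 : Rep U (fun v => ∃ t, qE U t (v 0) ∧ ∀ s, qE U s (v 1) → Slt (qE U) (v 2) s t)
        (fun v => ⨆ t, (bmem t (v 0) ⊓ ⨅ s, (bmem s (v 1) ⇨ bSlt (v 2) s t))) :=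
      Rep.ex (Rep.and (Rep.mem U 0 1) (Rep.all (Rep.imp (Rep.mem U 0 3) (rep_Slt U 4 0 1))))
    exact (h4.iff_mem (cons (towN A) (cons S (fun _ => omN)))).2 h3
  have hE : ZFC (qE U) := zfc_q U
  obtain ⟨X, τ, hX, hτ⟩ := space_ex hE (qmk U omN) (qmk U (towN A))
  obtain ⟨C, hC, hx, hCT, hB⟩ := om_cl_of_tower hE (hTow 0) hX hτ
  refine ⟨QN U, qE U, hE, X, τ, isTop_of_tower hE (hTow 0) hX hτ, hausdorff_of_tower hE (hTow 0) hX hτ,
    compact_of_tower hE (hTow 0) hX hτ, separable_of_tower hE (hTow 0) hX hτ, herNormal_of_tower hE (hTow 0) hX hτ,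
    ?_, qmk U omN, L, (hTow 0).omega, ?_, ?_, ?_⟩
  · intro n hn
    obtain ⟨D, hD, hD', hD''⟩ := hn C _ hC hx
    obtain ⟨c, hc, hc'⟩ := (hTow n).bdd D (hCT D hD) hD'
    exact hB D c hD hc hc' hD''
  · intro a
    have := ((rep_Sub U 0 1).iff_mem (cons omN (fun _ => zN A (γ a)))).2 (by
      show bSub omN (zN A (γ a)) ∈ U.s
      rw [sub_zN_om]
      exact U.top)
    exact this
  · intro a b hab
    refine ⟨?_, ?_⟩
    · have := ((rep_Sub U 0 1).iff_mem (cons (zN A (γ a)) (fun _ => zN A (γ b)))).2 (by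
        show bSub (zN A (γ a)) (zN A (γ b)) ∈ U.s
        rw [sub_zN_mono A (hγ a b hab).1]
        exact U.top)
      exact this
    · intro h
      have := ((rep_OntoFrom U 0 1).iff_mem (cons (zN A (γ a)) (fun _ => zN A (γ b)))).1 h
      have h' : bOntoFrom (zN A (γ a)) (zN A (γ b)) ∈ U.s := this
      rw [not_onto A _ _ (hγ a b hab).2] at h'
      exact U.bot h'
  · intro a ha
    obtain ⟨D, hD, hD', hD''⟩ := ha C _ hC hx
    obtain ⟨c, hc, hc'⟩ := hbdd D (hCT D hD) ⟨a, hD'⟩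
    exact hB D c hD hc hc' hD''

end Pool.Agent.TFN
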