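import Pool.Agent.TFN.GDefs

/-!
# TFN module GA: the order on tower parts and on conditions

`TPle.trans` (`r ≤ q ≤ p`): `mono`: for `α < β` in `p.F` and `p.n ≤ k < r.n`: if `k < q.n` then `r.t` agrees with `q.t`
at `(α, k)`, `(β, k)` (`agr` of `r ≤ q`, since `p.F ⊆ q.F`) and `mono` of `q ≤ p` applies; otherwise `mono` of `r ≤ q`.

`addPt`: adds the point `α` with the pattern `false` (nothing happens if `α ∈ p.F`; outside of `p.F` the new function is
`false`).  `ext1`: prolongs the patterns by one bit; the new bit (at place `p.n`) is `true` exactly on the upward closed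
set `U` which does not contain `⊥`.

`le_refl'`: for `new` use that `s[k]? = some b` implies `k < s.length`.
`le_trans'` (`r'' ≤ r' ≤ r`, `r'` satisfies `Syn`): `new`: let `x ∈ r.S`, `e ∈ (r.d x).F`, `k ≥ |s|`, `s''[k]? = some b` and
`Blk r''.p e k`.  If `k < |s'|` then `s'[k]? = some b` (as `s'` is an initial segment of `s''`, `List.IsPrefix.getElem?`-like
lemmas), `k < |s'| ≤ r'.p.n`, and `e.1, e.2.1 ∈ r'.p.F` by `Syn` (since `e ∈ (r'.d x).F`), so `Blk r'.p e k` by `agr`
of `r'' ≤ r'`; apply `new` of `r' ≤ r`.  If `k ≥ |s'|` apply `new` of `r'' ≤ r'` with `e ∈ (r'.d x).F`.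
-/

set_option autoImplicit false

namespace Pool.Agent.TFN

variable {Ω : Type} [LinearOrder Ω] [OrderBot Ω]

theorem TPle.refl (p : TP Ω) : TPle p p := by
  refine ⟨Finset.Subset.refl _, le_rfl, fun _ _ _ _ => rfl, ?_⟩
  intro α _ β _ _ k h1 h2
  omega

theorem TPle.trans {r q p : TP Ω} (h1 : TPle r q) (h2 : TPle q p) : TPle r p := by
  refine ⟨h2.sub.trans h1.sub, h2.len.trans h1.len, ?_, ?_⟩
  · intro α hα k hk
    rw [h1.agr α (h2.sub hα) k (lt_of_lt_of_le hk h2.len), h2.agr α hα k hk]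
  · intro α hα β hβ hαβ k hk1 hk2 hk3
    by_cases hk : k < q.n
    · rw [h1.agr α (h2.sub hα) k hk] at hk3
      rw [h1.agr β (h2.sub hβ) k hk]
      exact h2.mono α hα β hβ hαβ k hk1 hk hk3
    · exact h1.mono α (h2.sub hα) β (h2.sub hβ) hαβ k (not_lt.1 hk) hk2 hk3

open Classical in
/-- Add a point with the pattern `false`. -/
noncomputable def addPt (p : TP Ω) (α : Ω) : TP Ω :=
  ⟨insert α p.F, p.n, fun β k => if β ∈ p.F then p.t β k else false, by intro k; split <;> simp [p.bot]⟩

theorem addPt_le (p : TP Ω) (α : Ω) : TPle (addPt p α) p := by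
  refine ⟨Finset.subset_insert _ _, le_rfl, ?_, ?_⟩
  · intro β hβ k _
    exact if_pos hβ
  · intro β _ γ _ _ k h1 h2
    exact absurd h2 (not_lt.2 h1)

open Classical in
/-- Prolong all patterns by one bit, `true` exactly on `U`. -/
noncomputable def ext1 (p : TP Ω) (U : Set Ω) (hb : ⊥ ∉ U) : TP Ω :=
  ⟨p.F, p.n + 1, fun β k => if k < p.n then p.t β k else decide (β ∈ U), by intro k; split <;> simp [p.bot, hb]⟩

theorem ext1_le (p : TP Ω) (U : Set Ω) (hb : ⊥ ∉ U) (hU : ∀ a ∈ U, ∀ b, a ≤ b → b ∈ U) :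
    TPle (ext1 p U hb) p := by
  refine ⟨Finset.Subset.refl _, Nat.le_succ _, ?_, ?_⟩
  · intro β _ k hk
    exact if_pos hk
  · intro β _ γ _ hβγ k h1 _ h3
    have hk : ¬ k < p.n := not_lt.2 h1
    simp only [ext1, if_neg hk, decide_eq_true_eq] at h3 ⊢
    exact hU β h3 γ hβγ.le

theorem le_refl' (r : Cond Ω) : le r r := by
  refine ⟨TPle.refl _, Finset.Subset.refl _, fun _ _ => List.prefix_rfl, fun _ _ => Finset.Subset.refl _, ?_⟩
  intro x _ e _ k hk b hb _
  rw [List.getElem?_eq_none hk] at hb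
  exact absurd hb (by simp)

theorem le_trans' {r'' r' r : Cond Ω} (hS : Syn r') (h1 : le r'' r') (h2 : le r' r) : le r'' r := by
  refine ⟨h1.tp.trans h2.tp, h2.sub.trans h1.sub, ?_, ?_, ?_⟩
  · intro x hx
    exact (h2.pre x hx).trans (h1.pre x (h2.sub hx))
  · intro x hx
    exact (h2.prm x hx).trans (h1.prm x (h2.sub hx))
  · intro x hx e he k hk b hb hB
    have hx' : x ∈ r'.S := h2.sub hx
    have he' : e ∈ (r'.d x).F := h2.prm x hx he
    by_cases hlt : k < (r'.d x).s.length
    · have hb' : (r'.d x).s[k]? = some b := by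
        obtain ⟨w, hw⟩ := h1.pre x hx'
        rw [← hw, List.getElem?_append_left hlt] at hb
        exact hb
      have hk' : k < r'.p.n := lt_of_lt_of_le hlt (hS.len x hx')
      obtain ⟨_, h3, h4, _⟩ := hS.act x hx' e he'
      have hB' : Blk r'.p e k := by
        refine ⟨?_, ?_⟩
        · rw [← h1.tp.agr _ h4 k hk']
          exact hB.1
        · rw [← h1.tp.agr _ h3 k hk']
          exact hB.2
      exact h2.new x hx e he k hk b hb' hB'
    · exact h1.new x hx' e he' k (not_lt.1 hlt) b hb hB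

end Pool.Agent.TFN
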