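import Pool.Agent.TFN.GA

/-!
# TFN module GB: restriction of conditions, the sets `V ζ`, the preorder `PP Ω`

`restr r ρ` keeps the tower part and the data and only the codes of rank `< ρ`.

`restr_le`: `le r (restr r ρ)`; all fields are immediate, `new` as in `le_refl'`.
`le_restr`: if `le r c` and all codes of `c` have rank `< ρ`, then `le (restr r ρ) c` (only `sub` changes).
`toCond_mem`: from `Good x` (field `mem`) : `toCond x e ∈ V (rk x)`; hence all codes of `toCond x e` have rank `< rk x`.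
`restr_mem`: for `r` with `Syn r` and all codes good, `restr r ρ ∈ V ρ`: in `Syn.act` for a code `x` of rank `< ρ` and
`e ∈ (r.d x).F` use `le_restr` for `c = toCond x e`, whose codes have rank `< rk x < ρ`.
`V_mono`: by `mem_V`.
`inc_PP`: apply `GoodRel.inc` to `restr r (rk x)`, using `le_restr`.
`exists_cond`: every `r` with `Syn r` and good codes is in some `V ζ` (`mem_PP`).
-/

set_option autoImplicit false

namespace Pool.Agent.TFN

variable {Ω : Type} [LinearOrder Ω] [OrderBot Ω]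

theorem restr_le (r : Cond Ω) (ρ : Ordinal.{0}) : le r (restr r ρ) := by
  classical
  have h := le_refl' r
  have hs : ∀ x ∈ (restr r ρ).S, x ∈ r.S := by
    intro x hx
    unfold restr at hx
    exact (Finset.mem_filter.1 hx).1
  exact ⟨h.tp, fun x hx => hs x hx, fun x hx => h.pre x (hs x hx), fun x hx => h.prm x (hs x hx),
    fun x hx => h.new x (hs x hx)⟩

theorem le_restr {r c : Cond Ω} {ρ : Ordinal.{0}} (h : le r c) (hc : ∀ x ∈ c.S, rk x < ρ) : le (restr r ρ) c := by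
  classical
  refine ⟨h.tp, fun x hx => ?_, fun x hx => h.pre x hx, fun x hx => h.prm x hx, fun x hx => h.new x hx⟩
  unfold restr
  exact Finset.mem_filter.2 ⟨h.sub hx, hc x hx⟩

theorem toCond_mem {x : Code Ω} (hx : Good x) {e : J Ω} (he : e ∈ x.act) : toCond x e ∈ V Ω (rk x) := hx.mem e he

theorem restr_mem {r : Cond Ω} (h : Syn r) (hg : ∀ x ∈ r.S, Good x) (ρ : Ordinal.{0}) : restr r ρ ∈ V Ω ρ := by
  classical
  have hs : ∀ x ∈ (restr r ρ).S, x ∈ r.S ∧ rk x < ρ := by
    intro x hx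
    unfold restr at hx
    exact Finset.mem_filter.1 hx
  refine mem_V.2 ⟨⟨fun hn => h.nn (hs _ hn).1, fun x hx => h.len x (hs x hx).1, ?_, ?_⟩,
    fun x hx => ⟨(hs x hx).2, hg x (hs x hx).1⟩⟩
  · intro x hx e he
    obtain ⟨h1, h2, h3, h4⟩ := h.act x (hs x hx).1 e he
    refine ⟨h1, h2, h3, le_restr h4 fun y hy => ?_⟩
    exact ((mem_V.1 (toCond_mem (hg x (hs x hx).1) h1)).2 y hy).1.trans (hs x hx).2
  · intro x hx e he e' he' ht ht' k hk hk'
    exact h.dis x (hs x hx).1 e he e' he' ht ht' k hk hk'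

theorem V_mono {ζ ζ' : Ordinal.{0}} (h : ζ ≤ ζ') : V Ω ζ ⊆ V Ω ζ' := by
  intro r hr
  rw [mem_V] at hr ⊢
  exact ⟨hr.1, fun x hx => ⟨(hr.2 x hx).1.trans_le h, (hr.2 x hx).2⟩⟩

theorem PP.syn (r : PP Ω) : Syn r.1 := (mem_PP.1 r.2).1

theorem PP.good (r : PP Ω) {x : Code Ω} (hx : x ∈ r.1.S) : Good x := (mem_PP.1 r.2).2 x hx

/-- The order on `PP Ω`. -/
instance instPreorderPP : Preorder (PP Ω) where
  le a b := le a.1 b.1
  le_refl a := le_refl' a.1
  le_trans a b c h1 h2 := le_trans' (PP.syn b) h1 h2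

theorem PP.le_def {a b : PP Ω} : a ≤ b ↔ le a.1 b.1 := Iff.rfl

/-- The condition described by a good code as an element of `PP Ω`. -/
noncomputable def toPP {x : Code Ω} (hx : Good x) {e : J Ω} (he : e ∈ x.act) : PP Ω :=
  ⟨toCond x e, rk x, toCond_mem hx he⟩

/-- Promises of different type made by one condition have disjoint intervals. -/
theorem inc_PP (r : PP Ω) {x : Code Ω} (hx : Good x) {e e' : J Ω} (he : e ∈ x.act) (he' : e' ∈ x.act)
    (ht : e.2.2.1 = true) (ht' : e'.2.2.1 = false) (h : r ≤ toPP hx he) (h' : r ≤ toPP hx he') :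
    e.2.1 ≤ e'.1 ∨ e'.2.1 ≤ e.1 := by
  refine hx.inc e he e' he' ht ht' ⟨restr r.1 (rk x), restr_mem (PP.syn r) (fun y hy => PP.good r hy) (rk x),
    le_restr h fun y hy => ?_, le_restr h' fun y hy => ?_⟩
  · exact ((mem_V.1 (toCond_mem hx he)).2 y hy).1
  · exact ((mem_V.1 (toCond_mem hx he')).2 y hy).1

/-- The trivial condition. -/
theorem PP.nonempty : Nonempty (PP Ω) := by
  refine ⟨⟨⟨⟨∅, 0, fun _ _ => false, fun _ => rfl⟩, ∅, fun _ => ⟨[], ∅⟩⟩, mem_PP.2 ⟨⟨?_, ?_, ?_, ?_⟩, ?_⟩⟩⟩ <;>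
    simp

end Pool.Agent.TFN
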