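import Pool.Agent.TFN.GB

/-!
# TFN module GC: extending the tower part of a condition

`exists_add`: replace `r.p` by `addPt r.p α`.  Order: `TPle` by `addPt_le`; nothing else changes (in `new`, `k ≥ |s|` and
`s[k]? = some b` contradict each other).  `Syn`: `len`, `nn` unchanged; `act`: `e.1, e.2.1` remain in `F`, and
`le q (toCond x e)` by `le_trans'`, from `le q r` and `le r (toCond x e)`; `dis`: for `e ∈ (r.d x).F` the points `e.1, e.2.1`
are in `r.p.F` (Syn.act), so for `k < r.p.n` the patterns there are unchanged.  Goodness of the codes is unchanged, use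
`mem_PP`.

`exists_ext`: replace `r.p` by `ext1 r.p U hb`.  As before, except for `dis` at the new place `k = r.p.n`: let
`e, e' ∈ (r.d x).F` with types `true`, `false`.  Since `r ≤ toPP _ _` for both (Syn.act), `inc_PP` gives `e.2.1 ≤ e'.1` or
`e'.2.1 ≤ e.1`.  The new bits are `true` exactly on `U`; both blocks contain `k` means `e.2.1 ∈ U`, `e.1 ∉ U`,
`e'.2.1 ∈ U`, `e'.1 ∉ U`; but `U` is upward closed: contradiction in both cases.
-/

set_option autoImplicit false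

namespace Pool.Agent.TFN

variable {Ω : Type} [LinearOrder Ω] [OrderBot Ω]

private theorem gc_le (r : Cond Ω) (p' : TP Ω) (h : TPle p' r.p) : le ⟨p', r.S, r.d⟩ r := by
  refine ⟨h, Finset.Subset.refl _, fun _ _ => List.prefix_rfl, fun _ _ => Finset.Subset.refl _, ?_⟩
  intro x _ e _ k hk b hb _
  rw [List.getElem?_eq_none hk] at hb
  exact absurd hb (by simp)

private theorem gc_mem (r : PP Ω) (p' : TP Ω) (h : TPle p' r.1.p)
    (hd : ∀ x ∈ r.1.S, ∀ e ∈ (r.1.d x).F, ∀ e' ∈ (r.1.d x).F, e.2.2.1 = true → e'.2.2.1 = false →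
      ∀ k, (r.1.d x).s.length ≤ k → k < p'.n → ¬ (Blk p' e k ∧ Blk p' e' k)) :
    ∃ ζ, (⟨p', r.1.S, r.1.d⟩ : Cond Ω) ∈ V Ω ζ := by
  refine mem_PP.2 ⟨⟨(PP.syn r).nn, fun x hx => ((PP.syn r).len x hx).trans h.len, ?_, hd⟩,
    fun x hx => PP.good r hx⟩
  intro x hx e he
  obtain ⟨h1, h2, h3, h4⟩ := (PP.syn r).act x hx e he
  exact ⟨h1, h.sub h2, h.sub h3, le_trans' (PP.syn r) (gc_le r.1 p' h) h4⟩

theorem exists_add (r : PP Ω) (α : Ω) :
    ∃ q : PP Ω, q ≤ r ∧ q.1.S = r.1.S ∧ q.1.d = r.1.d ∧ q.1.p.n = r.1.p.n ∧ r.1.p.F ⊆ q.1.p.F ∧ α ∈ q.1.p.F := by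
  classical
  have hle := addPt_le r.1.p α
  refine ⟨⟨⟨addPt r.1.p α, r.1.S, r.1.d⟩, gc_mem r _ hle ?_⟩, gc_le r.1 _ hle, rfl, rfl, rfl, hle.sub, ?_⟩
  · intro x hx e he e' he' ht ht' k hk hk' hB
    have hk2 : k < r.1.p.n := hk'
    obtain ⟨_, h1, h2, _⟩ := (PP.syn r).act x hx e he
    obtain ⟨_, h3, h4, _⟩ := (PP.syn r).act x hx e' he'
    refine (PP.syn r).dis x hx e he e' he' ht ht' k hk hk2 ⟨⟨?_, ?_⟩, ⟨?_, ?_⟩⟩
    · rw [← hle.agr _ h2 k hk2]; exact hB.1.1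
    · rw [← hle.agr _ h1 k hk2]; exact hB.1.2
    · rw [← hle.agr _ h4 k hk2]; exact hB.2.1
    · rw [← hle.agr _ h3 k hk2]; exact hB.2.2
  · show α ∈ (addPt r.1.p α).F
    unfold addPt
    exact Finset.mem_insert_self _ _

theorem exists_ext (r : PP Ω) (U : Set Ω) (hb : ⊥ ∉ U) (hU : ∀ a ∈ U, ∀ b, a ≤ b → b ∈ U) :
    ∃ q : PP Ω, q ≤ r ∧ q.1.S = r.1.S ∧ q.1.d = r.1.d ∧ q.1.p.F = r.1.p.F ∧ q.1.p.n = r.1.p.n + 1 ∧
      (∀ α, α ∈ U → q.1.p.t α r.1.p.n = true) ∧ (∀ α, α ∉ U → q.1.p.t α r.1.p.n = false) := by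
  classical
  have hle := ext1_le r.1.p U hb hU
  have hnew : ∀ α, (ext1 r.1.p U hb).t α r.1.p.n = decide (α ∈ U) := by
    intro α
    unfold ext1
    exact if_neg (lt_irrefl _)
  refine ⟨⟨⟨ext1 r.1.p U hb, r.1.S, r.1.d⟩, gc_mem r _ hle ?_⟩, gc_le r.1 _ hle, rfl, rfl, rfl, rfl, ?_, ?_⟩
  · intro x hx e he e' he' ht ht' k hk hk' hB
    obtain ⟨a1, h1, h2, h5⟩ := (PP.syn r).act x hx e he
    obtain ⟨a2, h3, h4, h6⟩ := (PP.syn r).act x hx e' he'
    have hk3 : k < r.1.p.n + 1 := hk'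
    by_cases hk2 : k < r.1.p.n
    · refine (PP.syn r).dis x hx e he e' he' ht ht' k hk hk2 ⟨⟨?_, ?_⟩, ⟨?_, ?_⟩⟩
      · rw [← hle.agr _ h2 k hk2]; exact hB.1.1
      · rw [← hle.agr _ h1 k hk2]; exact hB.1.2
      · rw [← hle.agr _ h4 k hk2]; exact hB.2.1
      · rw [← hle.agr _ h3 k hk2]; exact hB.2.2
    · have hkn : k = r.1.p.n := by omega
      subst hkn
      obtain ⟨⟨b1, b2⟩, ⟨b3, b4⟩⟩ := hB
      rw [hnew] at b1 b2 b3 b4
      have c1 : e.2.1 ∈ U := of_decide_eq_true b1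
      have c2 : e.1 ∉ U := of_decide_eq_false b2
      have c3 : e'.2.1 ∈ U := of_decide_eq_true b3
      have c4 : e'.1 ∉ U := of_decide_eq_false b4
      rcases inc_PP r (PP.good r hx) a1 a2 ht ht' h5 h6 with h | h
      · exact c4 (hU _ c1 _ h)
      · exact c2 (hU _ c3 _ h)
  · intro α hα
    show (ext1 r.1.p U hb).t α r.1.p.n = true
    rw [hnew]
    exact decide_eq_true hα
  · intro α hα
    show (ext1 r.1.p U hb).t α r.1.p.n = false
    rw [hnew]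
    exact decide_eq_false hα

/-- Iterating `exists_ext` with `U = ∅`. -/
theorem exists_n (r : PP Ω) (m : ℕ) :
    ∃ q : PP Ω, q ≤ r ∧ q.1.S = r.1.S ∧ q.1.d = r.1.d ∧ q.1.p.F = r.1.p.F ∧ m ≤ q.1.p.n := by
  induction m with
  | zero => exact ⟨r, le_rfl, rfl, rfl, rfl, Nat.zero_le _⟩
  | succ m ih =>
    obtain ⟨q, h1, h2, h3, h4, h5⟩ := ih
    obtain ⟨q', g1, g2, g3, g4, g5, -, -⟩ := exists_ext q ∅ (by simp) (by simp)
    exact ⟨q', g1.trans h1, g2.trans h2, g3.trans h3, g4.trans h4, by omega⟩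

end Pool.Agent.TFN
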