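import Pool.Agent.TFN.GC

/-!
# TFN module GD: extending the data of a condition

`exists_code`: if `x ∈ r.S` nothing is to do; otherwise add `x` to `S` with the data `⟨[], ∅⟩` (change `r.d` at `x` only).
Everything about `x` is vacuous; for the other codes nothing changes (`le q (toCond y e)` from `le q r` and `Syn`).

`exists_step`: for `x ∈ r.S` with `k = |s_x| < r.p.n` prolong `s_x` by one bit `b`: if some `e ∈ (r.d x).F` satisfies
`Blk r.p e k` then `b := e.2.2.1` for such an `e`, otherwise `b := false`.  By `dis` all `e ∈ (r.d x).F` with `Blk r.p e k`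
have the same type, so `new` holds at the only new place `k`.  The tower part and the set `S` are unchanged.
`exists_full`: iterate until `|s_x| = r.p.n`.
`exists_prm`: let `r ≤ toPP hx he`, `x ∈ r.S`.  Add the points `e.1`, `e.2.1` (`exists_add` twice), lengthen `s_x` to the full
length `n` (`exists_full`), then add `e` to `(r.d x).F`: `dis` for `x` is vacuous as `|s_x| = n`; `act` for the new `e` holds
since the condition is below `toCond x e`; `new` is vacuous (no new bits).  (`le q (toCond x e)` for the modified condition `q`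
from `le q q'` and `le q' (toCond x e)` with `le_trans'`.)
`exists_long`: `exists_n` with `m`, then `exists_full`.
-/

set_option autoImplicit false

namespace Pool.Agent.TFN

variable {Ω : Type} [LinearOrder Ω] [OrderBot Ω]

theorem exists_code (r : PP Ω) {x : Code Ω} (hx : Good x) : ∃ q : PP Ω, q ≤ r ∧ x ∈ q.1.S := by
  classical
  by_cases hxr : x ∈ r.1.S
  · exact ⟨r, le_rfl, hxr⟩
  · have hne : ∀ y ∈ r.1.S, y ≠ x := fun y hy hyx => hxr (hyx ▸ hy)
    have hd : ∀ y ∈ r.1.S, (Function.update r.1.d x ⟨[], ∅⟩) y = r.1.d y := fun y hy =>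
      Function.update_of_ne (hne y hy) _ _
    have hself : (Function.update r.1.d x ⟨[], ∅⟩) x = ⟨[], ∅⟩ := Function.update_self _ _ _
    have hle : le ⟨r.1.p, insert x r.1.S, Function.update r.1.d x ⟨[], ∅⟩⟩ r.1 := by
      refine ⟨TPle.refl _, Finset.subset_insert _ _, ?_, ?_, ?_⟩
      · intro y hy
        show (r.1.d y).s <+: ((Function.update r.1.d x ⟨[], ∅⟩) y).s
        rw [hd y hy]
      · intro y hy
        show (r.1.d y).F ⊆ ((Function.update r.1.d x ⟨[], ∅⟩) y).F
        rw [hd y hy]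
      · intro y hy e he k hk b hb
        change ((Function.update r.1.d x ⟨[], ∅⟩) y).s[k]? = some b at hb
        rw [hd y hy, List.getElem?_eq_none hk] at hb
        exact absurd hb (by simp)
    refine ⟨⟨⟨r.1.p, insert x r.1.S, Function.update r.1.d x ⟨[], ∅⟩⟩, mem_PP.2 ⟨⟨?_, ?_, ?_, ?_⟩, ?_⟩⟩, hle,
      Finset.mem_insert_self _ _⟩
    · intro h
      rcases Finset.mem_insert.1 h with h | h
      · exact hx.ne h.symm
      · exact (PP.syn r).nn h
    · intro y hy
      rcases Finset.mem_insert.1 hy with h | h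
      · subst h
        show ((Function.update r.1.d y ⟨[], ∅⟩) y).s.length ≤ _
        rw [hself]
        exact Nat.zero_le _
      · show ((Function.update r.1.d x ⟨[], ∅⟩) y).s.length ≤ _
        rw [hd y h]
        exact (PP.syn r).len y h
    · intro y hy e he
      rcases Finset.mem_insert.1 hy with h | h
      · subst h
        change e ∈ ((Function.update r.1.d y ⟨[], ∅⟩) y).F at he
        rw [hself] at he
        exact absurd he (by simp)
      · change e ∈ ((Function.update r.1.d x ⟨[], ∅⟩) y).F at he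
        rw [hd y h] at he
        obtain ⟨h1, h2, h3, h4⟩ := (PP.syn r).act y h e he
        exact ⟨h1, h2, h3, le_trans' (PP.syn r) hle h4⟩
    · intro y hy e he e' he'
      rcases Finset.mem_insert.1 hy with h | h
      · subst h
        change e ∈ ((Function.update r.1.d y ⟨[], ∅⟩) y).F at he
        rw [hself] at he
        exact absurd he (by simp)
      · change e ∈ ((Function.update r.1.d x ⟨[], ∅⟩) y).F at he
        change e' ∈ ((Function.update r.1.d x ⟨[], ∅⟩) y).F at he'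
        show _ → _ → ∀ k, ((Function.update r.1.d x ⟨[], ∅⟩) y).s.length ≤ k → _
        rw [hd y h] at he he' ⊢
        exact (PP.syn r).dis y h e he e' he'
    · intro y hy
      rcases Finset.mem_insert.1 hy with h | h
      · subst h
        exact hx
      · exact PP.good r h

/-- Change the data at one code of the condition. -/
private theorem gd_change (r : PP Ω) {x : Code Ω} (hx : x ∈ r.1.S) (D : Dat Ω)
    (hpre : (r.1.d x).s <+: D.s) (hlen : D.s.length ≤ r.1.p.n) (hF : (r.1.d x).F ⊆ D.F)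
    (hnew : ∀ e ∈ (r.1.d x).F, ∀ k, (r.1.d x).s.length ≤ k → ∀ b, D.s[k]? = some b → Blk r.1.p e k → b = e.2.2.1)
    (hact : ∀ e ∈ D.F, e ∈ x.act ∧ e.1 ∈ r.1.p.F ∧ e.2.1 ∈ r.1.p.F ∧ le r.1 (toCond x e))
    (hdis : ∀ e ∈ D.F, ∀ e' ∈ D.F, e.2.2.1 = true → e'.2.2.1 = false →
      ∀ k, D.s.length ≤ k → k < r.1.p.n → ¬ (Blk r.1.p e k ∧ Blk r.1.p e' k)) :
    ∃ q : PP Ω, q ≤ r ∧ q.1.p = r.1.p ∧ q.1.S = r.1.S ∧ q.1.d x = D := by
  classical
  have hself : (Function.update r.1.d x D) x = D := Function.update_self _ _ _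
  have hd : ∀ y, y ≠ x → (Function.update r.1.d x D) y = r.1.d y := fun y hy => Function.update_of_ne hy _ _
  have hle : le ⟨r.1.p, r.1.S, Function.update r.1.d x D⟩ r.1 := by
    refine ⟨TPle.refl _, Finset.Subset.refl _, ?_, ?_, ?_⟩
    · intro y hy
      show (r.1.d y).s <+: ((Function.update r.1.d x D) y).s
      by_cases h : y = x
      · subst h
        rw [hself]
        exact hpre
      · rw [hd y h]
    · intro y hy
      show (r.1.d y).F ⊆ ((Function.update r.1.d x D) y).F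
      by_cases h : y = x
      · subst h
        rw [hself]
        exact hF
      · rw [hd y h]
    · intro y hy e he k hk b hb hB
      change ((Function.update r.1.d x D) y).s[k]? = some b at hb
      by_cases h : y = x
      · subst h
        rw [hself] at hb
        exact hnew e he k hk b hb hB
      · rw [hd y h, List.getElem?_eq_none hk] at hb
        exact absurd hb (by simp)
  refine ⟨⟨⟨r.1.p, r.1.S, Function.update r.1.d x D⟩, mem_PP.2 ⟨⟨(PP.syn r).nn, ?_, ?_, ?_⟩,
    fun y hy => PP.good r hy⟩⟩, hle, rfl, rfl, hself⟩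
  · intro y hy
    show ((Function.update r.1.d x D) y).s.length ≤ _
    by_cases h : y = x
    · subst h
      rw [hself]
      exact hlen
    · rw [hd y h]
      exact (PP.syn r).len y hy
  · intro y hy e he
    change e ∈ ((Function.update r.1.d x D) y).F at he
    by_cases h : y = x
    · subst h
      rw [hself] at he
      obtain ⟨h1, h2, h3, h4⟩ := hact e he
      exact ⟨h1, h2, h3, le_trans' (PP.syn r) hle h4⟩
    · rw [hd y h] at he
      obtain ⟨h1, h2, h3, h4⟩ := (PP.syn r).act y hy e he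
      exact ⟨h1, h2, h3, le_trans' (PP.syn r) hle h4⟩
  · intro y hy e he e' he'
    change e ∈ ((Function.update r.1.d x D) y).F at he
    change e' ∈ ((Function.update r.1.d x D) y).F at he'
    show _ → _ → ∀ k, ((Function.update r.1.d x D) y).s.length ≤ k → _
    by_cases h : y = x
    · subst h
      rw [hself] at he he' ⊢
      exact hdis e he e' he'
    · rw [hd y h] at he he' ⊢
      exact (PP.syn r).dis y hy e he e' he'

theorem exists_step (r : PP Ω) {x : Code Ω} (hx : x ∈ r.1.S) (h : (r.1.d x).s.length < r.1.p.n) :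
    ∃ q : PP Ω, q ≤ r ∧ q.1.p = r.1.p ∧ q.1.S = r.1.S ∧ (q.1.d x).s.length = (r.1.d x).s.length + 1 := by
  classical
  obtain ⟨b, hb⟩ : ∃ b : Bool, ∀ e ∈ (r.1.d x).F, Blk r.1.p e (r.1.d x).s.length → b = e.2.2.1 := by
    by_cases h1 : ∃ e ∈ (r.1.d x).F, Blk r.1.p e (r.1.d x).s.length
    · obtain ⟨e0, he0, hB0⟩ := h1
      refine ⟨e0.2.2.1, fun e he hB => ?_⟩
      cases h2 : e0.2.2.1 <;> cases h3 : e.2.2.1
      · rfl
      · exact absurd ⟨hB, hB0⟩ ((PP.syn r).dis x hx e he e0 he0 h3 h2 _ le_rfl h)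
      · exact absurd ⟨hB0, hB⟩ ((PP.syn r).dis x hx e0 he0 e he h2 h3 _ le_rfl h)
      · rfl
    · exact ⟨false, fun e he hB => absurd ⟨e, he, hB⟩ h1⟩
  have k1 : ∀ e ∈ (r.1.d x).F, ∀ k, (r.1.d x).s.length ≤ k → ∀ b', ((r.1.d x).s ++ [b])[k]? = some b' →
      Blk r.1.p e k → b' = e.2.2.1 := by
    intro e he k hk b' hb' hB
    have hk2 : k = (r.1.d x).s.length := by
      by_contra hne
      rw [List.getElem?_eq_none (by simp; omega)] at hb'
      exact absurd hb' (by simp)
    subst hk2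
    simp at hb'
    rw [← hb']
    exact hb e he hB
  have k2 : ∀ e ∈ (r.1.d x).F, ∀ e' ∈ (r.1.d x).F, e.2.2.1 = true → e'.2.2.1 = false →
      ∀ k, ((r.1.d x).s ++ [b]).length ≤ k → k < r.1.p.n → ¬ (Blk r.1.p e k ∧ Blk r.1.p e' k) := by
    intro e he e' he' ht ht' k hk hk'
    refine (PP.syn r).dis x hx e he e' he' ht ht' k ?_ hk'
    refine le_trans ?_ hk
    simp
  obtain ⟨q, h1, h2, h3, h4⟩ := gd_change r hx ⟨(r.1.d x).s ++ [b], (r.1.d x).F⟩ (List.prefix_append _ _)
    (by simpa using h) (Finset.Subset.refl _) k1 ((PP.syn r).act x hx) k2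
  refine ⟨q, h1, h2, h3, ?_⟩
  rw [h4]
  simp

theorem exists_full (r : PP Ω) {x : Code Ω} (hx : x ∈ r.1.S) :
    ∃ q : PP Ω, q ≤ r ∧ q.1.p = r.1.p ∧ q.1.S = r.1.S ∧ (q.1.d x).s.length = r.1.p.n := by
  obtain ⟨m, hm⟩ : ∃ m, m = r.1.p.n - (r.1.d x).s.length := ⟨_, rfl⟩
  induction m generalizing r with
  | zero =>
    have h1 := (PP.syn r).len x hx
    exact ⟨r, le_rfl, rfl, rfl, by omega⟩
  | succ m ih =>
    obtain ⟨q, h1, h2, h3, h4⟩ := exists_step r hx (by omega)
    obtain ⟨q', g1, g2, g3, g4⟩ := ih q (by rw [h3]; exact hx) (by rw [h2, h4]; omega)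
    exact ⟨q', g1.trans h1, g2.trans h2, g3.trans h3, by rw [g4, h2]⟩

theorem exists_prm (r : PP Ω) {x : Code Ω} (hx : Good x) (hxr : x ∈ r.1.S) {e : J Ω} (he : e ∈ x.act)
    (h : r ≤ toPP hx he) : ∃ q : PP Ω, q ≤ r ∧ x ∈ q.1.S ∧ e ∈ (q.1.d x).F := by
  classical
  obtain ⟨q1, a1, a2, a3, a4, a5, a6⟩ := exists_add r e.1
  obtain ⟨q2, b1, b2, b3, b4, b5, b6⟩ := exists_add q1 e.2.1
  have hx2 : x ∈ q2.1.S := by rw [b2, a2]; exact hxr
  obtain ⟨q3, c1, c2, c3, c4⟩ := exists_full q2 hx2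
  have hx3 : x ∈ q3.1.S := by rw [c3]; exact hx2
  have hle : q3 ≤ toPP hx he := (c1.trans (b1.trans a1)).trans h
  have k1 : ∀ e' ∈ (q3.1.d x).F, ∀ k, (q3.1.d x).s.length ≤ k → ∀ b, (q3.1.d x).s[k]? = some b →
      Blk q3.1.p e' k → b = e'.2.2.1 := by
    intro e' _ k hk b hb _
    rw [List.getElem?_eq_none hk] at hb
    exact absurd hb (by simp)
  have k2 : ∀ e' ∈ insert e (q3.1.d x).F, e' ∈ x.act ∧ e'.1 ∈ q3.1.p.F ∧ e'.2.1 ∈ q3.1.p.F ∧
      le q3.1 (toCond x e') := by
    intro e' he'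
    rcases Finset.mem_insert.1 he' with h' | h'
    · subst h'
      refine ⟨he, ?_, ?_, hle⟩
      · rw [c2]; exact b5 a6
      · rw [c2]; exact b6
    · exact (PP.syn q3).act x hx3 e' h'
  have k3 : ∀ e1 ∈ insert e (q3.1.d x).F, ∀ e2 ∈ insert e (q3.1.d x).F, e1.2.2.1 = true → e2.2.2.1 = false →
      ∀ k, (q3.1.d x).s.length ≤ k → k < q3.1.p.n → ¬ (Blk q3.1.p e1 k ∧ Blk q3.1.p e2 k) := by
    intro e1 _ e2 _ _ _ k hk hk' _
    rw [c4] at hk
    rw [c2] at hk'
    omega
  obtain ⟨q, h1, h2, h3, h4⟩ := gd_change q3 hx3 ⟨(q3.1.d x).s, insert e (q3.1.d x).F⟩ List.prefix_rfl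
    ((PP.syn q3).len x hx3) (Finset.subset_insert _ _) k1 k2 k3
  refine ⟨q, h1.trans (c1.trans (b1.trans a1)), by rw [h3]; exact hx3, ?_⟩
  rw [h4]
  exact Finset.mem_insert_self _ _

theorem exists_long (r : PP Ω) {x : Code Ω} (hx : x ∈ r.1.S) (m : ℕ) :
    ∃ q : PP Ω, q ≤ r ∧ x ∈ q.1.S ∧ m ≤ (q.1.d x).s.length := by
  obtain ⟨q1, a1, a2, a3, a4, a5⟩ := exists_n r m
  have hx1 : x ∈ q1.1.S := by rw [a2]; exact hx
  obtain ⟨q, h1, h2, h3, h4⟩ := exists_full q1 hx1
  exact ⟨q, h1.trans a1, by rw [h3]; exact hx1, by rw [h4]; exact a5⟩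

end Pool.Agent.TFN
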