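import Pool.Agent.TFN.BDefs

/-!
# TFN part G: the forcing notion (definitions)

`Ω` is a linear order with least element.  A promise is `e = (β, α, ty, j) : J Ω`; it speaks about the block
`T_α \ T_β` of the tower (`β < α`), `ty = true` means that the block will be almost contained in the generic set `W_x`,
`ty = false` that it will be almost disjoint from it; `j` is an index for the coded conditions below which the promise
may be made.

A code `x` describes for every promise `e ∈ x.act` a condition `toCond x e`.  A condition `r` consists of a tower part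
`r.p`, a finite set `r.S` of codes, and for every `x ∈ r.S` a finite 0-1-sequence `(r.d x).s` (an initial part of `W_x`)
and a finite set `(r.d x).F` of promises.
-/

set_option autoImplicit false

namespace Pool.Agent.TFN

variable {Ω : Type} [LinearOrder Ω] [OrderBot Ω]

/-- Promises `(β, α, ty, j)`. -/
abbrev J (Ω : Type) : Type := Ω × Ω × Bool × ℕ

/-- The tower part of a condition: finitely many points `F`, a length `n`, and the values `t α k` (relevant for `α ∈ F`
and `k < n`). -/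
structure TP (Ω : Type) [LinearOrder Ω] [OrderBot Ω] where
  F : Finset Ω
  n : ℕ
  t : Ω → ℕ → Bool
  bot : ∀ k, t ⊥ k = false

/-- `q ≤ p` for tower parts. -/
structure TPle (q p : TP Ω) : Prop where
  sub : p.F ⊆ q.F
  len : p.n ≤ q.n
  agr : ∀ α ∈ p.F, ∀ k, k < p.n → q.t α k = p.t α k
  mono : ∀ α ∈ p.F, ∀ β ∈ p.F, α < β → ∀ k, p.n ≤ k → k < q.n → q.t α k = true → q.t β k = true

/-- The data at a code: a finite 0-1-sequence and a finite set of promises. -/
structure Dat (Ω : Type) where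
  s : List Bool
  F : Finset (J Ω)

/-- Codes.  `mk act tp len cs dt` describes for `e ∈ act` the condition with tower part `tp e`, codes `cs e l`
(`l < len e`) and data `dt e l`. -/
inductive Code (Ω : Type) [LinearOrder Ω] [OrderBot Ω] : Type
  | nil : Code Ω
  | mk (act : Set (J Ω)) (tp : J Ω → TP Ω) (len : J Ω → ℕ) (cs : J Ω → ℕ → Code Ω) (dt : J Ω → ℕ → Dat Ω) : Code Ω

/-- Conditions (before imposing the requirements). -/
structure Cond (Ω : Type) [LinearOrder Ω] [OrderBot Ω] where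
  p : TP Ω
  S : Finset (Code Ω)
  d : Code Ω → Dat Ω

/-- The set of promises described by a code. -/
def Code.act : Code Ω → Set (J Ω)
  | .nil => ∅
  | .mk a _ _ _ _ => a

/-- The number `k` is in the block of the promise `e`. -/
def Blk (p : TP Ω) (e : J Ω) (k : ℕ) : Prop := p.t e.2.1 k = true ∧ p.t e.1 k = false

/-- `r' ≤ r` for conditions. -/
structure le (r' r : Cond Ω) : Prop where
  tp : TPle r'.p r.p
  sub : r.S ⊆ r'.S
  pre : ∀ x ∈ r.S, (r.d x).s <+: (r'.d x).s
  prm : ∀ x ∈ r.S, (r.d x).F ⊆ (r'.d x).F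
  new : ∀ x ∈ r.S, ∀ e ∈ (r.d x).F, ∀ k, (r.d x).s.length ≤ k → ∀ b, (r'.d x).s[k]? = some b →
    Blk r'.p e k → b = e.2.2.1

open Classical in
/-- The condition which the code `x` describes for the promise `e`. -/
noncomputable def toCond (x : Code Ω) (e : J Ω) : Cond Ω :=
  match x with
  | .nil => ⟨⟨∅, 0, fun _ _ => false, fun _ => rfl⟩, ∅, fun _ => ⟨[], ∅⟩⟩
  | .mk _ tp len cs dt => ⟨tp e, (Finset.range (len e)).image (cs e),
      fun y => if h : ∃ l, l < len e ∧ cs e l = y then dt e (Nat.find h) else ⟨[], ∅⟩⟩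

/-- The rank of a code. -/
noncomputable def rk : Code Ω → Ordinal.{0}
  | .nil => 0
  | .mk _ _ _ cs _ => ⨆ a : J Ω × ℕ, Order.succ (rk (cs a.1 a.2))

/-- The requirements on a condition which do not speak about goodness of the codes. -/
structure Syn (r : Cond Ω) : Prop where
  nn : Code.nil ∉ r.S
  len : ∀ x ∈ r.S, (r.d x).s.length ≤ r.p.n
  act : ∀ x ∈ r.S, ∀ e ∈ (r.d x).F, e ∈ x.act ∧ e.1 ∈ r.p.F ∧ e.2.1 ∈ r.p.F ∧ le r (toCond x e)
  dis : ∀ x ∈ r.S, ∀ e ∈ (r.d x).F, ∀ e' ∈ (r.d x).F, e.2.2.1 = true → e'.2.2.1 = false →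
    ∀ k, (r.d x).s.length ≤ k → k < r.p.n → ¬ (Blk r.p e k ∧ Blk r.p e' k)

/-- `x` is good with respect to the set `W` of conditions (which will be the set of all conditions whose codes have
smaller rank than `x`). -/
structure GoodRel (x : Code Ω) (W : Set (Cond Ω)) : Prop where
  ne : x ≠ Code.nil
  lt : ∀ e ∈ x.act, e.1 < e.2.1
  mem : ∀ e ∈ x.act, toCond x e ∈ W
  inc : ∀ e ∈ x.act, ∀ e' ∈ x.act, e.2.2.1 = true → e'.2.2.1 = false →
    (∃ r ∈ W, le r (toCond x e) ∧ le r (toCond x e')) → e.2.1 ≤ e'.1 ∨ e'.2.1 ≤ e.1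

/-- `V ζ`: the conditions all whose codes are good and have rank less than `ζ` (recursion on `ζ`). -/
noncomputable def V (Ω : Type) [LinearOrder Ω] [OrderBot Ω] : Ordinal.{0} → Set (Cond Ω) :=
  WellFounded.fix (C := fun _ => Set (Cond Ω)) (Ordinal.lt_wf : WellFounded ((· < ·) : Ordinal.{0} → Ordinal.{0} → Prop))
    (fun ζ IH => {r | Syn r ∧ ∀ x ∈ r.S, ∃ h : rk x < ζ, GoodRel x (IH (rk x) h)})

/-- Good codes. -/
def Good (x : Code Ω) : Prop := GoodRel x (V Ω (rk x))

theorem mem_V {ζ : Ordinal.{0}} {r : Cond Ω} : r ∈ V Ω ζ ↔ Syn r ∧ ∀ x ∈ r.S, rk x < ζ ∧ Good x := by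
  have h : V Ω ζ = {r | Syn r ∧ ∀ x ∈ r.S, ∃ h : rk x < ζ, GoodRel x (V Ω (rk x))} :=
    WellFounded.fix_eq _ _ ζ
  rw [h]
  simp only [Set.mem_setOf_eq, exists_prop]
  rfl

open Classical in
/-- The part of a condition with codes of rank less than `ρ`. -/
noncomputable def restr (r : Cond Ω) (ρ : Ordinal.{0}) : Cond Ω :=
  ⟨r.p, r.S.filter (fun x => rk x < ρ), r.d⟩

/-- The forcing notion. -/
def PP (Ω : Type) [LinearOrder Ω] [OrderBot Ω] : Type := {r : Cond Ω // ∃ ζ, r ∈ V Ω ζ}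

theorem mem_PP {r : Cond Ω} : (∃ ζ, r ∈ V Ω ζ) ↔ Syn r ∧ ∀ x ∈ r.S, Good x := by
  constructor
  · rintro ⟨ζ, h⟩
    rw [mem_V] at h
    exact ⟨h.1, fun x hx => (h.2 x hx).2⟩
  · rintro ⟨h1, h2⟩
    refine ⟨Order.succ (r.S.sup rk), mem_V.2 ⟨h1, fun x hx => ⟨?_, h2 x hx⟩⟩⟩
    exact Order.lt_succ_of_le (Finset.le_sup (f := rk) hx)

end Pool.Agent.TFN
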