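import Mathlib

/-!
# TFN module GE: uncountable families, the Delta-system lemma

`unctbl_fiber`: otherwise `I₀` is the countable union of the countable sets `{i ∈ I₀ | f i = a}`.

`delta_system`: first, by `unctbl_fiber` for `f i = (S i).card`, we may assume that all `S i`, `i ∈ I₀`, have the same
cardinality `m`; induction on `m` (for all `I₀`, `S`).  `m = 0`: `R = ∅`, `I' = I₀`.  Step: if some `a` belongs to
uncountably many `S i`, `i ∈ I₀`, apply the induction hypothesis to the sets `S i \ {a}`, `i ∈ I₀` with `a ∈ S i`, and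
add `a` to the root.  Otherwise every `a` belongs to only countably many `S i`.  Take (Zorn, or `zorn_subset`) a maximal
subset `I' ⊆ I₀` such that the `S i`, `i ∈ I'`, are pairwise disjoint.  If `I'` were countable, then `A := ⋃ i ∈ I', S i`
would be countable and every `i ∈ I₀` would satisfy `S i ∩ A ≠ ∅` (by maximality, and for `i ∈ I'` because `m + 1 > 0`),
so `I₀` would be contained in the countable union over `a ∈ A` of the countable sets `{i ∈ I₀ | a ∈ S i}`, contradiction.
So `I'` is uncountable and `R = ∅` works.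
-/

set_option autoImplicit false

namespace Pool.Agent.TFN

theorem unctbl_fiber {I A : Type*} [Countable A] (f : I → A) (I₀ : Set I) (h : ¬ I₀.Countable) :
    ∃ a, ¬ {i ∈ I₀ | f i = a}.Countable := by
  by_contra hc
  push Not at hc
  apply h
  have e : I₀ = ⋃ a, {i ∈ I₀ | f i = a} := by
    ext i
    simp
  rw [e]
  exact Set.countable_iUnion hc

private theorem GE_aux {I A : Type*} [DecidableEq A] : ∀ (m : ℕ) (S : I → Finset A) (I₀ : Set I),
    ¬ I₀.Countable → (∀ i ∈ I₀, (S i).card = m) →
    ∃ (I' : Set I) (R : Finset A), I' ⊆ I₀ ∧ ¬ I'.Countable ∧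
      ∀ i ∈ I', ∀ j ∈ I', i ≠ j → S i ∩ S j = R := by
  intro m
  induction m with
  | zero =>
    intro S I₀ h hm
    refine ⟨I₀, ∅, subset_rfl, h, fun i hi j _ _ => ?_⟩
    rw [Finset.card_eq_zero.mp (hm i hi), Finset.empty_inter]
  | succ m ih =>
    intro S I₀ h hm
    by_cases ha : ∃ a, ¬ {i ∈ I₀ | a ∈ S i}.Countable
    · obtain ⟨a, ha⟩ := ha
      obtain ⟨I', R, h1, h2, h3⟩ := ih (fun i => (S i).erase a) {i ∈ I₀ | a ∈ S i} ha
        (fun i hi => by
          rw [Finset.card_erase_of_mem hi.2, hm i hi.1]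
          rfl)
      refine ⟨I', insert a R, fun i hi => (h1 hi).1, h2, fun i hi j hj hij => ?_⟩
      have h4 := h3 i hi j hj hij
      have h5 : a ∈ S i := (h1 hi).2
      have h6 : a ∈ S j := (h1 hj).2
      rw [← h4]
      ext x
      simp only [Finset.mem_inter, Finset.mem_insert, Finset.mem_erase]
      constructor
      · rintro ⟨hx1, hx2⟩
        by_cases hx : x = a
        · exact Or.inl hx
        · exact Or.inr ⟨⟨hx, hx1⟩, ⟨hx, hx2⟩⟩
      · rintro (hx | ⟨⟨_, hx1⟩, ⟨_, hx2⟩⟩)
        · rw [hx]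
          exact ⟨h5, h6⟩
        · exact ⟨hx1, hx2⟩
    · push Not at ha
      obtain ⟨I', hI'⟩ := zorn_subset
        {J : Set I | J ⊆ I₀ ∧ ∀ i ∈ J, ∀ j ∈ J, i ≠ j → Disjoint (S i) (S j)} (by
          intro c hc hch
          refine ⟨⋃₀ c, ⟨Set.sUnion_subset fun s hs => (hc hs).1, ?_⟩,
            fun s hs => Set.subset_sUnion_of_mem hs⟩
          rintro i ⟨s, hs, his⟩ j ⟨t, ht, hjt⟩ hij
          rcases hch.total hs ht with hst | hts
          · exact (hc ht).2 i (hst his) j hjt hij
          · exact (hc hs).2 i his j (hts hjt) hij)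
      have hmem := hI'.prop
      refine ⟨I', ∅, hmem.1, ?_, fun i hi j hj hij =>
        Finset.disjoint_iff_inter_eq_empty.mp (hmem.2 i hi j hj hij)⟩
      intro hcount
      apply h
      have hA : (⋃ i ∈ I', ((S i : Finset A) : Set A)).Countable :=
        hcount.biUnion fun i _ => (S i).countable_toSet
      refine (hA.biUnion (t := fun a _ => {i ∈ I₀ | a ∈ S i}) fun a _ => ha a).mono ?_
      intro i hi
      have key : ∃ j ∈ I', ∃ a ∈ S j, a ∈ S i := by
        by_contra hno
        push Not at hno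
        have hins : insert i I' ∈
            {J : Set I | J ⊆ I₀ ∧ ∀ i ∈ J, ∀ j ∈ J, i ≠ j → Disjoint (S i) (S j)} := by
          refine ⟨Set.insert_subset hi hmem.1, ?_⟩
          rintro x (rfl | hx) y (rfl | hy) hxy
          · exact absurd rfl hxy
          · rw [Finset.disjoint_left]
            exact fun a ha1 ha2 => hno y hy a ha2 ha1
          · rw [Finset.disjoint_left]
            exact fun a ha1 ha2 => hno x hx a ha1 ha2
          · exact hmem.2 x hx y hy hxy
        have hin : i ∈ I' := hI'.le_of_ge hins (Set.subset_insert i I') (Set.mem_insert i I')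
        have hne : (S i).Nonempty := by
          rw [← Finset.card_pos, hm i hi]
          exact Nat.succ_pos m
        obtain ⟨a, haS⟩ := hne
        exact hno i hin a haS haS
      obtain ⟨j, hj, a, haj, hai⟩ := key
      simp only [Set.mem_iUnion]
      exact ⟨a, ⟨j, hj, haj⟩, hi, hai⟩

theorem delta_system {I A : Type*} [DecidableEq A] (S : I → Finset A) (I₀ : Set I) (h : ¬ I₀.Countable) :
    ∃ (I' : Set I) (R : Finset A), I' ⊆ I₀ ∧ ¬ I'.Countable ∧ ∀ i ∈ I', ∀ j ∈ I', i ≠ j → S i ∩ S j = R := by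
  obtain ⟨m, hm⟩ := unctbl_fiber (fun i => (S i).card) I₀ h
  obtain ⟨I', R, h1, h2, h3⟩ := GE_aux m S {i ∈ I₀ | (S i).card = m} hm fun i hi => hi.2
  exact ⟨I', R, fun i hi => (h1 hi).1, h2, h3⟩

end Pool.Agent.TFN
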