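import Pool.Agent.TFN.GB

/-!
# TFN module GF: two isomorphic conditions are compatible

The common extension `q`: `q.p.F = r.p.F ∪ r'.p.F`, `q.p.n = r.p.n`, `q.p.t β k = r.p.t β k` if `β ∈ r.p.F`, `= r'.p.t β k`
otherwise; `q.S = r.S ∪ r'.S`; `q.d x = ⟨(r.d x).s, (r.d x).F ∪ (r'.d x).F⟩` for `x` in both sets, `r.d x` for
`x ∈ r.S \ r'.S`, and `r'.d x` otherwise.

`q ≤ r`, `q ≤ r'`: `TPle`: `agr` from the definition and `ht`; `mono` is vacuous because the lengths are equal.  `pre`: the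
sequences are equal (`hs`).  `new` is vacuous since the sequences do not become longer.
`Syn q`: `act`: an `e` in the new set of promises at `x` comes from `r` or from `r'`; `le q (toCond x e)` by
`le_trans'` from `le q r` (resp. `le q r'`).  `dis`: let `e`, `e'` be promises at `x` of types `true`, `false`, and let `k` be in
both blocks, `|s_x| ≤ k < n`.  The blocks are computed in `r.p` for promises of `r` and in `r'.p` for promises of `r'` (their
points are in `r.p.F` resp. `r'.p.F`; use `ht` on common points).  If both come from `r` (or both from `r'`) use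
`Syn.dis` of `r` (of `r'`).  If `e` comes from `r` and `e'` from `r'` then (`x` is in both) by `hF'` there is
`e'' ∈ (r.d x).F` of the same type as `e'` with the same block below `n`; contradiction to `Syn.dis` of `r`.  If `e` comes from
`r'` and `e'` from `r`: use `hF'` for `e` (some `e'' ∈ (r.d x).F` with the type and the block of `e`).
-/

set_option autoImplicit false

namespace Pool.Agent.TFN

variable {Ω : Type} [LinearOrder Ω] [OrderBot Ω]

open Classical in
/-- the tower part of the common extension -/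
private noncomputable def GF_tp (p p' : TP Ω) : TP Ω :=
  ⟨p.F ∪ p'.F, p.n, fun β k => if β ∈ p.F then p.t β k else p'.t β k, by
    intro k
    split
    · exact p.bot k
    · exact p'.bot k⟩

private theorem GF_tp_left (p p' : TP Ω) : TPle (GF_tp p p') p := by
  refine ⟨Finset.subset_union_left, le_rfl, fun α hα k _ => if_pos hα, ?_⟩
  intro α _ β _ _ k h1 h2
  exact absurd h2 (not_lt.2 h1)

private theorem GF_tp_right (p p' : TP Ω) (hn : p.n = p'.n)
    (ht : ∀ α ∈ p.F, α ∈ p'.F → ∀ k, k < p.n → p.t α k = p'.t α k) : TPle (GF_tp p p') p' := by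
  refine ⟨Finset.subset_union_right, hn.ge, ?_, ?_⟩
  · intro α hα k hk
    by_cases h : α ∈ p.F
    · exact (if_pos h).trans (ht α h hα k (hn ▸ hk))
    · exact if_neg h
  · intro α _ β _ _ k h1 h2
    have h3 : k < p'.n := hn ▸ h2
    exact absurd h3 (not_lt.2 h1)

private theorem GF_blk {p q : TP Ω} (h : TPle q p) {e : J Ω} (h1 : e.1 ∈ p.F) (h2 : e.2.1 ∈ p.F)
    {k : ℕ} (hk : k < p.n) : Blk q e k ↔ Blk p e k := by
  unfold Blk
  rw [h.agr _ h1 k hk, h.agr _ h2 k hk]

open Classical in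
/-- the data of the common extension -/
private noncomputable def GF_d (r r' : Cond Ω) (x : Code Ω) : Dat Ω :=
  if x ∈ r.S then (if x ∈ r'.S then ⟨(r.d x).s, (r.d x).F ∪ (r'.d x).F⟩ else r.d x) else r'.d x

private theorem GF_s1 {r r' : Cond Ω} {x : Code Ω} (hx : x ∈ r.S) :
    (GF_d r r' x).s = (r.d x).s := by
  unfold GF_d
  rw [if_pos hx]
  split <;> rfl

private theorem GF_s2 {r r' : Cond Ω} {x : Code Ω} (hx : x ∈ r'.S)
    (hs : x ∈ r.S → (r.d x).s = (r'.d x).s) : (GF_d r r' x).s = (r'.d x).s := by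
  by_cases h : x ∈ r.S
  · rw [GF_s1 h, hs h]
  · unfold GF_d
    rw [if_neg h]

private theorem GF_F1 {r r' : Cond Ω} {x : Code Ω} (hx : x ∈ r.S) :
    (r.d x).F ⊆ (GF_d r r' x).F := by
  unfold GF_d
  rw [if_pos hx]
  split
  · exact Finset.subset_union_left
  · exact Finset.Subset.refl _

private theorem GF_F2 {r r' : Cond Ω} {x : Code Ω} (hx : x ∈ r'.S) :
    (r'.d x).F ⊆ (GF_d r r' x).F := by
  unfold GF_d
  by_cases h : x ∈ r.S
  · rw [if_pos h, if_pos hx]
    exact Finset.subset_union_right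
  · rw [if_neg h]

open Classical in
private theorem GF_Fi {r r' : Cond Ω} {x : Code Ω} {e : J Ω} (hx : x ∈ r.S ∪ r'.S)
    (he : e ∈ (GF_d r r' x).F) :
    (x ∈ r.S ∧ e ∈ (r.d x).F) ∨ (x ∈ r'.S ∧ e ∈ (r'.d x).F) := by
  unfold GF_d at he
  by_cases h : x ∈ r.S
  · rw [if_pos h] at he
    by_cases h' : x ∈ r'.S
    · rw [if_pos h'] at he
      rcases Finset.mem_union.1 he with he | he
      · exact Or.inl ⟨h, he⟩
      · exact Or.inr ⟨h', he⟩
    · rw [if_neg h'] at he
      exact Or.inl ⟨h, he⟩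
  · rw [if_neg h] at he
    exact Or.inr ⟨(Finset.mem_union.1 hx).resolve_left h, he⟩

theorem union_compat (r r' : PP Ω) (hn : r.1.p.n = r'.1.p.n)
    (ht : ∀ α ∈ r.1.p.F, α ∈ r'.1.p.F → ∀ k, k < r.1.p.n → r.1.p.t α k = r'.1.p.t α k)
    (hs : ∀ x ∈ r.1.S, x ∈ r'.1.S → (r.1.d x).s = (r'.1.d x).s)
    (hF' : ∀ x ∈ r.1.S, x ∈ r'.1.S → ∀ e' ∈ (r'.1.d x).F, ∃ e ∈ (r.1.d x).F, e.2.2.1 = e'.2.2.1 ∧
      ∀ k, k < r.1.p.n → (Blk r.1.p e k ↔ Blk r'.1.p e' k)) :
    ∃ q : PP Ω, q ≤ r ∧ q ≤ r' := by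
  classical
  obtain ⟨r, hr⟩ := r
  obtain ⟨r', hr'⟩ := r'
  simp only at hn ht hs hF'
  have hSr : Syn r := (mem_PP.1 hr).1
  have hSr' : Syn r' := (mem_PP.1 hr').1
  have hL := GF_tp_left r.p r'.p
  have hR := GF_tp_right r.p r'.p hn ht
  let q : Cond Ω := ⟨GF_tp r.p r'.p, r.S ∪ r'.S, GF_d r r'⟩
  have hqr : le q r := by
    refine ⟨hL, Finset.subset_union_left, ?_, fun x hx => GF_F1 hx, ?_⟩
    · intro x hx
      change (r.d x).s <+: (GF_d r r' x).s
      rw [GF_s1 hx]
    · intro x hx e _ k hk b hb _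
      change (GF_d r r' x).s[k]? = some b at hb
      rw [GF_s1 hx, List.getElem?_eq_none hk] at hb
      exact absurd hb (by simp)
  have hqr' : le q r' := by
    refine ⟨hR, Finset.subset_union_right, ?_, fun x hx => GF_F2 hx, ?_⟩
    · intro x hx
      change (r'.d x).s <+: (GF_d r r' x).s
      rw [GF_s2 hx (fun h => hs x h hx)]
    · intro x hx e _ k hk b hb _
      change (GF_d r r' x).s[k]? = some b at hb
      rw [GF_s2 hx (fun h => hs x h hx), List.getElem?_eq_none hk] at hb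
      exact absurd hb (by simp)
  have hSq : Syn q := by
    refine ⟨?_, ?_, ?_, ?_⟩
    · intro h
      rcases Finset.mem_union.1 h with h | h
      · exact hSr.nn h
      · exact hSr'.nn h
    · intro x hx
      change (GF_d r r' x).s.length ≤ r.p.n
      rcases Finset.mem_union.1 hx with h | h
      · rw [GF_s1 h]
        exact hSr.len x h
      · rw [GF_s2 h (fun h' => hs x h' h), hn]
        exact hSr'.len x h
    · intro x hx e he
      rcases GF_Fi hx he with ⟨h1, h2⟩ | ⟨h1, h2⟩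
      · obtain ⟨a1, a2, a3, a4⟩ := hSr.act x h1 e h2
        exact ⟨a1, hL.sub a2, hL.sub a3, le_trans' hSr hqr a4⟩
      · obtain ⟨a1, a2, a3, a4⟩ := hSr'.act x h1 e h2
        exact ⟨a1, hR.sub a2, hR.sub a3, le_trans' hSr' hqr' a4⟩
    · intro x hx e he e' he' hte hte' k hk hkn hb
      have hk' : k < r.p.n := hkn
      have hk'' : k < r'.p.n := hn ▸ hk'
      change (GF_d r r' x).s.length ≤ k at hk
      have hb1 : Blk (GF_tp r.p r'.p) e k := hb.1
      have hb2 : Blk (GF_tp r.p r'.p) e' k := hb.2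
      rcases GF_Fi hx he with ⟨h1, h2⟩ | ⟨h1, h2⟩
      · obtain ⟨_, a2, a3, _⟩ := hSr.act x h1 e h2
        have c1 := (GF_blk hL a2 a3 hk').1 hb1
        rw [GF_s1 h1] at hk
        rcases GF_Fi hx he' with ⟨h1', h2'⟩ | ⟨h1', h2'⟩
        · obtain ⟨_, b2, b3, _⟩ := hSr.act x h1' e' h2'
          exact hSr.dis x h1 e h2 e' h2' hte hte' k hk hk' ⟨c1, (GF_blk hL b2 b3 hk').1 hb2⟩
        · obtain ⟨_, b2, b3, _⟩ := hSr'.act x h1' e' h2'
          have c2 := (GF_blk hR b2 b3 hk'').1 hb2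
          obtain ⟨e'', he'', hty, hbl⟩ := hF' x h1 h1' e' h2'
          exact hSr.dis x h1 e h2 e'' he'' hte (hty.trans hte') k hk hk' ⟨c1, (hbl k hk').2 c2⟩
      · obtain ⟨_, a2, a3, _⟩ := hSr'.act x h1 e h2
        have c1 := (GF_blk hR a2 a3 hk'').1 hb1
        rcases GF_Fi hx he' with ⟨h1', h2'⟩ | ⟨h1', h2'⟩
        · obtain ⟨_, b2, b3, _⟩ := hSr.act x h1' e' h2'
          obtain ⟨e'', he'', hty, hbl⟩ := hF' x h1' h1 e h2
          rw [GF_s1 h1'] at hk
          exact hSr.dis x h1' e'' he'' e' h2' (hty.trans hte) hte' k hk hk'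
            ⟨(hbl k hk').2 c1, (GF_blk hL b2 b3 hk').1 hb2⟩
        · obtain ⟨_, b2, b3, _⟩ := hSr'.act x h1' e' h2'
          rw [GF_s2 h1 (fun h' => hs x h' h1)] at hk
          exact hSr'.dis x h1 e h2 e' h2' hte hte' k hk hk'' ⟨c1, (GF_blk hR b2 b3 hk'').1 hb2⟩
  have hq : ∃ ζ, q ∈ V Ω ζ := by
    refine mem_PP.2 ⟨hSq, fun x hx => ?_⟩
    rcases Finset.mem_union.1 hx with h | h
    · exact (mem_PP.1 hr).2 x h
    · exact (mem_PP.1 hr').2 x h
  exact ⟨⟨q, hq⟩, hqr, hqr'⟩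

end Pool.Agent.TFN
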