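import Pool.Agent.TFN.GE
import Pool.Agent.TFN.GF

/-!
# TFN module GG: the countable chain condition of `PP Ω`

Let `A : Set (PP Ω)` be uncountable.  Thin out successively (index type `PP Ω`, subsets of `A`, `unctbl_fiber` and
`delta_system`):
1. `r.1.p.n = n` is constant;
2. the sets `r.1.p.F` form a Delta-system with root `R`;
3. the finite function `(α ∈ R, k < n) ↦ r.1.p.t α k` is constant (values in the finite type `R → Fin n → Bool`);
4. the sets `r.1.S` form a Delta-system with root `Q` (use classical decidable equality of `Code Ω`);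
5. the function `x ∈ Q ↦ (r.1.d x).s` is constant (values in the countable type `Q → List Bool`);
6. the function `x ∈ Q ↦ {(e.2.2.1, {k < n | Blk r.1.p e k}) | e ∈ (r.1.d x).F}` is constant, values in the countable type
   `Q → Finset (Bool × Finset ℕ)` (`Finset.image` with `(Finset.range n).filter (Blk r.1.p e)`, classical decidability).
An uncountable set has two different elements `r ≠ r'`; `r.1.p.F ∩ r'.1.p.F = R` and `r.1.S ∩ r'.1.S = Q`, so
`union_compat` applies.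
-/

set_option autoImplicit false

namespace Pool.Agent.TFN

variable {Ω : Type} [LinearOrder Ω] [OrderBot Ω]

theorem PP_ccc (A : Set (PP Ω)) (hA : ¬ A.Countable) :
    ∃ r ∈ A, ∃ r' ∈ A, r ≠ r' ∧ ∃ q : PP Ω, q ≤ r ∧ q ≤ r' := by
  classical
  obtain ⟨n, h1⟩ := unctbl_fiber (fun r : PP Ω => r.1.p.n) A hA
  set A1 : Set (PP Ω) := {i ∈ A | i.1.p.n = n} with hA1
  obtain ⟨A2, R, hs2, h2, hR⟩ := delta_system (fun r : PP Ω => r.1.p.F) A1 h1
  obtain ⟨g3, h3⟩ := unctbl_fiber (fun (r : PP Ω) (a : R) (k : Fin n) => r.1.p.t a.1 k.1) A2 h2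
  set A3 : Set (PP Ω) := {i ∈ A2 | (fun (a : R) (k : Fin n) => i.1.p.t a.1 k.1) = g3} with hA3
  obtain ⟨A4, Q, hs4, h4, hQ⟩ := delta_system (fun r : PP Ω => r.1.S) A3 h3
  obtain ⟨g5, h5⟩ := unctbl_fiber (fun (r : PP Ω) (x : Q) => (r.1.d x.1).s) A4 h4
  set A5 : Set (PP Ω) := {i ∈ A4 | (fun (x : Q) => (i.1.d x.1).s) = g5} with hA5
  obtain ⟨g6, h6⟩ := unctbl_fiber (fun (r : PP Ω) (x : Q) => (r.1.d x.1).F.image
    (fun e => (e.2.2.1, (Finset.range n).filter (fun k => Blk r.1.p e k)))) A5 h5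
  set A6 : Set (PP Ω) := {i ∈ A5 | (fun (x : Q) => (i.1.d x.1).F.image
    (fun e => (e.2.2.1, (Finset.range n).filter (fun k => Blk i.1.p e k)))) = g6} with hA6
  have hnt : A6.Nontrivial := by
    rw [← Set.not_subsingleton_iff]
    exact fun hss => h6 hss.countable
  obtain ⟨r, hr, r', hr', hne⟩ := hnt
  have e1 : ∀ s ∈ A6, s.1.p.n = n := fun s hs => (hs2 (hs4 hs.1.1).1).2
  have e0 : ∀ s ∈ A6, s ∈ A := fun s hs => (hs2 (hs4 hs.1.1).1).1
  have e2 : r.1.p.F ∩ r'.1.p.F = R := hR r (hs4 hr.1.1).1 r' (hs4 hr'.1.1).1 hne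
  have e3 : ∀ s ∈ A6, (fun (a : R) (k : Fin n) => s.1.p.t a.1 k.1) = g3 := fun s hs => (hs4 hs.1.1).2
  have e4 : r.1.S ∩ r'.1.S = Q := hQ r hr.1.1 r' hr'.1.1 hne
  have e5 : ∀ s ∈ A6, (fun (x : Q) => (s.1.d x.1).s) = g5 := fun s hs => hs.1.2
  have e6 : ∀ s ∈ A6, (fun (x : Q) => (s.1.d x.1).F.image
    (fun e => (e.2.2.1, (Finset.range n).filter (fun k => Blk s.1.p e k)))) = g6 := fun s hs => hs.2
  refine ⟨r, e0 r hr, r', e0 r' hr', hne, union_compat r r' ?_ ?_ ?_ ?_⟩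
  · rw [e1 r hr, e1 r' hr']
  · intro α hα hα' k hk
    rw [e1 r hr] at hk
    have hαR : α ∈ R := by
      rw [← e2]
      exact Finset.mem_inter.2 ⟨hα, hα'⟩
    have h7 := (e3 r hr).trans (e3 r' hr').symm
    exact congrFun (congrFun h7 ⟨α, hαR⟩) ⟨k, hk⟩
  · intro x hx hx'
    have hxQ : x ∈ Q := by
      rw [← e4]
      exact Finset.mem_inter.2 ⟨hx, hx'⟩
    have h7 := (e5 r hr).trans (e5 r' hr').symm
    exact congrFun h7 ⟨x, hxQ⟩
  · intro x hx hx' e' he'
    have hxQ : x ∈ Q := by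
      rw [← e4]
      exact Finset.mem_inter.2 ⟨hx, hx'⟩
    have h7 := congrFun ((e6 r hr).trans (e6 r' hr').symm) ⟨x, hxQ⟩
    have h8 : (e'.2.2.1, (Finset.range n).filter (fun k => Blk r'.1.p e' k)) ∈ (r'.1.d x).F.image
        (fun e => (e.2.2.1, (Finset.range n).filter (fun k => Blk r'.1.p e k))) :=
      Finset.mem_image_of_mem _ he'
    have h9 := h7.symm ▸ h8
    obtain ⟨e, he, hee⟩ := Finset.mem_image.1 h9
    rw [Prod.mk.injEq] at hee
    refine ⟨e, he, hee.1, fun k hk => ?_⟩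
    rw [e1 r hr] at hk
    have h10 := congrArg (fun s => k ∈ s) hee.2
    simpa [hk] using h10

end Pool.Agent.TFN
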