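import Pool.Agent.TFN.GG
import Pool.Agent.TFN.ROdef

/-!
# TFN module GI: names give good codes

`exists_dense_seq`: by Zorn there is a maximal set `A ⊆ a.c` of pairwise incompatible conditions (no common lower bound for
different elements); it is countable by `PP_ccc` and nonempty since `a ≠ ⊥` (a maximal set cannot be empty); let `g` be a
surjection of `ℕ` onto `A` (`Set.Countable.exists_eq_range`).  By maximality every `r ∈ a.c` is compatible with an
element of `A`.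

`toCond_congr`: if `c' : Cond Ω` has the same `p`, `S` and the same data on `S` as `c`, then `le c' c`, `le c c'`, and
`Syn c → Syn c'` (for `Syn.act` use `le_trans'`-like arguments: `le c' d` iff `le c d` by going through the fields).

`exists_name`: put `act := {e | v (e.1, e.2.1, e.2.2.1) ≠ ⊥}`; for every triple with `v ≠ ⊥` choose a sequence `g` by
`exists_dense_seq`, and for `e = (β, α, ty, j)` let `c := g_{β,α,ty} j`; choose `cs e : ℕ → Code Ω` and `len e` such that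
`(Finset.range (len e)).image (cs e) = c.1.S` (enumerate the finite set `c.1.S`, `Finset.equivFin` or `Finset.toList`),
`tp e := c.1.p`, `dt e l := c.1.d (cs e l)`, and `x := Code.mk act tp len cs dt`.  Then `toCond x e` has the same `p`, `S`,
and data on `S` as `c.1` (if `cs e l = y` for the least such `l < len e` then `dt e l = c.1.d y`), so by `toCond_congr` it is
equivalent to `c.1` and satisfies `Syn`; its codes are good, and have rank `< rk x` (`rk (cs e l) < rk x`: `Order.succ_le`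
and `le_ciSup`/`Ordinal.le_iSup`).  Hence `toCond x e ∈ V (rk x)` by `mem_V`.  `GoodRel.lt` from `hv0`.  `GoodRel.inc`: if
`r ∈ V (rk x)` is below `toCond x e` and `toCond x e'` with types `true`, `false`, then `r` (an element of `PP Ω`) is in
`(v e ⊓ v e').c` (`dn`; the conditions `c`, `c'` are in `v e`, `v e'`), so `v e ⊓ v e' ≠ ⊥` and `hv` gives the claim.
-/

set_option autoImplicit false

namespace Pool.Agent.TFN

variable {Ω : Type} [LinearOrder Ω] [OrderBot Ω]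

theorem exists_dense_seq (a : RO (PP Ω)) (ha : a ≠ ⊥) :
    ∃ g : ℕ → PP Ω, (∀ j, g j ∈ a.c) ∧ ∀ r ∈ a.c, ∃ j, ∃ q : PP Ω, q ≤ r ∧ q ≤ g j := by
  classical
  obtain ⟨A, hA⟩ := zorn_subset
    {A : Set (PP Ω) | A ⊆ a.c ∧ ∀ x ∈ A, ∀ y ∈ A, x ≠ y → ¬ ∃ q : PP Ω, q ≤ x ∧ q ≤ y} (by
    intro c hc hch
    refine ⟨⋃₀ c, ⟨?_, ?_⟩, fun s hs => Set.subset_sUnion_of_mem hs⟩
    · exact Set.sUnion_subset fun s hs => (hc hs).1
    · rintro x ⟨s, hs, hx⟩ y ⟨t, ht, hy⟩ hxy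
      rcases hch.total hs ht with h | h
      · exact (hc ht).2 x (h hx) y hy hxy
      · exact (hc hs).2 x hx y (h hy) hxy)
  have hAc : A.Countable := by
    by_contra h
    obtain ⟨r, hr, r', hr', hne, q, hq⟩ := PP_ccc A h
    exact hA.prop.2 r hr r' hr' hne ⟨q, hq⟩
  have hmax : ∀ r ∈ a.c, ∃ s ∈ A, ∃ q : PP Ω, q ≤ r ∧ q ≤ s := by
    intro r hr
    by_contra h
    have hmem : insert r A ∈
        {A : Set (PP Ω) | A ⊆ a.c ∧ ∀ x ∈ A, ∀ y ∈ A, x ≠ y → ¬ ∃ q : PP Ω, q ≤ x ∧ q ≤ y} := by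
      refine ⟨Set.insert_subset hr hA.prop.1, ?_⟩
      intro x hx y hy hxy hq
      obtain ⟨q, hq1, hq2⟩ := hq
      rcases Set.mem_insert_iff.1 hx with hx' | hx'
      · rcases Set.mem_insert_iff.1 hy with hy' | hy'
        · exact hxy (hx'.trans hy'.symm)
        · exact h ⟨y, hy', q, hx' ▸ hq1, hq2⟩
      · rcases Set.mem_insert_iff.1 hy with hy' | hy'
        · exact h ⟨x, hx', q, hy' ▸ hq2, hq1⟩
        · exact hA.prop.2 x hx' y hy' hxy ⟨q, hq1, hq2⟩
    have h1 := hA.le_of_ge hmem (Set.subset_insert r A)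
    have hrA : r ∈ A := h1 (Set.mem_insert r A)
    exact h ⟨r, hrA, r, le_rfl, le_rfl⟩
  have hne : A.Nonempty := by
    by_contra h
    apply ha
    rw [RO.eq_bot_iff']
    intro p hp
    obtain ⟨s, hs, _⟩ := hmax p hp
    exact h ⟨s, hs⟩
  obtain ⟨g, hg⟩ := hAc.exists_eq_range hne
  refine ⟨g, fun j => hA.prop.1 (by rw [hg]; exact ⟨j, rfl⟩), fun r hr => ?_⟩
  obtain ⟨s, hs, q, hq⟩ := hmax r hr
  rw [hg] at hs
  obtain ⟨j, rfl⟩ := hs
  exact ⟨j, q, hq⟩

private theorem GI_aux {c c' d : Cond Ω} (hp : c'.p = c.p) (hS : c'.S = c.S)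
    (hd : ∀ x ∈ c.S, c'.d x = c.d x) (h : le c d) : le c' d :=
  ⟨by rw [hp]; exact h.tp, by rw [hS]; exact h.sub,
    fun x hx => by rw [hd x (h.sub hx)]; exact h.pre x hx,
    fun x hx => by rw [hd x (h.sub hx)]; exact h.prm x hx,
    fun x hx e he k hk b hb hB => by
      rw [hd x (h.sub hx)] at hb
      rw [hp] at hB
      exact h.new x hx e he k hk b hb hB⟩

theorem toCond_congr {c c' : Cond Ω} (hp : c'.p = c.p) (hS : c'.S = c.S) (hd : ∀ x ∈ c.S, c'.d x = c.d x) :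
    le c' c ∧ le c c' ∧ (Syn c → Syn c') := by
  have hd' : ∀ x ∈ c'.S, c.d x = c'.d x := fun x hx => (hd x (hS ▸ hx)).symm
  refine ⟨GI_aux hp hS hd (le_refl' c), GI_aux hp.symm hS.symm hd' (le_refl' c'), fun h => ⟨?_, ?_, ?_, ?_⟩⟩
  · rw [hS]; exact h.nn
  · intro x hx
    rw [hS] at hx
    rw [hd x hx, hp]
    exact h.len x hx
  · intro x hx e he
    rw [hS] at hx
    rw [hd x hx] at he
    obtain ⟨h1, h2, h3, h4⟩ := h.act x hx e he
    rw [hp]
    exact ⟨h1, h2, h3, GI_aux hp hS hd h4⟩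
  · intro x hx e he e' he'
    rw [hS] at hx
    rw [hd x hx] at he he' ⊢
    rw [hp]
    exact h.dis x hx e he e' he'

open Classical in
private theorem GI_enum (S : Finset (Code Ω)) :
    ∃ (n : ℕ) (f : ℕ → Code Ω), (Finset.range n).image f = S := by
  refine ⟨S.toList.length, fun l => S.toList.getD l Code.nil, ?_⟩
  ext y
  rw [Finset.mem_image, ← Finset.mem_toList, List.mem_iff_getElem]
  constructor
  · rintro ⟨l, hl, hl'⟩
    rw [Finset.mem_range] at hl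
    refine ⟨l, hl, ?_⟩
    rw [← hl', List.getD_eq_getElem _ _ hl]
  · rintro ⟨l, hl, hl'⟩
    refine ⟨l, Finset.mem_range.2 hl, ?_⟩
    rw [List.getD_eq_getElem _ _ hl, hl']

theorem exists_name (v : Ω × Ω × Bool → RO (PP Ω)) (hv0 : ∀ β α ty, ¬ β < α → v (β, α, ty) = ⊥)
    (hv : ∀ β α β' α', ¬ (α ≤ β' ∨ α' ≤ β) → v (β, α, true) ⊓ v (β', α', false) = ⊥) :
    ∃ (x : Code Ω) (hx : Good x), (∀ (e : J Ω) (he : e ∈ x.act), toPP hx he ∈ (v (e.1, e.2.1, e.2.2.1)).c) ∧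
      ∀ β α ty, ∀ r ∈ (v (β, α, ty)).c, ∃ (j : ℕ) (he : ((β, α, ty, j) : J Ω) ∈ x.act) (q : PP Ω),
        q ≤ r ∧ q ≤ toPP hx he := by
  classical
  have hg : ∀ t : Ω × Ω × Bool, ∃ g : ℕ → PP Ω, v t ≠ ⊥ →
      (∀ j, g j ∈ (v t).c) ∧ ∀ r ∈ (v t).c, ∃ j, ∃ q : PP Ω, q ≤ r ∧ q ≤ g j := by
    intro t
    by_cases h : v t = ⊥
    · exact ⟨fun _ => PP.nonempty.some, fun h' => (h' h).elim⟩
    · obtain ⟨g, hg⟩ := exists_dense_seq (v t) h
      exact ⟨g, fun _ => hg⟩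
  choose g hg using hg
  choose n f hf using GI_enum (Ω := Ω)
  obtain ⟨c, hc⟩ : ∃ c : J Ω → PP Ω, ∀ e, c e = g (e.1, e.2.1, e.2.2.1) e.2.2.2 := ⟨_, fun _ => rfl⟩
  obtain ⟨x, hxdef⟩ : ∃ x : Code Ω, x = Code.mk {e | v (e.1, e.2.1, e.2.2.1) ≠ ⊥} (fun e => (c e).1.p)
    (fun e => n (c e).1.S) (fun e => f (c e).1.S) (fun e l => (c e).1.d (f (c e).1.S l)) := ⟨_, rfl⟩
  have hact : ∀ e : J Ω, e ∈ x.act ↔ v (e.1, e.2.1, e.2.2.1) ≠ ⊥ := by
    intro e
    rw [hxdef]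
    exact Iff.rfl
  have hp : ∀ e, (toCond x e).p = (c e).1.p := by
    intro e
    rw [hxdef]
    rfl
  have hS : ∀ e, (toCond x e).S = (c e).1.S := by
    intro e
    rw [hxdef]
    exact hf (c e).1.S
  have hd : ∀ e, ∀ y ∈ (c e).1.S, (toCond x e).d y = (c e).1.d y := by
    intro e y hy
    have hmem : ∃ l, l < n (c e).1.S ∧ f (c e).1.S l = y := by
      rw [← hf (c e).1.S, Finset.mem_image] at hy
      obtain ⟨l, hl, hl'⟩ := hy
      exact ⟨l, Finset.mem_range.1 hl, hl'⟩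
    rw [hxdef]
    have h1 : (toCond (Code.mk {e | v (e.1, e.2.1, e.2.2.1) ≠ ⊥} (fun e => (c e).1.p)
        (fun e => n (c e).1.S) (fun e => f (c e).1.S) (fun e l => (c e).1.d (f (c e).1.S l))) e).d y
        = if h : ∃ l, l < n (c e).1.S ∧ f (c e).1.S l = y then
          (c e).1.d (f (c e).1.S (Nat.find h)) else ⟨[], ∅⟩ := rfl
    rw [h1, dif_pos hmem, (Nat.find_spec hmem).2]
  have hcg : ∀ e, le (toCond x e) (c e).1 ∧ le (c e).1 (toCond x e) ∧ (Syn (c e).1 → Syn (toCond x e)) :=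
    fun e => toCond_congr (hp e) (hS e) (hd e)
  have hsyn : ∀ e, Syn (toCond x e) := fun e => (hcg e).2.2 (PP.syn (c e))
  have hrk : ∀ e, ∀ y ∈ (c e).1.S, rk y < rk x := by
    intro e y hy
    rw [← hf (c e).1.S, Finset.mem_image] at hy
    obtain ⟨l, hl, rfl⟩ := hy
    rw [hxdef]
    have h1 : rk (Code.mk {e | v (e.1, e.2.1, e.2.2.1) ≠ ⊥} (fun e => (c e).1.p)
        (fun e => n (c e).1.S) (fun e => f (c e).1.S) (fun e l => (c e).1.d (f (c e).1.S l)))
        = ⨆ a : J Ω × ℕ, Order.succ (rk (f (c a.1).1.S a.2)) := by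
      rw [rk]
    rw [h1]
    exact Order.succ_le_iff.1 (Ordinal.le_iSup (fun a : J Ω × ℕ => Order.succ (rk (f (c a.1).1.S a.2))) (e, l))
  have hin : ∀ e, e ∈ x.act → c e ∈ (v (e.1, e.2.1, e.2.2.1)).c := by
    intro e he
    rw [hc e]
    exact (hg _ ((hact e).1 he)).1 _
  have hx : Good x := by
    refine ⟨?_, ?_, ?_, ?_⟩
    · rw [hxdef]
      intro h
      cases h
    · intro e he
      by_contra h
      exact (hact e).1 he (hv0 _ _ _ h)
    · intro e _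
      refine mem_V.2 ⟨hsyn e, fun y hy => ?_⟩
      rw [hS e] at hy
      exact ⟨hrk e y hy, PP.good (c e) hy⟩
    · intro e he e' he' ht ht' hr
      obtain ⟨r, hr, h1, h2⟩ := hr
      by_contra hcon
      have h3 := hv e.1 e.2.1 e'.1 e'.2.1 hcon
      obtain ⟨R, hR⟩ : ∃ R : PP Ω, R.1 = r := ⟨⟨r, rk x, hr⟩, rfl⟩
      have h4 : R ≤ c e := PP.le_def.2 (by rw [hR]; exact le_trans' (hsyn e) h1 (hcg e).1)
      have h5 : R ≤ c e' := PP.le_def.2 (by rw [hR]; exact le_trans' (hsyn e') h2 (hcg e').1)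
      have h6 := (v (e.1, e.2.1, e.2.2.1)).dn _ (hin e he) _ h4
      have h7 := (v (e'.1, e'.2.1, e'.2.2.1)).dn _ (hin e' he') _ h5
      rw [ht] at h6
      rw [ht'] at h7
      have h8 : R ∈ (v (e.1, e.2.1, true) ⊓ v (e'.1, e'.2.1, false)).c := ⟨h6, h7⟩
      rw [h3] at h8
      exact RO.not_mem_bot h8
  refine ⟨x, hx, ?_, ?_⟩
  · intro e he
    exact (v (e.1, e.2.1, e.2.2.1)).dn _ (hin e he) _ (hcg e).1
  · intro β α ty r hr
    have hne : v (β, α, ty) ≠ ⊥ := by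
      intro h
      rw [h] at hr
      exact RO.not_mem_bot hr
    obtain ⟨j, q, hq1, hq2⟩ := (hg _ hne).2 r hr
    refine ⟨j, (hact (β, α, ty, j)).2 hne, q, hq1, ?_⟩
    have h1 : c (β, α, ty, j) = g (β, α, ty) j := hc _
    rw [← h1] at hq2
    exact le_trans' (PP.syn (c (β, α, ty, j))) hq2 (hcg (β, α, ty, j)).2.1

end Pool.Agent.TFN
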