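import Pool.Agent.TFN.GK

/-!
# TFN module GL: the index set

`Ω := (Cardinal.aleph (n + 1)).ord.ToType` (well-ordered, nonempty, so it has a least element: `OrderBot` from
`WellFounded.min`).  `bdd`: `aleph (n + 1)` is regular, so a subset `A` of cardinality `≤ aleph n < aleph (n + 1)` is not
cofinal: e.g. `Ordinal.lt_cof_type`-like lemmas (`Cardinal.IsRegular.cof_eq`, `Ordinal.cof_type`, `Order.cof`), or the
union of the sets `Set.Iic a`, `a ∈ A`, has cardinality at most `aleph n` (each `Set.Iic a` has cardinality `≤ aleph n`), so it is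
not everything, and any element outside of it is a strict upper bound of `A`.
-/

set_option autoImplicit false

namespace Pool.Agent.TFN

theorem exists_Om (n : ℕ) : ∃ (Ω : Type) (_ : LinearOrder Ω) (_ : OrderBot Ω), Om n Ω := by
  have hreg : (Cardinal.aleph.{0} ((n : Ordinal.{0}) + 1)).IsRegular := Cardinal.isRegular_aleph_add_one _
  let o : Ordinal.{0} := (Cardinal.aleph.{0} ((n : Ordinal.{0}) + 1)).ord
  have hne : Nonempty o.ToType := by
    rw [Ordinal.nonempty_toType_iff]
    intro h0
    have h1 : (Cardinal.aleph.{0} ((n : Ordinal.{0}) + 1)) = 0 := Cardinal.ord_eq_zero.1 h0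
    exact (Cardinal.aleph_pos _).ne' h1
  have hwf : WellFounded ((· < ·) : o.ToType → o.ToType → Prop) := IsWellFounded.wf
  let ob : OrderBot o.ToType :=
    { bot := hwf.min Set.univ ⟨hne.some, trivial⟩
      bot_le := fun a => not_lt.1 (hwf.not_lt_min Set.univ (Set.mem_univ a)) }
  refine ⟨o.ToType, inferInstance, ob, hwf, ?_⟩
  intro A hA
  have hlt : Cardinal.mk A < Order.cof o.ToType := by
    rw [Ordinal.cof_toType, hreg.cof_ord]
    refine lt_of_le_of_lt hA ?_
    rw [Cardinal.aleph_lt_aleph]
    exact lt_add_one (n : Ordinal.{0})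
  by_contra hcon
  push Not at hcon
  have hc : IsCofinal A := by
    intro b
    obtain ⟨a, ha, hab⟩ := hcon b
    exact ⟨a, ha, hab⟩
  exact absurd (Order.cof_le hc) (not_le.2 hlt)

end Pool.Agent.TFN
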